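import Mathlib
import Pool.Agent.N733.TG.G

set_option autoImplicit false

/-! Multiplicative functions which are injective at the powers of the large primes: fibres over rough numbers, squarefree
or not (helper405). -/

namespace Pool.Agent.U405.RS

open Finset Classical
open Pool.Agent.N733.TG (sp rp sp_mul_rp sp_pos rp_pos le_of_dvd_sp lt_of_dvd_rp coprime_sp_rp Rough LM omega_le)

/-- a positive multiplicative function of polynomial growth; for each `a ≥ 1` it is injective at the `a`-th powers `p ^ a` of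
the large primes, and there at most `M p ^ a` -/
structure PM (f : ℕ → ℕ) : Prop where
  mul : ∀ m n : ℕ, Nat.Coprime m n → f (m * n) = f m * f n
  pos : ∀ m : ℕ, 1 ≤ m → 1 ≤ f m
  growth : ∃ C D : ℕ, ∀ m : ℕ, 1 ≤ m → f m ≤ C * m ^ D
  prime : ∃ P M : ℕ, ∀ p : ℕ, P ≤ p → p.Prime → ∀ a : ℕ, 1 ≤ a → f (p ^ a) ≤ M * p ^ a ∧
    ∀ q : ℕ, P ≤ q → q.Prime → f (q ^ a) = f (p ^ a) → q = p

lemma PM.lm {f : ℕ → ℕ} (hf : PM f) : LM f := by
  refine ⟨hf.mul, hf.pos, hf.growth, ?_⟩
  obtain ⟨P, M, h⟩ := hf.prime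
  refine ⟨P, M, fun p hp hpp => ?_⟩
  have := h p hp hpp 1 le_rfl
  rw [pow_one] at this
  refine ⟨this.1, fun q hq hqq he => this.2 q hq hqq ?_⟩
  rw [pow_one]
  exact he

lemma PM.fact {f : ℕ → ℕ} (hf : PM f) {u : ℕ} (hu : u ≠ 0) :
    f u = ∏ p ∈ u.primeFactors, f (p ^ u.factorization p) := by
  rw [Nat.multiplicative_factorization f hf.mul hf.lm.one hu]
  rfl

/-- subsets of at most `J` elements -/
lemma small_subsets {α : Type*} [DecidableEq α] (D : Finset α) (J : ℕ) :
    (D.powerset.filter (fun S => S.card ≤ J)).card ≤ (D.card + 1) ^ J := by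
  have h1 : ((Fintype.piFinset (fun _ : Fin J => D.insertNone)) : Finset (Fin J → Option α)).card = (D.card + 1) ^ J := by
    rw [Fintype.card_piFinset_const, card_insertNone]
  rw [← h1]
  apply Finset.card_le_card_of_surjOn (fun g : Fin J → Option α => (univ.image g).eraseNone)
  intro S hS
  rw [mem_coe, mem_filter, mem_powerset] at hS
  refine ⟨fun i => S.toList[(i : ℕ)]?, ?_, ?_⟩
  · rw [mem_coe, Fintype.mem_piFinset]
    intro i
    rw [mem_insertNone]
    intro a ha
    have : a ∈ S.toList := List.mem_iff_getElem?.2 ⟨i, ha⟩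
    exact hS.1 (mem_toList.1 this)
  · ext x
    simp only [mem_eraseNone, mem_image, mem_univ, true_and]
    constructor
    · rintro ⟨i, hi⟩
      exact mem_toList.1 (List.mem_iff_getElem?.2 ⟨i, hi⟩)
    · intro hx
      obtain ⟨i, hi⟩ := List.mem_iff_getElem?.1 (mem_toList.2 hx)
      have hi2 : i < S.toList.length := (List.getElem?_eq_some_iff.1 hi).1
      rw [length_toList] at hi2
      exact ⟨⟨i, lt_of_lt_of_le hi2 hS.2⟩, hi⟩

lemma exp_le {N J z u p : ℕ} (hN : N < (z + 1) ^ (J + 1)) (hu : Rough z u) (hu1 : 1 ≤ u) (huN : u ≤ N)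
    (hp : p ∈ u.primeFactors) : u.factorization p ≤ J := by
  have hpp := Nat.prime_of_mem_primeFactors hp
  have hz : z < p := hu p hpp (Nat.dvd_of_mem_primeFactors hp)
  have h1 : (z + 1) ^ u.factorization p ≤ p ^ u.factorization p := Nat.pow_le_pow_left hz _
  have h2 : p ^ u.factorization p ≤ u := Nat.ordProj_le p (by omega)
  have h3 : (z + 1) ^ u.factorization p < (z + 1) ^ (J + 1) := by omega
  rcases Nat.eq_zero_or_pos z with h0 | h0
  · subst h0
    simp at h3
  · have := (Nat.pow_lt_pow_iff_right (show 1 < z + 1 by omega)).1 h3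
    omega

/-- few preimages among the rough numbers -/
lemma fiber {f : ℕ → ℕ} (hf : PM f) {P M : ℕ}
    (hP : ∀ p : ℕ, P ≤ p → p.Prime → ∀ a : ℕ, 1 ≤ a → f (p ^ a) ≤ M * p ^ a ∧
      ∀ q : ℕ, P ≤ q → q.Prime → f (q ^ a) = f (p ^ a) → q = p)
    {z J N v : ℕ} (hz : P ≤ z) (hN : N < (z + 1) ^ (J + 1)) (hv : 1 ≤ v) (U : Finset ℕ)
    (h1 : ∀ u ∈ U, 1 ≤ u ∧ u ≤ N) (h2 : ∀ u ∈ U, Rough z u) (h4 : ∀ u ∈ U, f u = v) :
    U.card ≤ (J * v.divisors.card + 1) ^ J := by
  have hcard : ((Icc 1 J) ×ˢ v.divisors).card = J * v.divisors.card := by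
    rw [card_product, Nat.card_Icc, Nat.add_sub_cancel]
  rw [← hcard]
  refine le_trans ?_ (small_subsets ((Icc 1 J) ×ˢ v.divisors) J)
  apply card_le_card_of_injOn (fun u => u.primeFactors.image (fun p => (u.factorization p, f (p ^ u.factorization p))))
  · intro u hu
    rw [mem_coe] at hu
    obtain ⟨hu1, huN⟩ := h1 u hu
    rw [mem_coe, mem_filter, mem_powerset]
    constructor
    · intro d hd
      rw [mem_image] at hd
      obtain ⟨p, hp, rfl⟩ := hd
      rw [mem_product, mem_Icc, Nat.mem_divisors]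
      have hpp := Nat.prime_of_mem_primeFactors hp
      refine ⟨⟨hpp.factorization_pos_of_dvd (by omega) (Nat.dvd_of_mem_primeFactors hp),
        exp_le hN (h2 u hu) hu1 huN hp⟩, ?_, by omega⟩
      rw [← h4 u hu, hf.fact (by omega : u ≠ 0)]
      exact dvd_prod_of_mem (fun p => f (p ^ u.factorization p)) hp
    · exact card_image_le.trans (omega_le hN (h2 u hu) hu1 huN)
  · intro u hu w hw huw
    rw [mem_coe] at hu hw
    obtain ⟨hu1, huN⟩ := h1 u hu
    obtain ⟨hw1, hwN⟩ := h1 w hw
    simp only at huw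
    have key : ∀ u w : ℕ, u ∈ U → w ∈ U → (u.primeFactors.image (fun p => (u.factorization p, f (p ^ u.factorization p)))) =
        (w.primeFactors.image (fun p => (w.factorization p, f (p ^ w.factorization p)))) →
        ∀ p ∈ u.primeFactors, u.factorization p ≤ w.factorization p := by
      intro u w hu hw huw p hp
      obtain ⟨hu1, huN⟩ := h1 u hu
      have hpp := Nat.prime_of_mem_primeFactors hp
      have hm : (u.factorization p, f (p ^ u.factorization p)) ∈
          (w.primeFactors.image (fun p => (w.factorization p, f (p ^ w.factorization p)))) := by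
        rw [← huw]
        exact mem_image.2 ⟨p, hp, rfl⟩
      rw [mem_image] at hm
      obtain ⟨q, hq, he⟩ := hm
      have hqq := Nat.prime_of_mem_primeFactors hq
      rw [Prod.mk.injEq] at he
      obtain ⟨e1, e2⟩ := he
      rw [e1] at e2
      have hzp : z < p := h2 u hu p hpp (Nat.dvd_of_mem_primeFactors hp)
      have hzq : z < q := h2 w hw q hqq (Nat.dvd_of_mem_primeFactors hq)
      have hpos : 1 ≤ u.factorization p := hpp.factorization_pos_of_dvd (by omega) (Nat.dvd_of_mem_primeFactors hp)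
      have := (hP p (by omega) hpp _ hpos).2 q (by omega) hqq e2
      subst this
      exact e1.ge
    apply Nat.eq_of_factorization_eq (by omega) (by omega)
    intro p
    apply le_antisymm
    · by_cases hp : p ∈ u.primeFactors
      · exact key u w hu hw huw p hp
      · rw [← Nat.support_factorization, Finsupp.notMem_support_iff] at hp
        rw [hp]
        exact Nat.zero_le _
    · by_cases hp : p ∈ w.primeFactors
      · exact key w u hw hu huw.symm p hp
      · rw [← Nat.support_factorization, Finsupp.notMem_support_iff] at hp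
        rw [hp]
        exact Nat.zero_le _

lemma size {f : ℕ → ℕ} (hf : PM f) {P M : ℕ} (hM : 1 ≤ M)
    (hP : ∀ p : ℕ, P ≤ p → p.Prime → ∀ a : ℕ, 1 ≤ a → f (p ^ a) ≤ M * p ^ a)
    {z J N u : ℕ} (hz : P ≤ z) (hN : N < (z + 1) ^ (J + 1)) (hu1 : 1 ≤ u) (huN : u ≤ N) (hu : Rough z u) :
    f u ≤ M ^ J * u := by
  have hc := omega_le hN hu hu1 huN
  rw [hf.fact (by omega : u ≠ 0)]
  calc ∏ p ∈ u.primeFactors, f (p ^ u.factorization p) ≤ ∏ p ∈ u.primeFactors, (M * p ^ u.factorization p) := by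
        apply prod_le_prod' 
        intro p hp
        have hpp := Nat.prime_of_mem_primeFactors hp
        have hzp : z < p := hu p hpp (Nat.dvd_of_mem_primeFactors hp)
        exact hP p (by omega) hpp _ (hpp.factorization_pos_of_dvd (by omega) (Nat.dvd_of_mem_primeFactors hp))
    _ = M ^ u.primeFactors.card * u := by
        rw [prod_mul_distrib, prod_const]
        congr 1
        exact Nat.prod_factorization_pow_eq_self (by omega)
    _ ≤ M ^ J * u := Nat.mul_le_mul_right _ (Nat.pow_le_pow_right hM hc)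

/-- the number of `u ≤ N` rough with `f k * f u ∈ W` -/
lemma row {f : ℕ → ℕ} (hf : PM f) {P M : ℕ}
    (hP : ∀ p : ℕ, P ≤ p → p.Prime → ∀ a : ℕ, 1 ≤ a → f (p ^ a) ≤ M * p ^ a ∧
      ∀ q : ℕ, P ≤ q → q.Prime → f (q ^ a) = f (p ^ a) → q = p)
    {z J N k X D : ℕ} (hz : P ≤ z) (hN : N < (z + 1) ^ (J + 1)) (hk : 1 ≤ k) (W : Set ℕ)
    (hX : ∀ u : ℕ, 1 ≤ u → u ≤ N → Rough z u → f k * f u ≤ X)
    (hD : ∀ v : ℕ, 1 ≤ v → v ≤ X → v.divisors.card ≤ D) :
    ((Icc 1 N).filter (fun u => Rough z u ∧ f k * f u ∈ W)).card ≤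
      ((Icc 1 X).filter (fun v => v ∈ W)).card * (J * D + 1) ^ J := by
  have hfk := hf.pos k hk
  rw [mul_comm]
  apply card_le_mul_card_image_of_maps_to (f := fun u => f k * f u)
  · intro u hu
    rw [mem_filter, mem_Icc] at hu
    obtain ⟨⟨hu1, huN⟩, hr, hw⟩ := hu
    rw [mem_filter, mem_Icc]
    refine ⟨⟨?_, hX u hu1 huN hr⟩, hw⟩
    exact Nat.mul_pos hfk (hf.pos u hu1)
  · intro v hv
    rw [mem_filter, mem_Icc] at hv
    rcases Finset.eq_empty_or_nonempty
      (((Icc 1 N).filter (fun u => Rough z u ∧ f k * f u ∈ W)).filter (fun u => f k * f u = v)) with h0 | h0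
    · rw [h0, card_empty]
      exact Nat.zero_le _
    obtain ⟨u0, hu0⟩ := h0
    rw [mem_filter, mem_filter, mem_Icc] at hu0
    have hv1 : 1 ≤ f u0 := hf.pos u0 hu0.1.1.1
    have hvX : f u0 ≤ X := by
      have h1 : f u0 ≤ f k * f u0 := Nat.le_mul_of_pos_left _ hfk
      omega
    refine (fiber hf hP (z := z) (J := J) (N := N) (v := f u0) hz hN hv1 _ ?_ ?_ ?_).trans ?_
    · intro u hu
      rw [mem_filter, mem_filter, mem_Icc] at hu
      exact hu.1.1
    · intro u hu
      rw [mem_filter, mem_filter, mem_Icc] at hu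
      exact hu.1.2.1
    · intro u hu
      rw [mem_filter, mem_filter, mem_Icc] at hu
      have h1 : f k * f u = f k * f u0 := by rw [hu.2, hu0.2]
      exact Nat.eq_of_mul_eq_mul_left hfk h1
    · apply Nat.pow_le_pow_left
      have := hD _ hv1 hvX
      exact Nat.add_le_add_right (Nat.mul_le_mul_left _ this) _

end Pool.Agent.U405.RS
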