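import Mathlib
import Pool.Agent.U405.RS.A
import Pool.Agent.H398R2.RK.Smooth

set_option autoImplicit false

/-! Rankin's method with the weights `g ^ ω(n)`, and the smooth parts of the elements of a regular set (helper405). -/

namespace Pool.Agent.U405.RS

open Finset Classical
open Pool.Agent.N733.TG (sp rp sp_mul_rp sp_pos rp_pos le_of_dvd_sp lt_of_dvd_rp coprime_sp_rp Rough)
open Pool.Agent.H318R2.Cr (Pz mem_Pz)

/-- the weight `g ^ ω(n) n ^ (-σ)` -/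
noncomputable def wt (g : ℕ) (σ : ℝ) (n : ℕ) : ℝ := (g : ℝ) ^ n.primeFactors.card * (n : ℝ) ^ (-σ)

lemma wt_one (g : ℕ) (σ : ℝ) : wt g σ 1 = 1 := by simp [wt]

lemma wt_nonneg (g : ℕ) (σ : ℝ) (n : ℕ) : 0 ≤ wt g σ n := by unfold wt; positivity

lemma wt_mul (g : ℕ) (σ : ℝ) {m n : ℕ} (h : Nat.Coprime m n) : wt g σ (m * n) = wt g σ m * wt g σ n := by
  unfold wt
  rw [h.primeFactors_mul, card_union_of_disjoint h.disjoint_primeFactors, pow_add]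
  push_cast
  rw [Real.mul_rpow (by positivity) (by positivity)]
  ring

lemma wt_pow {g : ℕ} {σ : ℝ} (hσ : 0 < σ) {p : ℕ} (hp : p.Prime) :
    (fun k : ℕ => wt g σ (p ^ k)) =
      fun k : ℕ => (g : ℝ) * ((p : ℝ) ^ (-σ)) ^ k - (if k = 0 then ((g : ℝ) - 1) else 0) := by
  funext k
  unfold wt
  rcases Nat.eq_zero_or_pos k with rfl | hk
  · simp
  · rw [Nat.primeFactors_prime_pow hk.ne' hp, card_singleton, pow_one, if_neg hk.ne', sub_zero]
    congr 1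
    push_cast
    rw [← Real.rpow_natCast, ← Real.rpow_natCast, ← Real.rpow_mul (by positivity), ← Real.rpow_mul (by positivity)]
    congr 1
    ring

lemma wt_hasSum {g : ℕ} {σ : ℝ} (hσ : 0 < σ) {p : ℕ} (hp : p.Prime) :
    HasSum (fun k : ℕ => wt g σ (p ^ k)) ((g : ℝ) * (1 - (p : ℝ) ^ (-σ))⁻¹ - ((g : ℝ) - 1)) := by
  rw [wt_pow hσ hp]
  have hy0 : 0 ≤ (p : ℝ) ^ (-σ) := by positivity
  have hy1 := Pool.Agent.H398R2.RK.pow_lt_one' hσ hp
  exact ((hasSum_geometric_of_lt_one hy0 hy1).mul_left _).sub (hasSum_ite_eq 0 ((g : ℝ) - 1))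

theorem smooth_tsum {σ : ℝ} (hσ : 0 < σ) (g v L : ℕ) :
    ∑ n ∈ (Icc 1 L).filter (fun n => ∀ p : ℕ, p.Prime → p ∣ n → p ≤ v), wt g σ n ≤
      (∏ p ∈ Pz v, (1 - (p : ℝ) ^ (-σ))⁻¹) ^ g := by
  have h := EulerProduct.summable_and_hasSum_factoredNumbers_prod_filter_prime_tsum
    (f := wt g σ) (wt_one g σ) (fun {m n} h => wt_mul g σ h) (by
      intro p hp
      have h1 : (fun n : ℕ => ‖wt g σ (p ^ n)‖) = fun n : ℕ => wt g σ (p ^ n) := by
        funext n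
        exact Real.norm_of_nonneg (wt_nonneg _ _ _)
      rw [h1]
      exact (wt_hasSum hσ hp).summable) (Ioc 0 v)
  have h2 := h.2
  have e1 : (∏ p ∈ (Ioc 0 v) with p.Prime, ∑' n : ℕ, wt g σ (p ^ n)) =
      ∏ p ∈ Pz v, ((g : ℝ) * (1 - (p : ℝ) ^ (-σ))⁻¹ - ((g : ℝ) - 1)) := by
    apply prod_congr rfl
    intro p hp
    exact (wt_hasSum hσ (mem_Pz.1 hp).1).tsum_eq
  rw [e1] at h2
  obtain ⟨S, hS⟩ : ∃ S : Finset ℕ, S = (Icc 1 L).filter (fun n => ∀ p : ℕ, p.Prime → p ∣ n → p ≤ v) := ⟨_, rfl⟩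
  rw [← hS]
  have hmem : ∀ n ∈ S, n ∈ Nat.factoredNumbers (Ioc 0 v) := by
    intro n hn
    rw [hS, mem_filter, mem_Icc] at hn
    rw [Nat.mem_factoredNumbers]
    refine ⟨by omega, fun p hp => ?_⟩
    have hpp := Nat.prime_of_mem_primeFactorsList hp
    rw [mem_Ioc]
    exact ⟨hpp.pos, hn.2 p hpp (Nat.dvd_of_mem_primeFactorsList hp)⟩
  have h3 := sum_le_hasSum (S.attach.image (fun n => (⟨n.1, hmem n.1 n.2⟩ : Nat.factoredNumbers (Ioc 0 v))))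
    (fun i _ => wt_nonneg g σ i.1) h2
  rw [sum_image (by
    intro a _ b _ hab
    have := congrArg Subtype.val hab
    exact Subtype.ext this)] at h3
  have h4 : ∑ n ∈ S, wt g σ n ≤ ∏ p ∈ Pz v, ((g : ℝ) * (1 - (p : ℝ) ^ (-σ))⁻¹ - ((g : ℝ) - 1)) := by
    refine le_trans (le_of_eq ?_) h3
    rw [← sum_attach]
  refine h4.trans ?_
  rw [← prod_pow]
  apply prod_le_prod
  · intro p hp
    have hpp := (mem_Pz.1 hp).1
    have hy0 : 0 ≤ (p : ℝ) ^ (-σ) := by positivity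
    have hy1 := Pool.Agent.H398R2.RK.pow_lt_one' hσ hpp
    have h5 : 1 ≤ (1 - (p : ℝ) ^ (-σ))⁻¹ := (one_le_inv₀ (by linarith)).2 (by linarith)
    have hg : (0 : ℝ) ≤ g := by positivity
    nlinarith
  · intro p hp
    have hpp := (mem_Pz.1 hp).1
    have hy0 : 0 ≤ (p : ℝ) ^ (-σ) := by positivity
    have hy1 := Pool.Agent.H398R2.RK.pow_lt_one' hσ hpp
    have h5 : 1 ≤ (1 - (p : ℝ) ^ (-σ))⁻¹ := (one_le_inv₀ (by linarith)).2 (by linarith)
    have h6 := one_add_mul_le_pow (a := (1 - (p : ℝ) ^ (-σ))⁻¹ - 1) (by linarith) g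
    have h7 : 1 + ((1 - (p : ℝ) ^ (-σ))⁻¹ - 1) = (1 - (p : ℝ) ^ (-σ))⁻¹ := by ring
    rw [h7] at h6
    linarith

/-- a smooth number larger than `Y` has a divisor just below `Y` -/
lemma divisor_below {n z : ℕ} {Y : ℝ} (hn : 1 ≤ n) (hs : ∀ p : ℕ, p.Prime → p ∣ n → p ≤ z) (hY1 : 1 ≤ Y)
    (hY : Y < (n : ℝ)) : ∃ k : ℕ, k ∣ n ∧ (k : ℝ) ≤ Y ∧ Y < (k : ℝ) * z := by
  have hne : (n.divisors.filter (fun k : ℕ => (k : ℝ) ≤ Y)).Nonempty :=
    ⟨1, by rw [mem_filter, Nat.mem_divisors]; exact ⟨⟨one_dvd _, by omega⟩, by simpa using hY1⟩⟩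
  obtain ⟨k, hk, hmax⟩ := (n.divisors.filter (fun k : ℕ => (k : ℝ) ≤ Y)).exists_max_image id hne
  rw [mem_filter, Nat.mem_divisors] at hk
  obtain ⟨⟨hkn, -⟩, hkY⟩ := hk
  refine ⟨k, hkn, hkY, ?_⟩
  obtain ⟨c, hc⟩ := hkn
  have hk0 : 0 < k := by
    rcases Nat.eq_zero_or_pos k with h | h
    · subst h; omega
    · exact h
  have hc1 : c ≠ 1 := by
    rintro rfl
    rw [mul_one] at hc
    subst hc
    linarith
  obtain ⟨p, hp, hpc⟩ := Nat.exists_prime_and_dvd hc1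
  have hpz : p ≤ z := hs p hp (hpc.trans ⟨k, by rw [hc]; ring⟩)
  have hkp : k * p ∣ n := by rw [hc]; exact Nat.mul_dvd_mul_left k hpc
  have h1 : Y < ((k * p : ℕ) : ℝ) := by
    by_contra hcon
    push Not at hcon
    have := hmax (k * p) (by rw [mem_filter, Nat.mem_divisors]; exact ⟨⟨hkp, by omega⟩, hcon⟩)
    simp only [id] at this
    have h2 := hp.two_le
    nlinarith
  refine h1.trans_le ?_
  push_cast
  have : (p : ℝ) ≤ z := by exact_mod_cast hpz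
  exact mul_le_mul_of_nonneg_left this (by positivity)

/-- few elements of a regular set have a large smooth part -/
theorem few_large (g : ℕ) : ∃ C : ℝ, 0 < C ∧ ∀ (β B : ℝ) (z : ℕ) (Y : ℝ) (S : Finset ℕ), 0 ≤ β → β ≤ 1 / 4 → 2 ≤ z →
    1 ≤ Y → 0 ≤ B → (∀ m ∈ S, 1 ≤ m) →
    (∀ k : ℕ, 1 ≤ k → (k : ℝ) ≤ Y → ((S.filter (fun m => k ∣ m)).card : ℝ) ≤
      B * (g : ℝ) ^ k.primeFactors.card * S.card / k) →
    ((S.filter (fun m => Y < (sp z m : ℝ))).card : ℝ) ≤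
      B * S.card * (Y / z) ^ (-β) * (C * Real.log z * Real.exp (4 * β * (z : ℝ) ^ β * (Real.log z + C))) ^ g := by
  obtain ⟨C, hC, h⟩ := Pool.Agent.H398R2.RK.euler_le
  refine ⟨C, hC, fun β B z Y S hβ0 hβ1 hz hY hB hS1 hreg => ?_⟩
  have h1 := h β z hβ0 hβ1 hz
  have h2 := smooth_tsum (σ := 1 - β) (by linarith) g z ⌊Y⌋₊
  have hz0 : (0 : ℝ) < z := by exact_mod_cast (by omega : 0 < z)
  obtain ⟨F, hF⟩ : ∃ F : Finset ℕ, F = ((Icc 1 ⌊Y⌋₊).filter (fun n => ∀ p : ℕ, p.Prime → p ∣ n → p ≤ z)).filter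
    (fun d : ℕ => Y < (d : ℝ) * z) := ⟨_, rfl⟩
  have hsub : S.filter (fun m => Y < (sp z m : ℝ)) ⊆ F.biUnion (fun d => S.filter (fun m => d ∣ m)) := by
    intro m hm
    rw [mem_filter] at hm
    rw [mem_biUnion]
    have hm1 := hS1 m hm.1
    have hmul := sp_mul_rp z m (by omega)
    have hk1 := sp_pos z m
    have hdvd : sp z m ∣ m := ⟨rp z m, hmul.symm⟩
    obtain ⟨k, hk, hkY, hYk⟩ := divisor_below (z := z) (Y := Y) hk1 (fun p hp hd => le_of_dvd_sp hp hd) hY hm.2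
    refine ⟨k, ?_, ?_⟩
    · rw [hF, mem_filter, mem_filter, mem_Icc]
      refine ⟨⟨⟨Nat.pos_of_dvd_of_pos hk hk1, Nat.le_floor hkY⟩, fun p hp hd => le_of_dvd_sp hp (hd.trans hk)⟩, hYk⟩
    · rw [mem_filter]
      exact ⟨hm.1, hk.trans hdvd⟩
  have h3 : ((S.filter (fun m => Y < (sp z m : ℝ))).card : ℝ) ≤
      ∑ d ∈ F, (B * S.card * (Y / z) ^ (-β)) * wt g (1 - β) d := by
    have h4 : ((S.filter (fun m => Y < (sp z m : ℝ))).card : ℝ) ≤
        ∑ d ∈ F, ((S.filter (fun m => d ∣ m)).card : ℝ) := by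
      have := (card_le_card hsub).trans card_biUnion_le
      exact_mod_cast this
    refine h4.trans (sum_le_sum fun d hd => ?_)
    rw [hF, mem_filter, mem_filter, mem_Icc] at hd
    obtain ⟨⟨⟨hd1, hdY⟩, -⟩, hd3⟩ := hd
    have hd0 : (0 : ℝ) < d := by exact_mod_cast (by omega : 0 < d)
    have hdY' : (d : ℝ) ≤ Y := (Nat.cast_le.2 hdY).trans (Nat.floor_le (by linarith))
    have h5 := hreg d hd1 hdY'
    refine h5.trans ?_
    have h6 : B * (g : ℝ) ^ d.primeFactors.card * S.card / d =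
        (B * (g : ℝ) ^ d.primeFactors.card * S.card) * ((d : ℝ) ^ (-β) * (d : ℝ) ^ (-(1 - β))) := by
      rw [← Real.rpow_add hd0, show -β + -(1 - β) = (-1 : ℝ) by ring, Real.rpow_neg_one, div_eq_mul_inv]
    have h7 : (d : ℝ) ^ (-β) ≤ (Y / z) ^ (-β) :=
      Real.rpow_le_rpow_of_nonpos (by positivity) ((div_le_iff₀ hz0).2 hd3.le) (by linarith)
    rw [h6]
    unfold wt
    calc (B * (g : ℝ) ^ d.primeFactors.card * S.card) * ((d : ℝ) ^ (-β) * (d : ℝ) ^ (-(1 - β)))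
        ≤ (B * (g : ℝ) ^ d.primeFactors.card * S.card) * ((Y / z) ^ (-β) * (d : ℝ) ^ (-(1 - β))) := by gcongr
      _ = _ := by ring
  refine h3.trans ?_
  rw [← mul_sum]
  have h8 : ∑ d ∈ F, wt g (1 - β) d ≤
      ∑ n ∈ (Icc 1 ⌊Y⌋₊).filter (fun n => ∀ p : ℕ, p.Prime → p ∣ n → p ≤ z), wt g (1 - β) n := by
    rw [hF]
    exact sum_le_sum_of_subset_of_nonneg (filter_subset _ _) (fun i _ _ => wt_nonneg _ _ _)
  apply mul_le_mul_of_nonneg_left _ (by positivity)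
  refine (h8.trans h2).trans ?_
  apply pow_le_pow_left₀ _ h1
  apply prod_nonneg
  intro p hp
  have := Pool.Agent.H398R2.RK.pow_lt_one' (σ := 1 - β) (by linarith) (mem_Pz.1 hp).1
  exact inv_nonneg.2 (by linarith)

end Pool.Agent.U405.RS
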