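import Mathlib
import Pool.Agent.U405.RS.B
import Pool.Agent.R483.GC.Wig

set_option autoImplicit false

/-! Multiplicative functions at the elements of a regular set avoid the sets with a power saving (helper405): main theorem. -/

namespace Pool.Agent.U405.RS

open Finset Classical
open Pool.Agent.N733.TG (sp rp sp_mul_rp sp_pos rp_pos le_of_dvd_sp lt_of_dvd_rp coprime_sp_rp Rough)

lemma second_part {f : ℕ → ℕ} (hf : PM f) {P M : ℕ}
    (hP : ∀ p : ℕ, P ≤ p → p.Prime → ∀ a : ℕ, 1 ≤ a → f (p ^ a) ≤ M * p ^ a ∧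
      ∀ q : ℕ, P ≤ q → q.Prime → f (q ^ a) = f (p ^ a) → q = p)
    {z J N X D K : ℕ} (hz : P ≤ z) (hN : N < (z + 1) ^ (J + 1)) (W : Set ℕ) {E : ℝ}
    (hW : (((Icc 1 X).filter (fun v => v ∈ W)).card : ℝ) ≤ E)
    (hX : ∀ k : ℕ, 1 ≤ k → k ≤ K → ∀ u : ℕ, 1 ≤ u → u ≤ N → Rough z u → f k * f u ≤ X)
    (hD : ∀ v : ℕ, 1 ≤ v → v ≤ X → v.divisors.card ≤ D) (S : Finset ℕ) (hS : ∀ m ∈ S, 1 ≤ m ∧ m ≤ N) :
    ((S.filter (fun m => sp z m ≤ K ∧ f m ∈ W)).card : ℝ) ≤ K * (E * ((J * D + 1 : ℕ) : ℝ) ^ J) := by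
  have hsub : S.filter (fun m => sp z m ≤ K ∧ f m ∈ W) ⊆
      (Icc 1 K).biUnion (fun k => ((Icc 1 N).filter (fun u => Rough z u ∧ f k * f u ∈ W)).image (fun u => k * u)) := by
    intro m hm
    rw [mem_filter] at hm
    obtain ⟨hm1, hmN⟩ := hS m hm.1
    have hmul := sp_mul_rp z m (by omega)
    have hk1 := sp_pos z m
    have hu1 := rp_pos z m
    rw [mem_biUnion]
    refine ⟨sp z m, ?_, ?_⟩
    · rw [mem_Icc]
      exact ⟨hk1, hm.2.1⟩
    · rw [mem_image]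
      refine ⟨rp z m, ?_, hmul⟩
      rw [mem_filter, mem_Icc]
      refine ⟨⟨hu1, ?_⟩, fun p hp hd => lt_of_dvd_rp hp hd, ?_⟩
      · have : rp z m ≤ m := Nat.le_of_dvd (by omega) ⟨sp z m, by rw [mul_comm, hmul]⟩
        omega
      · rw [← hf.mul _ _ (coprime_sp_rp z m), hmul]
        exact hm.2.2
  have h1 : ((S.filter (fun m => sp z m ≤ K ∧ f m ∈ W)).card : ℝ) ≤
      ∑ k ∈ Icc 1 K, ((((Icc 1 N).filter (fun u => Rough z u ∧ f k * f u ∈ W)).image (fun u => k * u)).card : ℝ) := by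
    have := (card_le_card hsub).trans card_biUnion_le
    exact_mod_cast this
  have h2 : ∀ k ∈ Icc 1 K, ((((Icc 1 N).filter (fun u => Rough z u ∧ f k * f u ∈ W)).image (fun u => k * u)).card : ℝ) ≤
      E * ((J * D + 1 : ℕ) : ℝ) ^ J := by
    intro k hk
    rw [mem_Icc] at hk
    have h3 := row hf hP hz hN hk.1 W (hX k hk.1 hk.2) hD
    have h4 : ((((Icc 1 N).filter (fun u => Rough z u ∧ f k * f u ∈ W)).image (fun u => k * u)).card : ℝ) ≤
        ((((Icc 1 X).filter (fun v => v ∈ W)).card * (J * D + 1) ^ J : ℕ) : ℝ) :=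
      Nat.cast_le.2 (card_image_le.trans h3)
    refine h4.trans ?_
    rw [Nat.cast_mul, Nat.cast_pow]
    exact mul_le_mul_of_nonneg_right hW (by positivity)
  refine h1.trans ((sum_le_sum h2).trans (le_of_eq ?_))
  rw [sum_const, Nat.card_Icc, Nat.add_sub_cancel, nsmul_eq_mul]

lemma large (R : ℝ) : ∃ N₀ : ℕ, ∀ N : ℕ, N₀ ≤ N →
    1 ≤ Real.log (Real.log N) ∧ R * (Real.log (Real.log N) + 1) ^ 2 ≤ Real.log N := by
  have hlog : Filter.Tendsto (fun N : ℕ => Real.log N) Filter.atTop Filter.atTop :=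
    Real.tendsto_log_atTop.comp tendsto_natCast_atTop_atTop
  have h1 : ∀ᶠ L : ℝ in Filter.atTop, 1 ≤ Real.log L := Real.tendsto_log_atTop.eventually_ge_atTop 1
  have h2 : ∀ᶠ L : ℝ in Filter.atTop, Real.log L ≤ L ^ (1 / 4 : ℝ) := by
    have := (isLittleO_log_rpow_atTop (r := 1 / 4) (by norm_num)).bound (show (0 : ℝ) < 1 by norm_num)
    filter_upwards [this, h1, Filter.eventually_ge_atTop (1 : ℝ)] with L h3 h4 h5
    rw [Real.norm_of_nonneg (by linarith), Real.norm_of_nonneg (by positivity), one_mul] at h3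
    exact h3
  have h3 : ∀ᶠ L : ℝ in Filter.atTop, 4 * |R| ≤ L ^ (1 / 2 : ℝ) :=
    (tendsto_rpow_atTop (by norm_num : (0 : ℝ) < 1 / 2)).eventually_ge_atTop _
  have h4 := hlog.eventually (h1.and (h2.and (h3.and (Filter.eventually_ge_atTop (1 : ℝ)))))
  obtain ⟨N₀, hN₀⟩ := Filter.eventually_atTop.1 h4
  refine ⟨N₀, fun N hN => ?_⟩
  obtain ⟨a1, a2, a3, a4⟩ := hN₀ N hN
  refine ⟨a1, ?_⟩
  obtain ⟨L, hL⟩ : ∃ L, L = Real.log (N : ℝ) := ⟨_, rfl⟩
  rw [← hL] at a1 a2 a3 a4 ⊢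
  have hL0 : 0 < L := by linarith
  have e1 : (Real.log L + 1) ^ 2 ≤ 4 * (L ^ (1 / 4 : ℝ)) ^ 2 := by
    nlinarith
  have e2 : (L ^ (1 / 4 : ℝ)) ^ 2 = L ^ (1 / 2 : ℝ) := by
    rw [← Real.rpow_natCast, ← Real.rpow_mul hL0.le]; norm_num
  have e3 : L ^ (1 / 2 : ℝ) * L ^ (1 / 2 : ℝ) = L := by
    rw [← Real.rpow_add hL0]; norm_num
  rw [e2] at e1
  have e4 : 0 ≤ L ^ (1 / 2 : ℝ) := by positivity
  calc R * (Real.log L + 1) ^ 2 ≤ |R| * (Real.log L + 1) ^ 2 :=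
        mul_le_mul_of_nonneg_right (le_abs_self R) (by positivity)
    _ ≤ |R| * (4 * L ^ (1 / 2 : ℝ)) := mul_le_mul_of_nonneg_left e1 (abs_nonneg R)
    _ = (4 * |R|) * L ^ (1 / 2 : ℝ) := by ring
    _ ≤ L ^ (1 / 2 : ℝ) * L ^ (1 / 2 : ℝ) := mul_le_mul_of_nonneg_right a3 e4
    _ = L := e3

/-- the divisor bound in the form we need -/
lemma div_bound : ∃ R : ℝ, 0 ≤ R ∧ ∀ L : ℝ, 1 ≤ Real.log L → R * (Real.log L + 1) ^ 2 ≤ L → ∀ v : ℕ, 1 ≤ v →
    (v : ℝ) ≤ Real.exp (2 * L) → (v.divisors.card : ℝ) ≤ Real.exp (16 * L / Real.log L) := by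
  obtain ⟨x0, hx0, h⟩ := Pool.Agent.R483.GC.wig 1 one_pos le_rfl
  refine ⟨|Real.log x0|, abs_nonneg _, fun L hl hR v hv hvL => ?_⟩
  obtain ⟨l, hl'⟩ : ∃ l, l = Real.log L := ⟨_, rfl⟩
  rw [← hl'] at hl hR ⊢
  have hL0 : 0 < L := by
    by_contra hcon
    push Not at hcon
    have : 0 ≤ |Real.log x0| * (l + 1) ^ 2 := by positivity
    have h0 : L = 0 := by linarith
    rw [h0, Real.log_zero] at hl'
    linarith
  have hl0 : 0 < l := by linarith
  have e1 : Real.log x0 ≤ 16 * L / l := by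
    rw [le_div_iff₀ hl0]
    have h1 : |Real.log x0| * l ≤ |Real.log x0| * (l + 1) ^ 2 := by
      apply mul_le_mul_of_nonneg_left _ (abs_nonneg _)
      nlinarith
    have h2 : Real.log x0 * l ≤ |Real.log x0| * l := mul_le_mul_of_nonneg_right (le_abs_self _) hl0.le
    linarith
  have e2 : x0 ≤ Real.exp (16 * L / l) := by
    rw [← Real.exp_log (by linarith : 0 < x0)]
    exact Real.exp_le_exp.2 e1
  obtain ⟨h3, h4⟩ := h _ e2
  have h5 := h4 v (by omega) ?_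
  · rw [Real.rpow_one] at h5
    exact h5.le
  · refine hvL.trans ?_
    rw [Real.log_exp, ← Real.exp_mul]
    apply Real.exp_le_exp.2
    have e3 : l / 2 ≤ Real.log (16 * L / l) := by
      rw [Real.log_div (by positivity) (by positivity), Real.log_mul (by norm_num) (by positivity), ← hl']
      have h6 : Real.log l ≤ l / 2 := by
        have h7 := Real.log_le_sub_one_of_pos (show 0 < l / 2 by positivity)
        rw [Real.log_div (by positivity) (by norm_num)] at h7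
        have h8 := Real.log_two_lt_d9
        linarith
      have h9 : 0 ≤ Real.log 16 := Real.log_nonneg (by norm_num)
      linarith
    have e4 : 2 * L = 16 * L / l * (1 / 4 * (l / 2)) := by field_simp; norm_num
    rw [e4]
    apply mul_le_mul_of_nonneg_left _ (by positivity)
    linarith

end Pool.Agent.U405.RS
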