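import Mathlib
import Pool.Agent.U405.RS.C

set_option autoImplicit false

/-! Multiplicative functions at the elements of a regular set avoid the sets with a power saving (helper405): assembly. -/

namespace Pool.Agent.U405.RS

open Finset Classical
open Pool.Agent.N733.TG (sp rp sp_mul_rp sp_pos rp_pos le_of_dvd_sp lt_of_dvd_rp coprime_sp_rp Rough)

/-- the contribution of the large smooth parts -/
lemma num1 {B C' K₁ CR η ε L l zr β J : ℝ} {g A : ℕ} (hB : 0 ≤ B) (hC' : 0 ≤ C') (hCR : 0 < CR)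
    (hK : K₁ = CR * Real.exp (4 * Real.exp C' * (C' + CR))) (hη : 0 < η) (hε : 0 < ε)
    (hCe : C' * (η * ε) = g + A + 1)
    (hL : Real.log L = l) (hL1 : 1 ≤ L) (hJ0 : 0 ≤ J) (hJ2 : ε * l ≤ J + 1)
    (hβ : β = C' * (J + 1) / L) (hβ1 : β ≤ 1 / 4) (hz2 : 2 ≤ zr) (hz : zr ≤ Real.exp (L / (J + 1)))
    (hbig : 2 * B * Real.exp C' * K₁ ^ g ≤ L) :
    B * (Real.exp (η * L) / zr) ^ (-β) * (CR * Real.log zr * Real.exp (4 * β * zr ^ β * (Real.log zr + CR))) ^ g ≤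
      1 / (2 * L ^ A) := by
  have hL0 : 0 < L := by linarith
  have hJ1 : 0 < J + 1 := by linarith
  have hβ0 : 0 ≤ β := by rw [hβ]; positivity
  have hz0 : 0 < zr := by linarith
  have hK0 : 0 ≤ K₁ := by rw [hK]; positivity
  have hlz : Real.log zr ≤ L / (J + 1) := (Real.log_le_iff_le_exp hz0).2 hz
  have hlz0 : 0 ≤ Real.log zr := Real.log_nonneg (by linarith)
  have hlzL : L / (J + 1) ≤ L := div_le_self hL0.le (by linarith)
  have hβL : β * (L / (J + 1)) = C' := by rw [hβ]; field_simp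
  -- first factor
  have e1 : (Real.exp (η * L) / zr) ^ (-β) ≤ Real.exp C' * (L ^ (g + A + 1))⁻¹ := by
    have h1 : Real.exp (η * L - L / (J + 1)) ≤ Real.exp (η * L) / zr := by
      rw [Real.exp_sub]
      exact div_le_div_of_nonneg_left (Real.exp_pos _).le hz0 hz
    have h2 : (Real.exp (η * L) / zr) ^ (-β) ≤ (Real.exp (η * L - L / (J + 1))) ^ (-β) :=
      Real.rpow_le_rpow_of_nonpos (Real.exp_pos _) h1 (by linarith)
    refine h2.trans ?_
    rw [← Real.exp_mul]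
    have h3 : (η * L - L / (J + 1)) * -β = C' - C' * (η * (J + 1)) := by
      rw [hβ]; field_simp; ring
    have h4 : (L ^ (g + A + 1))⁻¹ = Real.exp (-(C' * (η * (ε * l)))) := by
      rw [show C' * (η * (ε * l)) = ((g + A + 1 : ℕ) : ℝ) * l by push_cast; rw [← hCe]; ring, Real.exp_neg, ← hL,
        Real.exp_nat_mul, Real.exp_log hL0]
    rw [h3, h4, ← Real.exp_add]
    apply Real.exp_le_exp.2
    have h5 : C' * (η * (ε * l)) ≤ C' * (η * (J + 1)) := by gcongr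
    linarith
  -- second factor
  have e2 : CR * Real.log zr * Real.exp (4 * β * zr ^ β * (Real.log zr + CR)) ≤ K₁ * L := by
    have h1 : zr ^ β ≤ Real.exp C' := by
      have h2 : zr ^ β ≤ (Real.exp (L / (J + 1))) ^ β := Real.rpow_le_rpow hz0.le hz hβ0
      rw [← Real.exp_mul, mul_comm, hβL] at h2
      exact h2
    have h3 : β * (Real.log zr + CR) ≤ C' + CR := by
      have h4 : β * Real.log zr ≤ C' := by
        rw [← hβL]
        exact mul_le_mul_of_nonneg_left hlz hβ0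
      have h5 : β * CR ≤ CR := by
        have : β ≤ 1 := by linarith
        nlinarith
      linarith
    have h6 : 4 * β * zr ^ β * (Real.log zr + CR) ≤ 4 * Real.exp C' * (C' + CR) := by
      have h7 : 4 * β * zr ^ β * (Real.log zr + CR) = 4 * (zr ^ β * (β * (Real.log zr + CR))) := by ring
      rw [h7]
      have h8 : zr ^ β * (β * (Real.log zr + CR)) ≤ Real.exp C' * (C' + CR) :=
        mul_le_mul h1 h3 (by positivity) (Real.exp_pos _).le
      linarith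
    rw [hK]
    have h9 : CR * Real.log zr * Real.exp (4 * β * zr ^ β * (Real.log zr + CR)) ≤
        CR * L * Real.exp (4 * Real.exp C' * (C' + CR)) := by
      have : Real.log zr ≤ L := by linarith
      have h10 := Real.exp_le_exp.2 h6
      gcongr
    refine h9.trans (le_of_eq (by ring))
  have e3 : (CR * Real.log zr * Real.exp (4 * β * zr ^ β * (Real.log zr + CR))) ^ g ≤ K₁ ^ g * L ^ g := by
    rw [← mul_pow]
    exact pow_le_pow_left₀ (by positivity) e2 g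
  calc B * (Real.exp (η * L) / zr) ^ (-β) * (CR * Real.log zr * Real.exp (4 * β * zr ^ β * (Real.log zr + CR))) ^ g
      ≤ B * (Real.exp C' * (L ^ (g + A + 1))⁻¹) * (K₁ ^ g * L ^ g) := by gcongr
    _ = (2 * B * Real.exp C' * K₁ ^ g) * (1 / (2 * L ^ A * L)) := by
        rw [pow_succ, pow_add]; field_simp
    _ ≤ L * (1 / (2 * L ^ A * L)) := mul_le_mul_of_nonneg_right hbig (by positivity)
    _ = 1 / (2 * L ^ A) := by field_simp

/-- the contribution of the small smooth parts -/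
lemma num2 {Cp L l δ θ ε η K X E s : ℝ} {A J D : ℕ} (hθ0 : 0 ≤ θ) (hθ1 : θ ≤ 1) (hδ0 : 0 < δ) (hCp : 1 ≤ Cp)
    (hη : η ≤ δ / 8) (hε : ε = δ / 256) (hl1 : 1 ≤ l) (hL : Real.log L = l) (hL0 : 0 < L)
    (hJ1 : (J : ℝ) ≤ ε * l) (hJl : (J : ℝ) ≤ l) (hll : l ^ 2 ≤ δ / 64 * L)
    (hK0 : 0 ≤ K) (hK : K ≤ Real.exp (η * L)) (hX0 : 0 ≤ X) (hX : X ≤ Real.exp ((1 + δ / 4) * L)) (hE : E = Cp * X ^ θ)
    (hD : (D : ℝ) ≤ Real.exp (16 * L / l)) (hbig : 2 * Cp + A * l ≤ δ / 2 * L)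
    (hs : Real.exp ((θ + δ) * L) ≤ s) :
    K * (E * ((J * D + 1 : ℕ) : ℝ) ^ J) ≤ s * (1 / (2 * L ^ A)) := by
  have hl0 : 0 < l := by linarith
  have e1 : X ^ θ ≤ Real.exp ((θ + δ / 4) * L) := by
    have h1 : X ^ θ ≤ (Real.exp ((1 + δ / 4) * L)) ^ θ := Real.rpow_le_rpow hX0 hX hθ0
    refine h1.trans ?_
    rw [← Real.exp_mul]
    apply Real.exp_le_exp.2
    have : θ * (δ / 4 * L) ≤ 1 * (δ / 4 * L) := mul_le_mul_of_nonneg_right hθ1 (by positivity)
    nlinarith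
  have e2 : ((J * D + 1 : ℕ) : ℝ) ^ J ≤ Real.exp (δ / 64 * L + δ / 16 * L) := by
    have h1 : ((J * D + 1 : ℕ) : ℝ) ≤ Real.exp J * Real.exp (16 * L / l) := by
      have h2 : (J : ℝ) + 1 ≤ Real.exp J := Real.add_one_le_exp _
      have h3 : 1 ≤ Real.exp (16 * L / l) := Real.one_le_exp (by positivity)
      push_cast
      have hJ0 : (0 : ℝ) ≤ J := by positivity
      calc (J : ℝ) * D + 1 ≤ J * Real.exp (16 * L / l) + Real.exp (16 * L / l) :=
            add_le_add (mul_le_mul_of_nonneg_left hD hJ0) h3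
        _ = (J + 1) * Real.exp (16 * L / l) := by ring
        _ ≤ _ := mul_le_mul_of_nonneg_right h2 (Real.exp_pos _).le
    refine (pow_le_pow_left₀ (by positivity) h1 J).trans ?_
    rw [← Real.exp_add, ← Real.exp_nat_mul]
    apply Real.exp_le_exp.2
    have h4 : (J : ℝ) * (J + 16 * L / l) = J * J + (J * (16 * L)) / l := by ring
    rw [h4]
    have h5 : (J : ℝ) * J ≤ δ / 64 * L := by
      have : (J : ℝ) * J ≤ l * l := by gcongr
      nlinarith
    have h6 : (J : ℝ) * (16 * L) / l ≤ δ / 16 * L := by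
      rw [div_le_iff₀ hl0]
      have : (J : ℝ) * (16 * L) ≤ ε * l * (16 * L) := mul_le_mul_of_nonneg_right hJ1 (by positivity)
      rw [hε] at this
      nlinarith
    linarith
  have e3 : Cp ≤ Real.exp (-(δ / 2 * L)) * (Real.exp (δ / 2 * L) * Cp) := by
    rw [← mul_assoc, ← Real.exp_add]
    simp
  have e4 : 2 * Cp * L ^ A ≤ Real.exp (δ / 2 * L) := by
    have h1 : 2 * Cp ≤ Real.exp (2 * Cp) := by
      have := Real.add_one_le_exp (2 * Cp); linarith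
    have h2 : L ^ A = Real.exp (A * l) := by
      rw [Real.exp_nat_mul, ← hL, Real.exp_log hL0]
    rw [h2]
    calc 2 * Cp * Real.exp (A * l) ≤ Real.exp (2 * Cp) * Real.exp (A * l) := by gcongr
      _ = Real.exp (2 * Cp + A * l) := (Real.exp_add _ _).symm
      _ ≤ _ := Real.exp_le_exp.2 hbig
  have e5 : Cp * Real.exp ((θ + δ / 2) * L) ≤ Real.exp ((θ + δ) * L) * (1 / (2 * L ^ A)) := by
    have h1 : Real.exp ((θ + δ) * L) = Real.exp ((θ + δ / 2) * L) * Real.exp (δ / 2 * L) := by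
      rw [← Real.exp_add]; ring_nf
    rw [h1, mul_comm Cp, mul_assoc]
    apply mul_le_mul_of_nonneg_left _ (Real.exp_pos _).le
    rw [mul_one_div, le_div_iff₀ (by positivity)]
    linarith
  calc K * (E * ((J * D + 1 : ℕ) : ℝ) ^ J)
      ≤ Real.exp (δ / 8 * L) * ((Cp * Real.exp ((θ + δ / 4) * L)) * Real.exp (δ / 64 * L + δ / 16 * L)) := by
        have hK' : K ≤ Real.exp (δ / 8 * L) := hK.trans (Real.exp_le_exp.2 (mul_le_mul_of_nonneg_right hη hL0.le))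
        rw [hE]
        gcongr
    _ = Cp * Real.exp (δ / 8 * L + ((θ + δ / 4) * L + (δ / 64 * L + δ / 16 * L))) := by
        simp only [Real.exp_add]; ring
    _ ≤ Cp * Real.exp ((θ + δ / 2) * L) := by
        apply mul_le_mul_of_nonneg_left _ (by linarith)
        apply Real.exp_le_exp.2
        have : 0 ≤ δ * L := by positivity
        nlinarith
    _ ≤ Real.exp ((θ + δ) * L) * (1 / (2 * L ^ A)) := e5
    _ ≤ s * (1 / (2 * L ^ A)) := mul_le_mul_of_nonneg_right hs (by positivity)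

lemma aux1 {c l L : ℝ} (hc : 0 ≤ c) (hl : 1 ≤ l) (h : c * (l + 1) ^ 2 ≤ L) : c * (l + 1) ≤ L ∧ c ≤ L := by
  have h1 : l + 1 ≤ (l + 1) ^ 2 := by nlinarith
  have h2 : c * (l + 1) ≤ c * (l + 1) ^ 2 := mul_le_mul_of_nonneg_left h1 hc
  have h3 : c * 1 ≤ c * (l + 1) := mul_le_mul_of_nonneg_left (by linarith) hc
  exact ⟨by linarith, by linarith⟩

lemma aux8 {L j : ℝ} (hj : 0 < j) : L = j * (L / j) := by field_simp

lemma aux9 {s t : ℝ} (ht : 0 < t) : s / t = s * (1 / (2 * t)) + s * (1 / (2 * t)) := by field_simp; ring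

lemma aux10 {B x s k : ℝ} (hx : 0 ≤ x) (hs : 0 ≤ s) (hk : 0 ≤ k) : B * x * s / k ≤ |B| * x * s / k :=
  div_le_div_of_nonneg_right (mul_le_mul_of_nonneg_right (mul_le_mul_of_nonneg_right (le_abs_self B) hx) hs) hk

lemma aux2 {η δ L : ℝ} (h : η ≤ δ / 8) (hδ : 0 < δ) (hL : 0 < L) : η * L ≤ L * δ := by
  nlinarith

lemma aux3 {δ D η : ℝ} (hη : η = δ / (8 * (D + 1))) (hD : 0 ≤ D) (hδ : 0 < δ) : D * η ≤ δ / 8 := by
  rw [hη, ← mul_div_assoc, div_le_div_iff₀ (by positivity) (by norm_num)]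
  nlinarith

lemma aux4 {δ L : ℝ} (hδ : δ ≤ 1) (hL : 0 < L) : (1 + δ / 4) * L ≤ 2 * L :=
  mul_le_mul_of_nonneg_right (by linarith) hL.le

lemma aux5 {C M δ l L : ℝ} (hC : 0 ≤ C) (hM : 0 ≤ M) (hδ : 0 < δ) (hl : 1 ≤ l)
    (h : 8 * (C + M + 2) / δ * (l + 1) ≤ L) : C + (M + 1) * l ≤ δ / 8 * L := by
  have h3 := mul_le_mul_of_nonneg_left h (show 0 ≤ δ / 8 by positivity)
  have h4 : δ / 8 * (8 * (C + M + 2) / δ * (l + 1)) = (C + M + 2) * (l + 1) := by
    field_simp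
  rw [h4] at h3
  nlinarith

lemma aux6 {δ l L : ℝ} (hδ : 0 < δ) (hl : 1 ≤ l) (h : 64 / δ * (l + 1) ^ 2 ≤ L) : l ^ 2 ≤ δ / 64 * L := by
  have h3 := mul_le_mul_of_nonneg_left h (show 0 ≤ δ / 64 by positivity)
  have h4 : δ / 64 * (64 / δ * (l + 1) ^ 2) = (l + 1) ^ 2 := by field_simp
  rw [h4] at h3
  nlinarith

lemma aux7 {δ l L C A : ℝ} (hA : 0 ≤ A) (hC : 0 ≤ C) (hδ : 0 < δ) (hl : 1 ≤ l) (h : 2 * (2 * C + A) / δ * (l + 1) ≤ L) :
    2 * C + A * l ≤ δ / 2 * L := by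
  have h3 := mul_le_mul_of_nonneg_left h (show 0 ≤ δ / 2 by positivity)
  have h4 : δ / 2 * (2 * (2 * C + A) / δ * (l + 1)) = (2 * C + A) * (l + 1) := by field_simp
  rw [h4] at h3
  nlinarith

set_option maxHeartbeats 1600000 in
/-- **Main theorem.** Let `f` be a positive multiplicative function of polynomial growth, which for every `a ≥ 1` is
injective and at most `M p ^ a` at the powers `p ^ a` of the large primes. Let `W` have at most `C₀ X ^ θ` elements up to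
`X`, and let `S` be a set of at least `N ^ (θ + δ)` integers in `[1, N]` with at most `B g ^ ω(k) |S| / k` multiples of
`k` for each `k ≤ N ^ δ`. Then `f m` is in `W` for at most `|S| / (log N) ^ A` of the elements `m` of `S`. -/
theorem avoidS {f : ℕ → ℕ} (hf : PM f) {θ δ : ℝ} (hθ0 : 0 ≤ θ) (hθ1 : θ ≤ 1) (hδ0 : 0 < δ) (hδ1 : δ ≤ 1) (C₀ B : ℝ)
    (g A : ℕ) : ∃ N₀ : ℕ, ∀ N : ℕ, N₀ ≤ N → ∀ W : Set ℕ,
      (∀ X : ℕ, 1 ≤ X → (((Icc 1 X).filter (fun v => v ∈ W)).card : ℝ) ≤ C₀ * (X : ℝ) ^ θ) →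
      ∀ S : Finset ℕ, (∀ m ∈ S, 1 ≤ m ∧ m ≤ N) → (N : ℝ) ^ (θ + δ) ≤ S.card →
      (∀ k : ℕ, 1 ≤ k → (k : ℝ) ≤ (N : ℝ) ^ δ → ((S.filter (fun m => k ∣ m)).card : ℝ) ≤
        B * (g : ℝ) ^ k.primeFactors.card * S.card / k) →
      ((S.filter (fun m => f m ∈ W)).card : ℝ) ≤ S.card / (Real.log N) ^ A := by
  obtain ⟨Cg, D, hgrow⟩ := hf.growth
  obtain ⟨P, M, hP0⟩ := hf.prime
  obtain ⟨CR, hCR, hlarge⟩ := few_large g
  obtain ⟨R0, hR0, hdiv⟩ := div_bound
  have hP : ∀ p : ℕ, P ≤ p → p.Prime → ∀ a : ℕ, 1 ≤ a → f (p ^ a) ≤ (M + 1) * p ^ a ∧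
      ∀ q : ℕ, P ≤ q → q.Prime → f (q ^ a) = f (p ^ a) → q = p := by
    intro p hp hpp a ha
    obtain ⟨h1, h2⟩ := hP0 p hp hpp a ha
    refine ⟨h1.trans (Nat.mul_le_mul_right _ (Nat.le_succ M)), h2⟩
  obtain ⟨η, hη⟩ : ∃ η : ℝ, η = δ / (8 * (D + 1)) := ⟨_, rfl⟩
  obtain ⟨ε, hε⟩ : ∃ ε : ℝ, ε = δ / 256 := ⟨_, rfl⟩
  have hη0 : 0 < η := by rw [hη]; positivity
  have hε0 : 0 < ε := by rw [hε]; positivity
  have hε1 : ε ≤ 1 := by rw [hε]; linarith
  have hηδ : η ≤ δ / 8 := by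
    rw [hη]
    apply div_le_div_of_nonneg_left hδ0.le (by norm_num)
    have : (0 : ℝ) ≤ D := by positivity
    linarith
  have hηD : D * η ≤ δ / 8 := aux3 hη (by positivity) hδ0
  obtain ⟨C', hC'⟩ : ∃ C' : ℝ, C' = (g + A + 1) / (η * ε) := ⟨_, rfl⟩
  have hC'0 : 0 ≤ C' := by rw [hC']; positivity
  have hCe : C' * (η * ε) = g + A + 1 := by rw [hC']; field_simp
  obtain ⟨K₁, hK₁⟩ : ∃ K₁ : ℝ, K₁ = CR * Real.exp (4 * Real.exp C' * (C' + CR)) := ⟨_, rfl⟩
  have hK₁0 : 0 ≤ K₁ := by rw [hK₁]; positivity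
  obtain ⟨Cp, hCp⟩ : ∃ Cp : ℝ, Cp = |C₀| + 1 := ⟨_, rfl⟩
  have hCp1 : 1 ≤ Cp := by rw [hCp]; have := abs_nonneg C₀; linarith
  have hC₀p : C₀ ≤ Cp := by rw [hCp]; have := le_abs_self C₀; linarith
  obtain ⟨R, hR⟩ : ∃ R : ℝ, R = 4 * C' + (P + 2) + 8 * (Cg + M + 2) / δ + R0 + 64 / δ + 2 * (2 * Cp + A) / δ +
    2 * |B| * Real.exp C' * K₁ ^ g := ⟨_, rfl⟩
  have r1 : (0 : ℝ) ≤ 4 * C' := by positivity
  have r2 : (0 : ℝ) ≤ (P : ℝ) + 2 := by positivity
  have r3 : (0 : ℝ) ≤ 8 * (Cg + M + 2) / δ := by positivity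
  have r4 : (0 : ℝ) ≤ 64 / δ := by positivity
  have r5 : (0 : ℝ) ≤ 2 * (2 * Cp + A) / δ := by positivity
  have r6 : (0 : ℝ) ≤ 2 * |B| * Real.exp C' * K₁ ^ g := by positivity
  obtain ⟨N₀, hN₀⟩ := large R
  refine ⟨max N₀ 3, fun N hN W hW S hS hcard hreg => ?_⟩
  obtain ⟨a1, a2⟩ := hN₀ N (le_of_max_le_left hN)
  have hN3 : 3 ≤ N := le_of_max_le_right hN
  obtain ⟨L, hL⟩ : ∃ L, L = Real.log (N : ℝ) := ⟨_, rfl⟩
  rw [← hL] at a1 a2 ⊢
  obtain ⟨l, hl⟩ : ∃ l, l = Real.log L := ⟨_, rfl⟩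
  rw [← hl] at a1 a2
  have hc : ∀ c : ℝ, c ≤ R → c * (l + 1) ^ 2 ≤ L := fun c hcR =>
    (mul_le_mul_of_nonneg_right hcR (by positivity)).trans a2
  have hc1 : ∀ c : ℝ, 0 ≤ c → c ≤ R → c * (l + 1) ≤ L := fun c hc0 hcR => (aux1 hc0 a1 (hc c hcR)).1
  have hc2 : ∀ c : ℝ, 0 ≤ c → c ≤ R → c ≤ L := fun c hc0 hcR => (aux1 hc0 a1 (hc c hcR)).2
  have hR2 : (2 : ℝ) ≤ R := by
    rw [hR]
    have : (0 : ℝ) ≤ P := by positivity
    linarith
  have hL1 : 1 ≤ L := by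
    have := hc2 2 (by norm_num) hR2
    linarith
  have hL0 : 0 < L := by linarith
  have hNr : (0 : ℝ) < N := by exact_mod_cast (by omega : 0 < N)
  have hNe : (N : ℝ) = Real.exp L := by rw [hL, Real.exp_log hNr]
  obtain ⟨J, hJ⟩ : ∃ J : ℕ, J = ⌊ε * l⌋₊ := ⟨_, rfl⟩
  have hl0 : 0 < l := by linarith
  have hJ1 : (J : ℝ) ≤ ε * l := by rw [hJ]; exact Nat.floor_le (by positivity)
  have hJ2 : ε * l < J + 1 := by rw [hJ]; exact Nat.lt_floor_add_one _
  have hJl : (J : ℝ) ≤ l := hJ1.trans (by simpa using mul_le_mul_of_nonneg_right hε1 hl0.le)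
  have hJ0 : (0 : ℝ) ≤ J := by positivity
  obtain ⟨z, hz⟩ : ∃ z : ℕ, z = ⌊Real.exp (L / (J + 1))⌋₊ := ⟨_, rfl⟩
  have hz1 : (z : ℝ) ≤ Real.exp (L / (J + 1)) := by rw [hz]; exact Nat.floor_le (Real.exp_pos _).le
  have hz2 : Real.exp (L / (J + 1)) < z + 1 := by rw [hz]; exact Nat.lt_floor_add_one _
  have hJ1p : (0 : ℝ) < J + 1 := by linarith
  have hzP : P + 2 ≤ z := by
    have h1 : ((P : ℝ) + 2) * (l + 1) ≤ L := hc1 _ r2 (by rw [hR]; linarith)
    have h2 : (P : ℝ) + 2 ≤ L / (J + 1) := by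
      rw [le_div_iff₀ hJ1p]
      exact (mul_le_mul_of_nonneg_left (by linarith) r2).trans h1
    have h4 := Real.add_one_le_exp (L / (J + 1))
    have h5 : (P : ℝ) + 2 < z + 1 := by linarith
    have h6 : P + 2 < z + 1 := by exact_mod_cast h5
    omega
  have hNz : N < (z + 1) ^ (J + 1) := by
    have h1 : (N : ℝ) = Real.exp (L / (J + 1)) ^ (J + 1) := by
      rw [hNe, ← Real.exp_nat_mul]
      congr 1
      push_cast
      exact aux8 hJ1p
    have h2 : Real.exp (L / (J + 1)) ^ (J + 1) < ((z : ℝ) + 1) ^ (J + 1) :=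
      pow_lt_pow_left₀ hz2 (Real.exp_pos _).le (by omega)
    rw [← h1] at h2
    exact_mod_cast h2
  obtain ⟨β, hβ⟩ : ∃ β : ℝ, β = C' * (J + 1) / L := ⟨_, rfl⟩
  have hβ0 : 0 ≤ β := by rw [hβ]; positivity
  have hβ1 : β ≤ 1 / 4 := by
    rw [hβ, div_le_iff₀ hL0]
    have h1 : (4 * C') * (l + 1) ≤ L := hc1 _ r1 (by rw [hR]; linarith)
    have h2 : C' * (J + 1) ≤ C' * (l + 1) := mul_le_mul_of_nonneg_left (by linarith) hC'0
    linarith
  obtain ⟨Y, hY⟩ : ∃ Y : ℝ, Y = Real.exp (η * L) := ⟨_, rfl⟩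
  have hY1 : 1 ≤ Y := by rw [hY]; exact Real.one_le_exp (by positivity)
  -- large smooth part
  have S1 := hlarge β |B| z Y S hβ0 hβ1 (by omega) hY1 (abs_nonneg B) (fun m hm => (hS m hm).1) (by
    intro k hk hkY
    have h1 : (k : ℝ) ≤ (N : ℝ) ^ δ := by
      refine hkY.trans ?_
      rw [hY, hNe, ← Real.exp_mul]
      exact Real.exp_le_exp.2 (aux2 hηδ hδ0 hL0)
    exact (hreg k hk h1).trans (aux10 (pow_nonneg (Nat.cast_nonneg _) _) (Nat.cast_nonneg _) (Nat.cast_nonneg _)))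
  rw [hY] at S1
  have S2 : ((S.filter (fun m => Y < (sp z m : ℝ))).card : ℝ) ≤ S.card * (1 / (2 * L ^ A)) := by
    rw [hY]
    have h1 := num1 (B := |B|) (C' := C') (K₁ := K₁) (CR := CR) (η := η) (ε := ε) (L := L) (l := l) (zr := z) (β := β)
      (J := J) (g := g) (A := A) (abs_nonneg B) hC'0 hCR hK₁ hη0 hε0 hCe hl.symm hL1 hJ0 hJ2.le hβ hβ1
      (by exact_mod_cast (by omega : 2 ≤ z)) hz1 (hc2 (2 * |B| * Real.exp C' * K₁ ^ g) r6 (by rw [hR]; linarith))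
    calc _ ≤ _ := S1
      _ = S.card * (|B| * (Real.exp (η * L) / z) ^ (-β) *
          (CR * Real.log z * Real.exp (4 * β * (z : ℝ) ^ β * (Real.log z + CR))) ^ g) := by ring
      _ ≤ _ := mul_le_mul_of_nonneg_left h1 (Nat.cast_nonneg _)
  -- small smooth part
  obtain ⟨X, hX⟩ : ∃ X : ℕ, X = ⌊Real.exp ((1 + δ / 4) * L)⌋₊ := ⟨_, rfl⟩
  have hX1 : (X : ℝ) ≤ Real.exp ((1 + δ / 4) * L) := by rw [hX]; exact Nat.floor_le (Real.exp_pos _).le
  have hXpos : 1 ≤ X := by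
    rw [hX]
    exact Nat.le_floor (by push_cast; exact Real.one_le_exp (by positivity))
  obtain ⟨Dd, hDd⟩ : ∃ Dd : ℕ, Dd = ⌊Real.exp (16 * L / l)⌋₊ := ⟨_, rfl⟩
  have hDd1 : (Dd : ℝ) ≤ Real.exp (16 * L / l) := by rw [hDd]; exact Nat.floor_le (Real.exp_pos _).le
  have S3 := second_part hf hP (z := z) (J := J) (N := N) (X := X) (D := Dd) (K := ⌊Y⌋₊) (by omega) hNz W
    (E := Cp * (X : ℝ) ^ θ) ((hW X hXpos).trans (mul_le_mul_of_nonneg_right hC₀p (by positivity)))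
    (by
      intro k hk hkK u hu huN hur
      rw [hX]
      apply Nat.le_floor
      have h1 : ((f k : ℕ) : ℝ) ≤ Cg * Real.exp (δ / 8 * L) := by
        have h2 : ((f k : ℕ) : ℝ) ≤ Cg * (k : ℝ) ^ D := by exact_mod_cast hgrow k hk
        refine h2.trans (mul_le_mul_of_nonneg_left ?_ (by positivity))
        have h3 : (k : ℝ) ≤ Real.exp (η * L) := by
          rw [← hY]
          exact (Nat.cast_le.2 hkK).trans (Nat.floor_le (by linarith))
        refine (pow_le_pow_left₀ (by positivity) h3 D).trans ?_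
        rw [← Real.exp_nat_mul]
        apply Real.exp_le_exp.2
        have := mul_le_mul_of_nonneg_right hηD hL0.le
        linarith
      have h4 : ((f u : ℕ) : ℝ) ≤ Real.exp ((M + 1) * l) * Real.exp L := by
        have h5 := size hf (P := P) (M := M + 1) (by omega) (fun p hp hpp a ha => (hP p hp hpp a ha).1)
          (z := z) (J := J) (N := N) (u := u) (by omega) hNz hu huN hur
        have h6 : ((f u : ℕ) : ℝ) ≤ ((M : ℝ) + 1) ^ J * u := by exact_mod_cast h5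
        refine h6.trans ?_
        have h7 : ((M : ℝ) + 1) ^ J ≤ Real.exp ((M + 1) * l) := by
          have h8 : (M : ℝ) + 1 ≤ Real.exp ((M : ℝ) + 1) := by
            have := Real.add_one_le_exp ((M : ℝ) + 1); linarith
          refine (pow_le_pow_left₀ (by positivity) h8 J).trans ?_
          rw [← Real.exp_nat_mul]
          apply Real.exp_le_exp.2
          have : (J : ℝ) * (M + 1) ≤ l * (M + 1) := mul_le_mul_of_nonneg_right hJl (by positivity)
          linarith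
        have h9 : (u : ℝ) ≤ Real.exp L := by
          rw [← hNe]
          exact_mod_cast huN
        gcongr
      rw [Nat.cast_mul]
      calc ((f k : ℕ) : ℝ) * (f u : ℕ) ≤ (Cg * Real.exp (δ / 8 * L)) * (Real.exp ((M + 1) * l) * Real.exp L) := by gcongr
        _ ≤ (Real.exp Cg * Real.exp (δ / 8 * L)) * (Real.exp ((M + 1) * l) * Real.exp L) := by
            have : (Cg : ℝ) ≤ Real.exp Cg := by
              have := Real.add_one_le_exp (Cg : ℝ); linarith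
            gcongr
        _ = Real.exp ((Cg + δ / 8 * L) + ((M + 1) * l + L)) := by
            rw [Real.exp_add, Real.exp_add, Real.exp_add]
        _ ≤ Real.exp ((1 + δ / 4) * L) := by
            apply Real.exp_le_exp.2
            have h5 : (Cg : ℝ) + (M + 1) * l ≤ δ / 8 * L :=
              aux5 (by positivity) (by positivity) hδ0 a1 (hc1 _ r3 (by rw [hR]; linarith))
            linarith)
    (by
      intro v hv hvX
      rw [hDd]
      apply Nat.le_floor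
      rw [hl]
      apply hdiv L (by rw [← hl]; exact a1) (by rw [← hl]; exact hc _ (by rw [hR]; linarith)) v hv
      exact (Nat.cast_le.2 hvX).trans (hX1.trans (Real.exp_le_exp.2 (aux4 hδ1 hL0))))
    S hS
  have S4 := num2 (Cp := Cp) (L := L) (l := l) (δ := δ) (θ := θ) (ε := ε) (η := η) (K := (⌊Y⌋₊ : ℝ)) (X := (X : ℝ))
    (E := Cp * (X : ℝ) ^ θ) (s := (S.card : ℝ)) (A := A) (J := J) (D := Dd) hθ0 hθ1 hδ0 hCp1 hηδ hε a1 hl.symm hL0 hJ1 hJl
    (aux6 hδ0 a1 (hc _ (by rw [hR]; linarith)))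
    (by positivity) (by rw [← hY]; exact Nat.floor_le (by linarith)) (by positivity) hX1 rfl hDd1
    (aux7 (by positivity) (by linarith) hδ0 a1 (hc1 _ r5 (by rw [hR]; linarith)))
    (by
      rw [hNe, ← Real.exp_mul, mul_comm] at hcard
      exact hcard)
  -- conclusion
  have hsub : S.filter (fun m => f m ∈ W) ⊆ S.filter (fun m => Y < (sp z m : ℝ)) ∪
      S.filter (fun m => sp z m ≤ ⌊Y⌋₊ ∧ f m ∈ W) := by
    intro m hm
    rw [mem_filter] at hm
    rw [mem_union, mem_filter, mem_filter]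
    rcases lt_or_ge Y (sp z m : ℝ) with h | h
    · exact Or.inl ⟨hm.1, h⟩
    · exact Or.inr ⟨hm.1, Nat.le_floor h, hm.2⟩
  have h1 : ((S.filter (fun m => f m ∈ W)).card : ℝ) ≤ (S.filter (fun m => Y < (sp z m : ℝ))).card +
      (S.filter (fun m => sp z m ≤ ⌊Y⌋₊ ∧ f m ∈ W)).card := by
    exact_mod_cast (card_le_card hsub).trans (card_union_le _ _)
  have h2 : (S.card : ℝ) / L ^ A = S.card * (1 / (2 * L ^ A)) + S.card * (1 / (2 * L ^ A)) := aux9 (by positivity)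
  rw [h2]
  have h3 := S3.trans S4
  linarith

end Pool.Agent.U405.RS
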