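import Mathlib

set_option autoImplicit false

/-! The number of zeros of a separable integer polynomial modulo `k` is at most `G ^ ω(k)` (helper405). -/

namespace Pool.Agent.U405.RS

open Finset Classical Polynomial

/-- the residues modulo `k` at which `P` vanishes -/
noncomputable def zer (P : ℤ[X]) (k : ℕ) : Finset ℕ := (range k).filter (fun r => (k : ℤ) ∣ P.eval (r : ℤ))

lemma zer_mod {P : ℤ[X]} {a k m : ℕ} (ha : a ∣ k) (hm : (k : ℤ) ∣ P.eval (m : ℤ)) (ha0 : 0 < a) : m % a ∈ zer P a := by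
  unfold zer
  rw [mem_filter, mem_range]
  refine ⟨Nat.mod_lt _ ha0, ?_⟩
  have h1 : (a : ℤ) ∣ P.eval (m : ℤ) := (Int.natCast_dvd_natCast.2 ha).trans hm
  have h2 : (a : ℤ) ∣ (m : ℤ) - ((m % a : ℕ) : ℤ) := by
    push_cast
    exact Int.dvd_self_sub_emod
  have h3 := h2.trans (P.sub_dvd_eval_sub (m : ℤ) ((m % a : ℕ) : ℤ))
  have h4 := dvd_sub h1 h3
  simpa using h4

lemma zer_mul (P : ℤ[X]) {a b : ℕ} (ha : 0 < a) (hb : 0 < b) (h : Nat.Coprime a b) :
    (zer P (a * b)).card ≤ (zer P a).card * (zer P b).card := by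
  rw [← card_product]
  apply card_le_card_of_injOn (fun r => (r % a, r % b))
  · intro r hr
    rw [mem_coe, zer, mem_filter, mem_range] at hr
    rw [mem_coe, mem_product]
    exact ⟨zer_mod (dvd_mul_right a b) hr.2 ha, zer_mod (dvd_mul_left b a) hr.2 hb⟩
  · intro r hr s hs hrs
    rw [mem_coe, zer, mem_filter, mem_range] at hr hs
    simp only [Prod.mk.injEq] at hrs
    have h1 : r ≡ s [MOD a * b] := (Nat.modEq_and_modEq_iff_modEq_mul h).1 hrs
    exact Nat.ModEq.eq_of_lt_of_lt h1 hr.1 hs.1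

lemma pow_dvd_left {p : ℤ} (hp : Prime p) : ∀ (v a : ℕ) (y c : ℤ), p ^ a ∣ y * c → ¬ p ^ (v + 1) ∣ c → p ^ (a - v) ∣ y := by
  intro v
  induction v with
  | zero =>
    intro a y c h1 h2
    rw [zero_add, pow_one] at h2
    rw [Nat.sub_zero]
    rw [mul_comm] at h1
    exact hp.pow_dvd_of_dvd_mul_left a h2 h1
  | succ v ih =>
    intro a y c h1 h2
    by_cases hc : p ∣ c
    · obtain ⟨c', rfl⟩ := hc
      rcases Nat.eq_zero_or_pos a with rfl | ha
      · simp
      · have h3 : p ^ (a - 1) ∣ y * c' := by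
          have h4 : p ^ (a - 1) * p ∣ (y * c') * p := by
            rw [← pow_succ, Nat.sub_add_cancel ha]
            convert h1 using 1
            ring
          exact (mul_dvd_mul_iff_right hp.ne_zero).1 h4
        have h5 : ¬ p ^ (v + 1) ∣ c' := by
          intro h6
          apply h2
          rw [pow_succ', mul_comm p, mul_comm p]
          exact mul_dvd_mul_right h6 p
        have h7 := ih (a - 1) y c' h3 h5
        rwa [show a - 1 - v = a - (v + 1) by omega] at h7
    · have h3 : p ^ a ∣ y := by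
        rw [mul_comm] at h1
        exact hp.pow_dvd_of_dvd_mul_left a hc h1
      exact (pow_dvd_pow p (Nat.sub_le _ _)).trans h3

/-- two zeros which are close are very close -/
lemma zer_close {P U V : ℤ[X]} {R : ℤ} (hR : U * P + V * derivative P = C R) {p : ℕ} (hp : p.Prime) {v a : ℕ}
    (hv : ¬ (p : ℤ) ^ (v + 1) ∣ R) (ha : v + 1 ≤ a) {r s : ℤ} (hr : (p : ℤ) ^ a ∣ P.eval r) (hs : (p : ℤ) ^ a ∣ P.eval s)
    (hrs : (p : ℤ) ^ (v + 1) ∣ r - s) : (p : ℤ) ^ (a - v) ∣ r - s := by
  obtain ⟨k, hk⟩ := P.binomExpansion s (r - s)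
  rw [add_sub_cancel] at hk
  have h1 : (p : ℤ) ^ a ∣ (r - s) * ((derivative P).eval s + k * (r - s)) := by
    have h2 : (r - s) * ((derivative P).eval s + k * (r - s)) = P.eval r - P.eval s := by
      rw [hk]; ring
    rw [h2]
    exact dvd_sub hr hs
  apply pow_dvd_left (Nat.prime_iff_prime_int.1 hp) v a _ _ h1
  intro h3
  apply hv
  have h4 : (p : ℤ) ^ (v + 1) ∣ (derivative P).eval s := by
    have h5 : (p : ℤ) ^ (v + 1) ∣ k * (r - s) := Dvd.dvd.mul_left hrs k
    have h6 := dvd_sub h3 h5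
    simpa using h6
  have h7 : (p : ℤ) ^ (v + 1) ∣ P.eval s := (pow_dvd_pow _ ha).trans hs
  have h8 := congrArg (eval s) hR
  rw [eval_add, eval_mul, eval_mul, eval_C] at h8
  rw [← h8]
  exact dvd_add (Dvd.dvd.mul_left h7 _) (Dvd.dvd.mul_left h4 _)

/-- zeros modulo a prime not dividing `R` -/
lemma zer_prime {P U V : ℤ[X]} {R : ℤ} (hR : U * P + V * derivative P = C R) {p : ℕ} (hp : p.Prime)
    (hv : ¬ (p : ℤ) ∣ R) {a : ℕ} (ha : 1 ≤ a) : (zer P (p ^ a)).card ≤ P.natDegree := by
  haveI : Fact p.Prime := ⟨hp⟩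
  obtain ⟨Q, hQ⟩ : ∃ Q : (ZMod p)[X], Q = P.map (Int.castRingHom (ZMod p)) := ⟨_, rfl⟩
  have hQ0 : Q ≠ 0 := by
    intro h0
    apply hv
    have h1 := congrArg (Polynomial.map (Int.castRingHom (ZMod p))) hR
    rw [Polynomial.map_add, Polynomial.map_mul, Polynomial.map_mul, ← derivative_map, ← hQ, h0, map_C] at h1
    simp only [mul_zero, derivative_zero, add_zero] at h1
    have h2 : (R : ZMod p) = 0 := by
      have := C_eq_zero.1 h1.symm
      simpa using this
    exact (ZMod.intCast_zmod_eq_zero_iff_dvd R p).1 h2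
  have h1 : (zer P (p ^ a)).card ≤ Q.roots.toFinset.card := by
    apply card_le_card_of_injOn (fun r : ℕ => (r : ZMod p))
    · intro r hr
      rw [mem_coe, zer, mem_filter, mem_range] at hr
      rw [mem_coe, Multiset.mem_toFinset, mem_roots hQ0, IsRoot.def, hQ]
      have h2 : (p : ℤ) ∣ P.eval (r : ℤ) := by
        have h3 := hr.2
        push_cast at h3
        exact (dvd_pow_self (p : ℤ) (by omega)).trans h3
      have h3 : ((P.eval (r : ℤ) : ℤ) : ZMod p) = 0 := (ZMod.intCast_zmod_eq_zero_iff_dvd _ p).2 h2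
      rw [eval_map, eval₂_at_natCast_aux]
      exact h3
    · intro r hr s hs hrs
      rw [mem_coe, zer, mem_filter, mem_range] at hr hs
      simp only at hrs
      have h2 : (p : ℤ) ∣ (r : ℤ) - s := by
        have h3 : (((r : ℤ) - s : ℤ) : ZMod p) = 0 := by
          push_cast
          rw [hrs, sub_self]
        exact (ZMod.intCast_zmod_eq_zero_iff_dvd _ p).1 h3
      have h4 := hr.2
      have h5 := hs.2
      push_cast at h4 h5
      have h6 := zer_close hR hp (v := 0) (a := a) (by simpa using hv) (by omega) h4 h5 (by simpa using h2)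
      rw [Nat.sub_zero] at h6
      have h7 : (r : ℤ) ≡ s [ZMOD ((p ^ a : ℕ) : ℤ)] := by
        rw [Int.modEq_iff_dvd]
        push_cast
        rw [← Int.dvd_neg, neg_sub]
        exact h6
      exact Nat.ModEq.eq_of_lt_of_lt (Int.natCast_modEq_iff.1 h7) hr.1 hs.1
  refine h1.trans ((Multiset.toFinset_card_le _).trans ((card_roots' Q).trans ?_))
  rw [hQ]
  exact natDegree_map_le
where
  eval₂_at_natCast_aux {p : ℕ} {P : ℤ[X]} {r : ℕ} :
      eval₂ (Int.castRingHom (ZMod p)) ((r : ℕ) : ZMod p) P = ((P.eval (r : ℤ) : ℤ) : ZMod p) := by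
    have h := Polynomial.hom_eval₂ P (RingHom.id ℤ) (Int.castRingHom (ZMod p)) (r : ℤ)
    simp only [RingHom.comp_id, eq_intCast, Int.cast_natCast] at h
    rw [← h]
    rfl

/-- zeros modulo the powers of a prime dividing `R` -/
lemma zer_bad {P U V : ℤ[X]} {R : ℤ} (hR : U * P + V * derivative P = C R) (hR0 : R ≠ 0) {p : ℕ} (hp : p.Prime)
    (hpR : (p : ℤ) ∣ R) {a : ℕ} (ha : 1 ≤ a) : (zer P (p ^ a)).card ≤ R.natAbs ^ 3 := by
  obtain ⟨v, hv⟩ : ∃ v, v = R.natAbs.factorization p := ⟨_, rfl⟩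
  have hRn : R.natAbs ≠ 0 := Int.natAbs_ne_zero.2 hR0
  have hpR' : p ∣ R.natAbs := Int.natCast_dvd.1 hpR
  have hv1 : 1 ≤ v := by rw [hv]; exact hp.factorization_pos_of_dvd hRn hpR'
  have hpv : p ^ v ≤ R.natAbs := by rw [hv]; exact Nat.ordProj_le p hRn
  have hnv : ¬ (p : ℤ) ^ (v + 1) ∣ R := by
    intro h
    have h1 : p ^ (v + 1) ∣ R.natAbs := by
      apply Int.natCast_dvd.1
      push_cast
      exact h
    rw [hv] at h1
    exact Nat.pow_succ_factorization_not_dvd hRn hp h1
  have h3 : p ^ (2 * v + 1) ≤ R.natAbs ^ 3 := by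
    calc p ^ (2 * v + 1) ≤ p ^ (v * 3) := Nat.pow_le_pow_right hp.pos (by omega)
      _ = (p ^ v) ^ 3 := by rw [pow_mul]
      _ ≤ R.natAbs ^ 3 := Nat.pow_le_pow_left hpv 3
  by_cases hav : a ≤ 2 * v + 1
  · refine le_trans ?_ h3
    have h4 : (zer P (p ^ a)).card ≤ p ^ a := by
      unfold zer
      exact (card_filter_le _ _).trans (by rw [card_range])
    exact h4.trans (Nat.pow_le_pow_right hp.pos hav)
  · push Not at hav
    refine le_trans ?_ h3
    have h4 : (zer P (p ^ a)).card ≤ ((range (p ^ (v + 1))) ×ˢ (range (p ^ v))).card := by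
      apply card_le_card_of_injOn (fun r => (r % p ^ (v + 1), r / p ^ (a - v)))
      · intro r hr
        rw [mem_coe, zer, mem_filter, mem_range] at hr
        rw [mem_coe, mem_product, mem_range, mem_range]
        refine ⟨Nat.mod_lt _ (pow_pos hp.pos _), ?_⟩
        rw [Nat.div_lt_iff_lt_mul (pow_pos hp.pos _), ← pow_add]
        rw [show v + (a - v) = a by omega]
        exact hr.1
      · intro r hr s hs hrs
        rw [mem_coe, zer, mem_filter, mem_range] at hr hs
        simp only [Prod.mk.injEq] at hrs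
        have h4 := hr.2
        have h5 := hs.2
        push_cast at h4 h5
        have h6 : (p : ℤ) ^ (v + 1) ∣ (r : ℤ) - s := by
          have h7 : (s : ℤ) ≡ r [ZMOD ((p ^ (v + 1) : ℕ) : ℤ)] := Int.natCast_modEq_iff.2 hrs.1.symm
          have := Int.modEq_iff_dvd.1 h7
          push_cast at this
          exact this
        have h8 := zer_close hR hp hnv (by omega) h4 h5 h6
        have h9 : r ≡ s [MOD p ^ (a - v)] := by
          apply Int.natCast_modEq_iff.1
          rw [Int.modEq_iff_dvd]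
          push_cast
          rw [← Int.dvd_neg, neg_sub]
          exact h8
        rw [← Nat.div_add_mod r (p ^ (a - v)), ← Nat.div_add_mod s (p ^ (a - v)), hrs.2, h9]
    refine h4.trans (le_of_eq ?_)
    rw [card_product, card_range, card_range, ← pow_add]
    congr 1
    omega

/-- at most `G ^ ω(k)` zeros modulo `k` -/
theorem zer_le {P U V : ℤ[X]} {R : ℤ} (hR : U * P + V * derivative P = C R) (hR0 : R ≠ 0) (k : ℕ) (hk : 1 ≤ k) :
    (zer P k).card ≤ (P.natDegree + R.natAbs ^ 3) ^ k.primeFactors.card := by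
  induction k using Nat.recOnPosPrimePosCoprime with
  | prime_pow p n hp hn =>
    rw [Nat.primeFactors_prime_pow hn.ne' hp, card_singleton, pow_one]
    by_cases hpR : (p : ℤ) ∣ R
    · have := zer_bad hR hR0 hp hpR (a := n) hn
      omega
    · have := zer_prime hR hp hpR (a := n) hn
      omega
  | zero => omega
  | one =>
    rw [Nat.primeFactors_one, card_empty, pow_zero]
    unfold zer
    exact (card_filter_le _ _).trans (by rw [card_range])
  | coprime a b ha hb hab iha ihb =>
    rw [hab.primeFactors_mul, card_union_of_disjoint hab.disjoint_primeFactors, pow_add]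
    exact (zer_mul P (by omega) (by omega) hab).trans (Nat.mul_le_mul (iha (by omega)) (ihb (by omega)))

/-- the identity `U P + V P' = R` for a separable polynomial -/
theorem exists_res {P : ℤ[X]} (hP : (P.map (Int.castRingHom ℚ)).Separable) :
    ∃ (U V : ℤ[X]) (R : ℤ), R ≠ 0 ∧ U * P + V * derivative P = C R := by
  obtain ⟨a, b, hab⟩ := hP
  obtain ⟨⟨m, hm⟩, h1⟩ := IsLocalization.integerNormalization_map_to_map (nonZeroDivisors ℤ) a
  obtain ⟨⟨n, hn⟩, h2⟩ := IsLocalization.integerNormalization_map_to_map (nonZeroDivisors ℤ) b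
  have hm0 : m ≠ 0 := nonZeroDivisors.ne_zero hm
  have hn0 : n ≠ 0 := nonZeroDivisors.ne_zero hn
  refine ⟨C n * IsLocalization.integerNormalization (nonZeroDivisors ℤ) a,
    C m * IsLocalization.integerNormalization (nonZeroDivisors ℤ) b, n * m, mul_ne_zero hn0 hm0, ?_⟩
  apply Polynomial.map_injective (Int.castRingHom ℚ) Int.cast_injective
  rw [Polynomial.map_add, Polynomial.map_mul, Polynomial.map_mul, Polynomial.map_mul, Polynomial.map_mul, map_C, map_C,
    map_C, ← derivative_map]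
  have e : (algebraMap ℤ ℚ) = Int.castRingHom ℚ := rfl
  rw [e] at h1 h2
  rw [h1, h2]
  have h3 : ∀ (c : ℤ) (q : ℚ[X]), (c • q) = C ((c : ℚ)) * q := by
    intro c q
    rw [← smul_eq_C_mul, Int.cast_smul_eq_zsmul]
  simp only [Submonoid.smul_def] at *
  rw [h3, h3]
  have h4 : (C ((Int.castRingHom ℚ) n) : ℚ[X]) * (C (m : ℚ) * a) * map (Int.castRingHom ℚ) P +
      C ((Int.castRingHom ℚ) m) * (C (n : ℚ) * b) * derivative (map (Int.castRingHom ℚ) P) =
      C (n : ℚ) * C (m : ℚ) * (a * map (Int.castRingHom ℚ) P + b * derivative (map (Int.castRingHom ℚ) P)) := by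
    simp only [eq_intCast]
    ring
  rw [h4, hab, mul_one, ← C_mul]
  simp

end Pool.Agent.U405.RS
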