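import Mathlib
import Pool.Agent.U405.RS.C2
import Pool.Agent.U405.RS.D1

set_option autoImplicit false

/-! Multiplicative functions at the values of a separable polynomial avoid the sets with a power saving (helper405). -/

namespace Pool.Agent.U405.RS

open Finset Classical Polynomial

/-- the arguments up to `x` at which `P` is positive -/
noncomputable def dom (P : ℤ[X]) (x : ℕ) : Finset ℕ := (Icc 1 x).filter (fun m : ℕ => 1 ≤ P.eval (m : ℤ))

/-- the positive values of `P` at the arguments up to `x` -/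
noncomputable def vals (P : ℤ[X]) (x : ℕ) : Finset ℕ := (dom P x).image (fun m : ℕ => (P.eval (m : ℤ)).toNat)

lemma fib_le {P : ℤ[X]} (hd : 1 ≤ P.natDegree) (x v : ℕ) :
    ((dom P x).filter (fun m : ℕ => (P.eval (m : ℤ)).toNat = v)).card ≤ P.natDegree := by
  obtain ⟨Q, hQ⟩ : ∃ Q : ℤ[X], Q = P - C (v : ℤ) := ⟨_, rfl⟩
  have hQd : Q.natDegree = P.natDegree := by rw [hQ]; exact natDegree_sub_C
  have hQ0 : Q ≠ 0 := by
    rintro h0
    rw [h0, natDegree_zero] at hQd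
    omega
  have h1 : ((dom P x).filter (fun m : ℕ => (P.eval (m : ℤ)).toNat = v)).card ≤ Q.roots.toFinset.card := by
    apply card_le_card_of_injOn (fun m : ℕ => (m : ℤ))
    · intro m hm
      rw [mem_coe, mem_filter, dom, mem_filter] at hm
      rw [mem_coe, Multiset.mem_toFinset, mem_roots hQ0, IsRoot.def, hQ, eval_sub, eval_C, ← hm.2,
        Int.toNat_of_nonneg (by linarith [hm.1.2]), sub_self]
    · intro m _ n _ h
      simp only at h
      exact_mod_cast h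
  refine h1.trans ((Multiset.toFinset_card_le _).trans ((card_roots' Q).trans hQd.le))

lemma dom_le {P : ℤ[X]} (hd : 1 ≤ P.natDegree) (x : ℕ) : (dom P x).card ≤ P.natDegree * (vals P x).card := by
  unfold vals
  apply card_le_mul_card_image
  intro a _
  exact fib_le hd x a

lemma vals_le (P : ℤ[X]) (x : ℕ) : (vals P x).card ≤ x := by
  unfold vals dom
  refine card_image_le.trans ((card_filter_le _ _).trans ?_)
  rw [Nat.card_Icc]
  omega

/-- a bound for the values -/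
def csum (P : ℤ[X]) : ℕ := ∑ i ∈ range (P.natDegree + 1), (P.coeff i).natAbs

lemma val_le (P : ℤ[X]) {m x : ℕ} (hm : 1 ≤ m) (hmx : m ≤ x) :
    (P.eval (m : ℤ)).toNat ≤ csum P * x ^ P.natDegree := by
  have h1 : P.eval (m : ℤ) ≤ (csum P * x ^ P.natDegree : ℕ) := by
    rw [eval_eq_sum_range, csum, sum_mul]
    push_cast
    apply sum_le_sum
    intro i hi
    rw [mem_range] at hi
    have h2 : P.coeff i ≤ |P.coeff i| := le_abs_self _
    have h3 : ((m : ℤ)) ^ i ≤ (x : ℤ) ^ P.natDegree := by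
      have h4 : m ^ i ≤ x ^ P.natDegree := (Nat.pow_le_pow_left hmx i).trans (Nat.pow_le_pow_right (by omega) (by omega))
      exact_mod_cast h4
    calc P.coeff i * (m : ℤ) ^ i ≤ |P.coeff i| * (m : ℤ) ^ i := mul_le_mul_of_nonneg_right h2 (by positivity)
      _ ≤ |P.coeff i| * (x : ℤ) ^ P.natDegree := mul_le_mul_of_nonneg_left h3 (abs_nonneg _)
  omega

lemma csum_pos {P : ℤ[X]} (hP : P ≠ 0) : 1 ≤ csum P := by
  unfold csum
  have h1 : (P.coeff P.natDegree).natAbs ≤ ∑ i ∈ range (P.natDegree + 1), (P.coeff i).natAbs :=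
    single_le_sum (f := fun i => (P.coeff i).natAbs) (fun _ _ => Nat.zero_le _) (mem_range.2 (Nat.lt_succ_self _))
  have h2 : 0 < (P.coeff P.natDegree).natAbs := Int.natAbs_pos.2 (leadingCoeff_ne_zero.2 hP)
  omega

lemma eval_pos {P : ℤ[X]} (hd : 1 ≤ P.natDegree) (hl : 0 < P.leadingCoeff) :
    ∃ m₀ : ℕ, ∀ m : ℕ, m₀ ≤ m → 1 ≤ P.eval (m : ℤ) := by
  have hinj : Function.Injective (Int.castRingHom ℝ) := Int.cast_injective
  have h1 : Filter.Tendsto (fun x : ℝ => (P.map (Int.castRingHom ℝ)).eval x) Filter.atTop Filter.atTop := by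
    apply Polynomial.tendsto_atTop_of_leadingCoeff_nonneg
    · rw [degree_map_eq_of_injective hinj]
      exact natDegree_pos_iff_degree_pos.1 hd
    · rw [leadingCoeff_map_of_injective hinj]
      simpa using hl.le
  have h2 := (h1.comp tendsto_natCast_atTop_atTop).eventually_ge_atTop 1
  obtain ⟨m₀, hm₀⟩ := Filter.eventually_atTop.1 h2
  refine ⟨m₀, fun m hm => ?_⟩
  have h3 := hm₀ m hm
  simp only [Function.comp_apply] at h3
  have h4 : (P.map (Int.castRingHom ℝ)).eval (m : ℝ) = ((P.eval (m : ℤ) : ℤ) : ℝ) := by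
    rw [eval_map, eval₂_at_natCast]
    simp
  rw [h4] at h3
  exact_mod_cast h3

/-- the arguments at which `k` divides the value -/
lemma count_dvd (P : ℤ[X]) {k x : ℕ} (hk : 1 ≤ k) :
    ((Icc 1 x).filter (fun m : ℕ => (k : ℤ) ∣ P.eval (m : ℤ))).card ≤ (x / k + 1) * (zer P k).card := by
  rw [← card_range (x / k + 1), ← card_product]
  apply card_le_card_of_injOn (fun m => (m / k, m % k))
  · intro m hm
    rw [mem_coe, mem_filter, mem_Icc] at hm
    rw [mem_coe, mem_product, mem_range]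
    refine ⟨?_, zer_mod dvd_rfl hm.2 hk⟩
    have := Nat.div_le_div_right (c := k) hm.1.2
    simp only
    omega
  · intro m _ n _ h
    simp only [Prod.mk.injEq] at h
    rw [← Nat.div_add_mod m k, ← Nat.div_add_mod n k, h.1, h.2]

lemma vals_dvd (P : ℤ[X]) {k x : ℕ} (hk : 1 ≤ k) (hkx : k ≤ x) {G : ℕ} (hG : (zer P k).card ≤ G ^ k.primeFactors.card) :
    (((vals P x).filter (fun v => k ∣ v)).card : ℝ) ≤ 2 * (G : ℝ) ^ k.primeFactors.card * x / k := by
  have h1 : (vals P x).filter (fun v => k ∣ v) ⊆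
      ((Icc 1 x).filter (fun m : ℕ => (k : ℤ) ∣ P.eval (m : ℤ))).image (fun m : ℕ => (P.eval (m : ℤ)).toNat) := by
    intro v hv
    rw [mem_filter, vals, mem_image] at hv
    obtain ⟨⟨m, hm, rfl⟩, hkv⟩ := hv
    rw [dom, mem_filter] at hm
    rw [mem_image]
    refine ⟨m, ?_, rfl⟩
    rw [mem_filter]
    refine ⟨hm.1, ?_⟩
    have := Int.natCast_dvd_natCast.2 hkv
    rwa [Int.toNat_of_nonneg (by linarith [hm.2])] at this
  have h2 : ((vals P x).filter (fun v => k ∣ v)).card ≤ (x / k + 1) * G ^ k.primeFactors.card :=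
    ((card_le_card h1).trans card_image_le).trans ((count_dvd P hk).trans (Nat.mul_le_mul_left _ hG))
  have hk0 : (0 : ℝ) < k := by exact_mod_cast hk
  have hkx' : (k : ℝ) ≤ x := by exact_mod_cast hkx
  have h3 : (((vals P x).filter (fun v => k ∣ v)).card : ℝ) ≤ (((x / k : ℕ) : ℝ) + 1) * (G : ℝ) ^ k.primeFactors.card := by
    exact_mod_cast h2
  have h4 : ((x / k : ℕ) : ℝ) ≤ (x : ℝ) / k := Nat.cast_div_le
  have h5 : (1 : ℝ) ≤ (x : ℝ) / k := (one_le_div hk0).2 hkx'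
  calc (((vals P x).filter (fun v => k ∣ v)).card : ℝ) ≤ (((x / k : ℕ) : ℝ) + 1) * (G : ℝ) ^ k.primeFactors.card := h3
    _ ≤ ((x : ℝ) / k + (x : ℝ) / k) * (G : ℝ) ^ k.primeFactors.card := by gcongr
    _ = 2 * (G : ℝ) ^ k.primeFactors.card * x / k := by ring

/-- **Polynomial arguments.** Let `P` be an integer polynomial of degree `d ≥ 1` with positive leading coefficient and without
repeated roots, `f` as in `avoidS`, `W` with at most `C₀ X ^ θ` elements up to `X`, `d θ < 1`. Then `f (P m)` is in `W` for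
at most `x / (log x) ^ A` of the `m ≤ x` with `P m ≥ 1`. -/
theorem avoid_poly {f : ℕ → ℕ} (hf : PM f) {θ : ℝ} (hθ0 : 0 ≤ θ) (C₀ : ℝ) {P : ℤ[X]}
    (hsep : (P.map (Int.castRingHom ℚ)).Separable) (hl : 0 < P.leadingCoeff) (hd : 1 ≤ P.natDegree)
    (hθ : P.natDegree * θ < 1) (A : ℕ) : ∃ N₀ : ℕ, ∀ W : Set ℕ,
      (∀ X : ℕ, 1 ≤ X → (((Icc 1 X).filter (fun v => v ∈ W)).card : ℝ) ≤ C₀ * (X : ℝ) ^ θ) → ∀ x : ℕ, N₀ ≤ x →
      (((dom P x).filter (fun m : ℕ => f (P.eval (m : ℤ)).toNat ∈ W)).card : ℝ) ≤ x / (Real.log x) ^ A := by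
  obtain ⟨U, V, R, hR0, hR⟩ := exists_res hsep
  have hP0 : P ≠ 0 := by rintro rfl; simp at hd
  obtain ⟨d, hdd⟩ : ∃ d : ℕ, d = P.natDegree := ⟨_, rfl⟩
  obtain ⟨G, hG⟩ : ∃ G : ℕ, G = P.natDegree + R.natAbs ^ 3 := ⟨_, rfl⟩
  have hzer : ∀ k : ℕ, 1 ≤ k → (zer P k).card ≤ G ^ k.primeFactors.card := fun k hk => by
    rw [hG]; exact zer_le hR hR0 k hk
  rw [← hdd] at hθ hd
  have hd1 : (1 : ℝ) ≤ d := by exact_mod_cast hd
  have hd0 : (0 : ℝ) < d := by linarith
  have hθ1 : θ ≤ 1 := by nlinarith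
  obtain ⟨δ, hδ⟩ : ∃ δ : ℝ, δ = min ((1 - d * θ) / (2 * d)) (1 / (d + 1)) := ⟨_, rfl⟩
  have hδ0 : 0 < δ := by
    rw [hδ]
    exact lt_min (div_pos (by linarith) (by linarith)) (by positivity)
  have hδd : δ ≤ 1 / (d + 1) := by rw [hδ]; exact min_le_right _ _
  have hδ1 : δ ≤ 1 := hδd.trans (by rw [div_le_one (by positivity)]; linarith)
  have hdδ : d * (θ + δ) ≤ (1 + d * θ) / 2 := by
    have h1 : δ ≤ (1 - d * θ) / (2 * d) := by rw [hδ]; exact min_le_left _ _
    have h2 : d * δ ≤ d * ((1 - d * θ) / (2 * d)) := mul_le_mul_of_nonneg_left h1 hd0.le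
    have h3 : d * ((1 - d * θ) / (2 * d)) = (1 - d * θ) / 2 := by field_simp
    linarith
  obtain ⟨N₁, hN₁⟩ := avoidS hf hθ0 hθ1 hδ0 hδ1 C₀ (4 * d) G (A + 1)
  obtain ⟨m₀, hm₀⟩ := eval_pos (by omega : 1 ≤ P.natDegree) hl
  obtain ⟨Cs, hCs⟩ : ∃ Cs : ℕ, Cs = csum P := ⟨_, rfl⟩
  have hCs1 : 1 ≤ Cs := by rw [hCs]; exact csum_pos hP0
  have hCs1' : (1 : ℝ) ≤ Cs := by exact_mod_cast hCs1
  obtain ⟨e, he⟩ : ∃ e : ℝ, e = (1 - d * θ) / 2 := ⟨_, rfl⟩
  have he0 : 0 < e := by rw [he]; linarith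
  have ht1 := ((tendsto_rpow_atTop he0).comp tendsto_natCast_atTop_atTop).eventually_ge_atTop
    ((Cs : ℝ) ^ (θ + δ) * (2 * d))
  have ht2 := (Real.tendsto_log_atTop.comp tendsto_natCast_atTop_atTop).eventually_ge_atTop (d : ℝ)
  obtain ⟨N₂, hN₂⟩ := Filter.eventually_atTop.1 (ht1.and ht2)
  refine ⟨N₁ + N₂ + Cs + 2 * m₀ + 3, fun W hW x hx => ?_⟩
  obtain ⟨a1, a2⟩ := hN₂ x (by omega)
  simp only [Function.comp_apply] at a1 a2
  have hx1 : (1 : ℝ) ≤ x := by exact_mod_cast (by omega : 1 ≤ x)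
  have hx0 : (0 : ℝ) < x := by linarith
  obtain ⟨N, hN⟩ : ∃ N : ℕ, N = Cs * x ^ d := ⟨_, rfl⟩
  have hxN : x ≤ N := by
    rw [hN]
    calc x = 1 * x ^ 1 := by ring
      _ ≤ Cs * x ^ d := Nat.mul_le_mul hCs1 (Nat.pow_le_pow_right (by omega) hd)
  have hN1 : (1 : ℝ) ≤ N := by exact_mod_cast (by omega : 1 ≤ N)
  have hNr : (N : ℝ) = Cs * (x : ℝ) ^ d := by rw [hN]; push_cast; ring
  -- size of the set of values
  have hdom : (x : ℝ) / 2 ≤ (dom P x).card := by
    have h1 : Ioc m₀ x ⊆ dom P x := by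
      intro m hm
      rw [mem_Ioc] at hm
      rw [dom, mem_filter, mem_Icc]
      exact ⟨⟨by omega, hm.2⟩, hm₀ m hm.1.le⟩
    have h2 := card_le_card h1
    rw [Nat.card_Ioc] at h2
    have h3 : x ≤ 2 * (dom P x).card := by omega
    have h4 : (x : ℝ) ≤ 2 * (dom P x).card := by exact_mod_cast h3
    linarith
  have hvals : (x : ℝ) ≤ 2 * d * (vals P x).card := by
    have h1 : ((dom P x).card : ℝ) ≤ d * (vals P x).card := by
      rw [hdd]
      exact_mod_cast dom_le (by omega : 1 ≤ P.natDegree) x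
    linarith
  have hS1 : ∀ v ∈ vals P x, 1 ≤ v ∧ v ≤ N := by
    intro v hv
    rw [vals, mem_image] at hv
    obtain ⟨m, hm, rfl⟩ := hv
    rw [dom, mem_filter, mem_Icc] at hm
    constructor
    · have := hm.2
      omega
    · rw [hN, hCs, hdd]
      exact val_le P hm.1.1 hm.1.2
  have hS2 : (N : ℝ) ^ (θ + δ) ≤ (vals P x).card := by
    have h1 : (N : ℝ) ^ (θ + δ) = (Cs : ℝ) ^ (θ + δ) * (x : ℝ) ^ (d * (θ + δ)) := by
      rw [hNr, Real.mul_rpow (by positivity) (by positivity), ← Real.rpow_natCast, ← Real.rpow_mul hx0.le]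
    have h2 : (x : ℝ) ^ (d * (θ + δ)) ≤ (x : ℝ) ^ (1 - e) :=
      Real.rpow_le_rpow_of_exponent_le hx1 (by rw [he]; linarith)
    have h3 : (x : ℝ) ^ (1 - e) * (x : ℝ) ^ e = x := by
      rw [← Real.rpow_add hx0]; simp
    have h4 : (Cs : ℝ) ^ (θ + δ) * (x : ℝ) ^ (1 - e) * (2 * d) ≤ x := by
      calc (Cs : ℝ) ^ (θ + δ) * (x : ℝ) ^ (1 - e) * (2 * d) = (x : ℝ) ^ (1 - e) * ((Cs : ℝ) ^ (θ + δ) * (2 * d)) := by ring
        _ ≤ (x : ℝ) ^ (1 - e) * (x : ℝ) ^ e := mul_le_mul_of_nonneg_left a1 (by positivity)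
        _ = x := h3
    rw [h1]
    have h5 : (Cs : ℝ) ^ (θ + δ) * (x : ℝ) ^ (d * (θ + δ)) ≤ (Cs : ℝ) ^ (θ + δ) * (x : ℝ) ^ (1 - e) :=
      mul_le_mul_of_nonneg_left h2 (by positivity)
    have h6 : (Cs : ℝ) ^ (θ + δ) * (x : ℝ) ^ (1 - e) * (2 * d) ≤ (vals P x).card * (2 * d) := by linarith
    exact h5.trans (le_of_mul_le_mul_right h6 (by linarith))
  have hS3 : ∀ k : ℕ, 1 ≤ k → (k : ℝ) ≤ (N : ℝ) ^ δ → (((vals P x).filter (fun m => k ∣ m)).card : ℝ) ≤
      (4 * d) * (G : ℝ) ^ k.primeFactors.card * (vals P x).card / k := by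
    intro k hk hkN
    have hk0 : (0 : ℝ) < k := by exact_mod_cast hk
    have h1 : (N : ℝ) ^ δ ≤ x := by
      have h2 : (N : ℝ) ^ δ ≤ (N : ℝ) ^ (1 / ((d : ℝ) + 1)) := Real.rpow_le_rpow_of_exponent_le hN1 hδd
      have h3 : (N : ℝ) ≤ (x : ℝ) ^ (d + 1) := by
        rw [hNr, pow_succ, mul_comm]
        have : (Cs : ℝ) ≤ x := by exact_mod_cast (by omega : Cs ≤ x)
        gcongr
      have h4 : (N : ℝ) ^ (1 / ((d : ℝ) + 1)) ≤ ((x : ℝ) ^ (d + 1)) ^ (1 / ((d : ℝ) + 1)) :=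
        Real.rpow_le_rpow (by linarith) h3 (by positivity)
      have h5 : ((x : ℝ) ^ (d + 1)) ^ (1 / ((d : ℝ) + 1)) = x := by
        rw [← Real.rpow_natCast, ← Real.rpow_mul hx0.le]
        push_cast
        rw [mul_one_div_cancel (by positivity), Real.rpow_one]
      linarith
    have hkx : k ≤ x := by exact_mod_cast hkN.trans h1
    refine (vals_dvd P hk hkx (hzer k hk)).trans ?_
    have h6 : 2 * (G : ℝ) ^ k.primeFactors.card * x ≤ (4 * d) * (G : ℝ) ^ k.primeFactors.card * (vals P x).card := by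
      calc 2 * (G : ℝ) ^ k.primeFactors.card * x ≤ 2 * (G : ℝ) ^ k.primeFactors.card * (2 * d * (vals P x).card) :=
            mul_le_mul_of_nonneg_left hvals (by positivity)
        _ = _ := by ring
    exact div_le_div_of_nonneg_right h6 hk0.le
  have hmain := hN₁ N (by omega) W hW (vals P x) hS1 hS2 hS3
  -- back to the arguments
  have hback : ((dom P x).filter (fun m : ℕ => f (P.eval (m : ℤ)).toNat ∈ W)).card ≤
      P.natDegree * ((vals P x).filter (fun v => f v ∈ W)).card := by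
    have h1 : ((dom P x).filter (fun m : ℕ => f (P.eval (m : ℤ)).toNat ∈ W)).card ≤ P.natDegree *
        (((dom P x).filter (fun m : ℕ => f (P.eval (m : ℤ)).toNat ∈ W)).image (fun m : ℕ => (P.eval (m : ℤ)).toNat)).card := by
      apply card_le_mul_card_image
      intro a _
      refine (card_le_card ?_).trans (fib_le (by omega : 1 ≤ P.natDegree) x a)
      intro m hm
      rw [mem_filter, mem_filter] at hm
      rw [mem_filter]
      exact ⟨hm.1.1, hm.2⟩
    refine h1.trans (Nat.mul_le_mul_left _ (card_le_card ?_))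
    intro v hv
    rw [mem_image] at hv
    obtain ⟨m, hm, rfl⟩ := hv
    rw [mem_filter] at hm
    rw [mem_filter, vals]
    exact ⟨mem_image_of_mem (fun m : ℕ => (P.eval (m : ℤ)).toNat) hm.1, hm.2⟩
  have hlx : (1 : ℝ) ≤ Real.log x := hd1.trans a2
  have hlN : Real.log x ≤ Real.log N := Real.log_le_log hx0 (by exact_mod_cast hxN)
  calc (((dom P x).filter (fun m : ℕ => f (P.eval (m : ℤ)).toNat ∈ W)).card : ℝ)
      ≤ d * ((vals P x).filter (fun v => f v ∈ W)).card := by rw [hdd]; exact_mod_cast hback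
    _ ≤ d * ((vals P x).card / (Real.log N) ^ (A + 1)) := mul_le_mul_of_nonneg_left hmain hd0.le
    _ ≤ d * (x / (Real.log x) ^ (A + 1)) := by
        have h1 : ((vals P x).card : ℝ) ≤ x := by exact_mod_cast vals_le P x
        gcongr
    _ ≤ Real.log x * (x / (Real.log x) ^ (A + 1)) := mul_le_mul_of_nonneg_right a2 (by positivity)
    _ = x / (Real.log x) ^ A := by
        rw [pow_succ]; field_simp

end Pool.Agent.U405.RS
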