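import Mathlib
import Pool.Agent.U405.RS.C2
import Pool.Agent.H307R2.OP.BT4

set_option autoImplicit false

/-! Multiplicative functions at shifted primes and in short intervals avoid the sets with a power saving (helper405). -/

namespace Pool.Agent.U405.RS

open Finset Classical

/-! ### Short intervals -/

lemma count_interval {k x h : ℕ} (hk : 1 ≤ k) (hkh : k ≤ h) :
    (((Ioc x (x + h)).filter (fun m => k ∣ m)).card : ℝ) ≤ 2 * h / k := by
  have h0 : (Ioc x (x + h)).filter (fun m => k ∣ m) ⊆ (Ioc 0 (x + h)).filter (fun m => k ∣ m) \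
      (Ioc 0 x).filter (fun m => k ∣ m) := by
    intro m hm
    rw [mem_filter, mem_Ioc] at hm
    rw [mem_sdiff, mem_filter, mem_filter, mem_Ioc, mem_Ioc]
    exact ⟨⟨⟨by omega, hm.1.2⟩, hm.2⟩, fun hc => by omega⟩
  have h1 : (Ioc 0 x).filter (fun m => k ∣ m) ⊆ (Ioc 0 (x + h)).filter (fun m => k ∣ m) := by
    intro m hm
    rw [mem_filter, mem_Ioc] at hm ⊢
    exact ⟨⟨hm.1.1, by omega⟩, hm.2⟩
  have h2 := card_le_card h0
  rw [card_sdiff_of_subset h1, Nat.Ioc_filter_dvd_card_eq_div, Nat.Ioc_filter_dvd_card_eq_div] at h2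
  have h3 : (x + h) / k ≤ x / k + h / k + 1 := by
    rw [← Nat.lt_succ_iff, Nat.div_lt_iff_lt_mul hk]
    have e1 := Nat.div_add_mod x k
    have e2 := Nat.div_add_mod h k
    have e3 := Nat.mod_lt x hk
    have e4 := Nat.mod_lt h hk
    have e5 : (x / k + h / k + 1).succ * k = k * (x / k) + k * (h / k) + k + k := by
      rw [Nat.succ_eq_add_one]; ring
    rw [e5]
    omega
  have h4 : ((Ioc x (x + h)).filter (fun m => k ∣ m)).card ≤ h / k + 1 :=
    h2.trans (Nat.sub_le_iff_le_add.2 (by linarith))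
  have hk0 : (0 : ℝ) < k := by exact_mod_cast hk
  have h5 : (((Ioc x (x + h)).filter (fun m => k ∣ m)).card : ℝ) ≤ ((h / k : ℕ) : ℝ) + 1 := by exact_mod_cast h4
  have h6 : ((h / k : ℕ) : ℝ) ≤ (h : ℝ) / k := Nat.cast_div_le
  have h7 : (1 : ℝ) ≤ (h : ℝ) / k := (one_le_div hk0).2 (by exact_mod_cast hkh)
  calc _ ≤ ((h / k : ℕ) : ℝ) + 1 := h5
    _ ≤ (h : ℝ) / k + h / k := by linarith
    _ = 2 * h / k := by ring

/-- **Short intervals.** Here `θ < τ ≤ 1` and `x ^ τ ≤ h ≤ x`. -/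
theorem avoid_interval {f : ℕ → ℕ} (hf : PM f) {θ τ : ℝ} (hθ0 : 0 ≤ θ) (hθ : θ < τ) (hτ : τ ≤ 1) (C₀ : ℝ) (A : ℕ) :
    ∃ N₀ : ℕ, ∀ W : Set ℕ,
      (∀ X : ℕ, 1 ≤ X → (((Icc 1 X).filter (fun v => v ∈ W)).card : ℝ) ≤ C₀ * (X : ℝ) ^ θ) → ∀ x : ℕ, N₀ ≤ x →
      ∀ h : ℕ, (x : ℝ) ^ τ ≤ h → h ≤ x →
      (((Ioc x (x + h)).filter (fun m => f m ∈ W)).card : ℝ) ≤ h / (Real.log x) ^ A := by
  obtain ⟨δ, hδ⟩ : ∃ δ : ℝ, δ = (τ - θ) / 2 := ⟨_, rfl⟩
  have hδ0 : 0 < δ := by rw [hδ]; linarith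
  have hδ1 : δ ≤ 1 := by rw [hδ]; linarith
  obtain ⟨N₁, hN₁⟩ := avoidS hf hθ0 (by linarith) hδ0 hδ1 C₀ 2 1 A
  have ht1 := ((tendsto_rpow_atTop hδ0).comp tendsto_natCast_atTop_atTop).eventually_ge_atTop ((2 : ℝ) ^ (θ + δ))
  obtain ⟨N₂, hN₂⟩ := Filter.eventually_atTop.1 ht1
  refine ⟨N₁ + N₂ + 3, fun W hW x hx h hh hhx => ?_⟩
  have a1 := hN₂ x (by omega)
  simp only [Function.comp_apply] at a1
  have hx3 : (3 : ℝ) ≤ x := by exact_mod_cast (by omega : 3 ≤ x)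
  have hx0 : (0 : ℝ) < x := by linarith
  have hcard : (Ioc x (x + h)).card = h := by rw [Nat.card_Ioc]; omega
  have hN2 : ((x + h : ℕ) : ℝ) ≤ 2 * x := by
    have : x + h ≤ 2 * x := by omega
    exact_mod_cast this
  have hN1 : (1 : ℝ) ≤ ((x + h : ℕ) : ℝ) := by exact_mod_cast (by omega : 1 ≤ x + h)
  have hsize : ((x + h : ℕ) : ℝ) ^ (θ + δ) ≤ h := by
    refine le_trans ?_ hh
    calc ((x + h : ℕ) : ℝ) ^ (θ + δ) ≤ (2 * x) ^ (θ + δ) := Real.rpow_le_rpow (by positivity) hN2 (by linarith)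
      _ = 2 ^ (θ + δ) * (x : ℝ) ^ (θ + δ) := Real.mul_rpow (by norm_num) hx0.le
      _ ≤ (x : ℝ) ^ δ * (x : ℝ) ^ (θ + δ) := mul_le_mul_of_nonneg_right a1 (by positivity)
      _ = (x : ℝ) ^ τ := by
          rw [← Real.rpow_add hx0]
          congr 1
          rw [hδ]; ring
  have hmain := hN₁ (x + h) (by omega) W hW (Ioc x (x + h)) (fun m hm => by rw [mem_Ioc] at hm; omega)
    (by rw [hcard]; exact hsize) (by
      intro k hk hkN
      have h1 : ((x + h : ℕ) : ℝ) ^ δ ≤ ((x + h : ℕ) : ℝ) ^ (θ + δ) :=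
        Real.rpow_le_rpow_of_exponent_le hN1 (by linarith)
      have hkh : k ≤ h := by exact_mod_cast (hkN.trans h1).trans hsize
      refine (count_interval hk hkh).trans (le_of_eq ?_)
      rw [hcard]
      push_cast
      rw [one_pow]
      ring)
  rw [hcard] at hmain
  refine hmain.trans ?_
  have hlx : 0 < Real.log x := Real.log_pos (by linarith)
  have hlN : Real.log x ≤ Real.log ((x + h : ℕ) : ℝ) := Real.log_le_log hx0 (by push_cast; linarith [(Nat.cast_nonneg h : (0 : ℝ) ≤ h)])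
  gcongr

/-! ### Shifted primes -/

/-- the primes `p ≤ x` with `p + a ≥ 1` -/
noncomputable def prs (a : ℤ) (x : ℕ) : Finset ℕ := (Icc 1 x).filter (fun p : ℕ => p.Prime ∧ 1 ≤ (p : ℤ) + a)

/-- the shifted primes `p + a ≥ 1`, `p ≤ x` -/
noncomputable def shp (a : ℤ) (x : ℕ) : Finset ℕ := (prs a x).image (fun p : ℕ => ((p : ℤ) + a).toNat)

lemma shp_inj (a : ℤ) (x : ℕ) : Set.InjOn (fun p : ℕ => ((p : ℤ) + a).toNat) (prs a x : Set ℕ) := by
  intro p hp q hq h
  rw [mem_coe, prs, mem_filter] at hp hq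
  simp only at h
  have h1 := hp.2.2
  have h2 := hq.2.2
  omega

lemma card_shp (a : ℤ) (x : ℕ) : (shp a x).card = (prs a x).card := card_image_of_injOn (shp_inj a x)

lemma prs_le (a : ℤ) (x : ℕ) : (prs a x).card ≤ Nat.primeCounting x := by
  rw [Nat.primeCounting, Nat.primeCounting', Nat.count_eq_card_filter_range]
  apply card_le_card
  intro p hp
  rw [prs, mem_filter, mem_Icc] at hp
  rw [mem_filter, mem_range]
  exact ⟨by omega, hp.2.1⟩

lemma prs_ge (a : ℤ) (x : ℕ) : Nat.primeCounting x ≤ (prs a x).card + a.natAbs + 1 := by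
  rw [Nat.primeCounting, Nat.primeCounting', Nat.count_eq_card_filter_range]
  have h1 : (range (x + 1)).filter Nat.Prime ⊆ prs a x ∪ range (a.natAbs + 1) := by
    intro p hp
    rw [mem_filter, mem_range] at hp
    rw [mem_union, prs, mem_filter, mem_Icc, mem_range]
    by_cases h : p < a.natAbs + 1
    · exact Or.inr h
    · left
      refine ⟨⟨hp.2.one_lt.le, by omega⟩, hp.2, ?_⟩
      have h2 : -(a.natAbs : ℤ) ≤ a := by omega
      have h3 : ((a.natAbs + 1 : ℕ) : ℤ) ≤ p := by exact_mod_cast not_lt.1 h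
      push_cast at h3
      omega
  have h2 := (card_le_card h1).trans (card_union_le _ _)
  rw [card_range] at h2
  omega

lemma totient_ge (k : ℕ) (_hk : 1 ≤ k) : k ≤ Nat.totient k * 2 ^ k.primeFactors.card := by
  have h1 := Nat.totient_mul_prod_primeFactors k
  have h2 : ∏ p ∈ k.primeFactors, p ≤ 2 ^ k.primeFactors.card * ∏ p ∈ k.primeFactors, (p - 1) := by
    rw [← prod_const, ← prod_mul_distrib]
    apply prod_le_prod'
    intro p hp
    have := (Nat.prime_of_mem_primeFactors hp).two_le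
    omega
  have h3 : 0 < ∏ p ∈ k.primeFactors, (p - 1) := by
    apply prod_pos
    intro p hp
    have := (Nat.prime_of_mem_primeFactors hp).two_le
    omega
  have h4 : k * ∏ p ∈ k.primeFactors, (p - 1) ≤
      (Nat.totient k * 2 ^ k.primeFactors.card) * ∏ p ∈ k.primeFactors, (p - 1) := by
    rw [← h1, mul_assoc]
    exact Nat.mul_le_mul_left _ h2
  exact Nat.le_of_mul_le_mul_right h4 h3

/-- the shifted primes divisible by `k` -/
lemma shp_dvd (a : ℤ) {k x : ℕ} (hk : 1 ≤ k) :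
    ((shp a x).filter (fun v => k ∣ v)).card ≤
      ((range (x / k + 1)).filter (fun j => (((-a) % (k : ℤ)).toNat + j * k).Prime)).card := by
  have h1 : (shp a x).filter (fun v => k ∣ v) ⊆
      ((prs a x).filter (fun p : ℕ => (k : ℤ) ∣ (p : ℤ) + a)).image (fun p : ℕ => ((p : ℤ) + a).toNat) := by
    intro v hv
    rw [mem_filter, shp, mem_image] at hv
    obtain ⟨⟨p, hp, rfl⟩, hkv⟩ := hv
    rw [mem_image]
    refine ⟨p, ?_, rfl⟩
    rw [mem_filter]
    refine ⟨hp, ?_⟩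
    rw [prs, mem_filter] at hp
    have := Int.natCast_dvd_natCast.2 hkv
    rwa [Int.toNat_of_nonneg (by linarith [hp.2.2])] at this
  refine (card_le_card h1).trans (card_image_le.trans ?_)
  apply card_le_card_of_injOn (fun p : ℕ => p / k)
  · intro p hp
    rw [mem_coe, mem_filter, prs, mem_filter, mem_Icc] at hp
    obtain ⟨⟨⟨hp1, hpx⟩, hpp, -⟩, hd⟩ := hp
    rw [mem_coe, mem_filter, mem_range]
    have h2 : ((-a) % (k : ℤ)).toNat = p % k := by
      have h3 : (-a) % (k : ℤ) = (p : ℤ) % k := by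
        apply Int.ModEq.symm
        rw [Int.modEq_iff_dvd]
        have : -a - (p : ℤ) = -((p : ℤ) + a) := by ring
        rw [this]
        exact (dvd_neg).2 hd
      rw [h3]
      have h4 : (p : ℤ) % k = ((p % k : ℕ) : ℤ) := by push_cast; rfl
      rw [h4, Int.toNat_natCast]
    refine ⟨?_, ?_⟩
    · have := Nat.div_le_div_right (c := k) hpx
      simp only
      omega
    · simp only
      rw [h2, mul_comm, Nat.mod_add_div]
      exact hpp
  · intro p hp q hq h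
    rw [mem_coe, mem_filter] at hp hq
    simp only at h
    have h2 : (k : ℤ) ∣ (p : ℤ) - q := by
      have := dvd_sub hp.2 hq.2
      simpa using this
    have h3 : p % k = q % k := by
      have : (q : ℤ) ≡ p [ZMOD k] := Int.modEq_iff_dvd.2 h2
      exact (Int.natCast_modEq_iff.1 this).symm
    rw [← Nat.div_add_mod p k, ← Nat.div_add_mod q k, h, h3]

/-- **Shifted primes.** Here `θ < 1`. -/
theorem avoid_shift {f : ℕ → ℕ} (hf : PM f) {θ : ℝ} (hθ0 : 0 ≤ θ) (hθ : θ < 1) (C₀ : ℝ) (a : ℤ) (A : ℕ) :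
    ∃ N₀ : ℕ, ∀ W : Set ℕ,
      (∀ X : ℕ, 1 ≤ X → (((Icc 1 X).filter (fun v => v ∈ W)).card : ℝ) ≤ C₀ * (X : ℝ) ^ θ) → ∀ x : ℕ, N₀ ≤ x →
      (((prs a x).filter (fun p : ℕ => f ((p : ℤ) + a).toNat ∈ W)).card : ℝ) ≤
        Nat.primeCounting x / (Real.log x) ^ A := by
  obtain ⟨δ, hδ⟩ : ∃ δ : ℝ, δ = min ((1 - θ) / 2) (1 / 4) := ⟨_, rfl⟩
  have hδ0 : 0 < δ := by rw [hδ]; exact lt_min (by linarith) (by norm_num)
  have hδ4 : δ ≤ 1 / 4 := by rw [hδ]; exact min_le_right _ _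
  have hδθ : δ ≤ (1 - θ) / 2 := by rw [hδ]; exact min_le_left _ _
  obtain ⟨N₁, hN₁⟩ := avoidS hf hθ0 hθ.le hδ0 (by linarith) C₀ 72 2 A
  obtain ⟨N₃, hN₃⟩ := Pool.Agent.H307R2.OP.bt4
  -- large `x`
  have hlog : Filter.Tendsto (fun x : ℕ => Real.log (x : ℝ)) Filter.atTop Filter.atTop :=
    Real.tendsto_log_atTop.comp tendsto_natCast_atTop_atTop
  have t1 : ∀ᶠ x : ℕ in Filter.atTop, Real.log (x : ℝ) ≤ (x : ℝ) ^ (δ / 2) := by
    have := (isLittleO_log_rpow_atTop (r := δ / 2) (by positivity)).bound (show (0 : ℝ) < 1 by norm_num)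
    have h2 := tendsto_natCast_atTop_atTop (R := ℝ) |>.eventually this
    filter_upwards [h2, Filter.eventually_ge_atTop 3] with x h3 h4
    have hx : (1 : ℝ) ≤ x := by exact_mod_cast (by omega : 1 ≤ x)
    rw [Real.norm_of_nonneg (Real.log_nonneg hx), Real.norm_of_nonneg (by positivity), one_mul] at h3
    exact h3
  have t2 : ∀ᶠ x : ℕ in Filter.atTop, (4 : ℝ) * 2 ^ (θ + δ) ≤ (x : ℝ) ^ (δ / 2) :=
    ((tendsto_rpow_atTop (by positivity : 0 < δ / 2)).comp tendsto_natCast_atTop_atTop).eventually_ge_atTop _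
  have t3 : ∀ᶠ x : ℕ in Filter.atTop, (20 : ℝ) * (a.natAbs + 2) ≤ (x : ℝ) ^ (1 / 2 : ℝ) :=
    ((tendsto_rpow_atTop (by norm_num : (0 : ℝ) < 1 / 2)).comp tendsto_natCast_atTop_atTop).eventually_ge_atTop _
  have t4 : ∀ᶠ x : ℕ in Filter.atTop, (N₃ : ℝ) ≤ (x : ℝ) ^ (1 / 2 : ℝ) :=
    ((tendsto_rpow_atTop (by norm_num : (0 : ℝ) < 1 / 2)).comp tendsto_natCast_atTop_atTop).eventually_ge_atTop _
  obtain ⟨N₂, hN₂⟩ := Filter.eventually_atTop.1 (t1.and (t2.and (t3.and t4)))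
  refine ⟨N₁ + N₂ + a.natAbs + 16, fun W hW x hx => ?_⟩
  obtain ⟨a1, a2, a3, a4⟩ := hN₂ x (by omega)
  have hx16 : (16 : ℝ) ≤ x := by exact_mod_cast (by omega : 16 ≤ x)
  have hx0 : (0 : ℝ) < x := by linarith
  have hx1 : (1 : ℝ) ≤ x := by linarith
  have hlx : 0 < Real.log x := Real.log_pos (by linarith)
  have hlx1 : 1 ≤ Real.log x := by
    rw [Real.le_log_iff_exp_le hx0]
    have := Real.exp_one_lt_d9
    linarith
  obtain ⟨N, hN⟩ : ∃ N : ℕ, N = x + a.natAbs := ⟨_, rfl⟩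
  have hNx : x ≤ N := by omega
  have hN2 : (N : ℝ) ≤ 2 * x := by
    have : N ≤ 2 * x := by omega
    exact_mod_cast this
  have hN0 : (0 : ℝ) < N := by exact_mod_cast (by omega : 0 < N)
  have hlogle : Real.log x ≤ 2 * (x : ℝ) ^ (1 / 2 : ℝ) := by
    have h1 := Real.log_le_rpow_div hx0.le (show (0 : ℝ) < 1 / 2 by norm_num)
    linarith
  have hsq : (x : ℝ) ^ (1 / 2 : ℝ) * (x : ℝ) ^ (1 / 2 : ℝ) = x := by
    rw [← Real.rpow_add hx0]; norm_num
  have hsq0 : 0 < (x : ℝ) ^ (1 / 2 : ℝ) := by positivity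
  -- size of the set
  have hpi : (x : ℝ) / (2 * Real.log x) ≤ (shp a x).card := by
    have h1 := Chebyshev.pi_ge x
    have h2 : (Nat.primeCounting x : ℝ) ≤ (prs a x).card + a.natAbs + 1 := by exact_mod_cast prs_ge a x
    have h3 : Real.log (x + 1) ≤ 3 * (x : ℝ) ^ (1 / 2 : ℝ) := by
      have h4 : Real.log ((x : ℝ) + 1) ≤ Real.log (2 * x) := Real.log_le_log (by linarith) (by linarith)
      rw [Real.log_mul (by norm_num) hx0.ne'] at h4
      have h5 := Real.log_two_lt_d9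
      have h6 : (1 : ℝ) ≤ (x : ℝ) ^ (1 / 2 : ℝ) := Real.one_le_rpow hx1 (by norm_num)
      linarith
    rw [card_shp]
    have h7 : (x : ℝ) / (2 * Real.log x) + (a.natAbs + 1) ≤ (x * Real.log 2 - Real.log (x + 1)) / Real.log x := by
      rw [le_div_iff₀ hlx]
      have h8 : ((x : ℝ) / (2 * Real.log x) + (a.natAbs + 1)) * Real.log x = x / 2 + (a.natAbs + 1) * Real.log x := by
        field_simp
      rw [h8]
      have h9 := Real.log_two_gt_d9
      have h10 : ((a.natAbs : ℝ) + 1) * Real.log x ≤ (a.natAbs + 2) * (2 * (x : ℝ) ^ (1 / 2 : ℝ)) :=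
        mul_le_mul (by linarith) hlogle hlx.le (by positivity)
      have h11 : (20 : ℝ) * (a.natAbs + 2) * (x : ℝ) ^ (1 / 2 : ℝ) ≤ x := by
        calc (20 : ℝ) * (a.natAbs + 2) * (x : ℝ) ^ (1 / 2 : ℝ) ≤ (x : ℝ) ^ (1 / 2 : ℝ) * (x : ℝ) ^ (1 / 2 : ℝ) :=
              mul_le_mul_of_nonneg_right a3 hsq0.le
          _ = x := hsq
      have h12 : (40 : ℝ) * (x : ℝ) ^ (1 / 2 : ℝ) ≤ x := by
        have : (40 : ℝ) ≤ 20 * (a.natAbs + 2) := by
          have : (0 : ℝ) ≤ a.natAbs := by positivity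
          linarith
        have := mul_le_mul_of_nonneg_right this hsq0.le
        linarith
      have h13 : 0.69 * (x : ℝ) ≤ x * Real.log 2 := by
        rw [mul_comm]
        exact mul_le_mul_of_nonneg_left (by linarith) hx0.le
      linarith
    linarith
  have hSpos : (0 : ℝ) ≤ (shp a x).card := Nat.cast_nonneg _
  have hS1 : ∀ v ∈ shp a x, 1 ≤ v ∧ v ≤ N := by
    intro v hv
    rw [shp, mem_image] at hv
    obtain ⟨p, hp, rfl⟩ := hv
    rw [prs, mem_filter, mem_Icc] at hp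
    omega
  have hS2 : (N : ℝ) ^ (θ + δ) ≤ (shp a x).card := by
    refine le_trans ?_ hpi
    rw [le_div_iff₀ (by positivity)]
    have e1 : (N : ℝ) ^ (θ + δ) ≤ 2 ^ (θ + δ) * (x : ℝ) ^ (θ + δ) := by
      rw [← Real.mul_rpow (by norm_num) hx0.le]
      exact Real.rpow_le_rpow hN0.le hN2 (by linarith)
    have e2 : (x : ℝ) ^ (θ + δ) ≤ (x : ℝ) ^ (1 - δ) := Real.rpow_le_rpow_of_exponent_le hx1 (by linarith)
    have e3 : (x : ℝ) ^ (1 - δ) * ((x : ℝ) ^ (δ / 2) * (x : ℝ) ^ (δ / 2)) = x := by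
      rw [← Real.rpow_add hx0, ← Real.rpow_add hx0]
      norm_num
    have e4 : (2 : ℝ) ^ (θ + δ) * 2 ≤ (x : ℝ) ^ (δ / 2) := by
      have : (0 : ℝ) < 2 ^ (θ + δ) := by positivity
      linarith
    calc (N : ℝ) ^ (θ + δ) * (2 * Real.log x) ≤ (2 ^ (θ + δ) * (x : ℝ) ^ (1 - δ)) * (2 * (x : ℝ) ^ (δ / 2)) := by
          apply mul_le_mul (e1.trans (mul_le_mul_of_nonneg_left e2 (by positivity))) (by linarith) (by linarith) (by positivity)
      _ = (x : ℝ) ^ (1 - δ) * ((2 ^ (θ + δ) * 2) * (x : ℝ) ^ (δ / 2)) := by ring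
      _ ≤ (x : ℝ) ^ (1 - δ) * ((x : ℝ) ^ (δ / 2) * (x : ℝ) ^ (δ / 2)) := by gcongr
      _ = x := e3
  have hS3 : ∀ k : ℕ, 1 ≤ k → (k : ℝ) ≤ (N : ℝ) ^ δ → (((shp a x).filter (fun m => k ∣ m)).card : ℝ) ≤
      72 * ((2 : ℕ) : ℝ) ^ k.primeFactors.card * (shp a x).card / k := by
    intro k hk hkN
    have hk0 : (0 : ℝ) < k := by exact_mod_cast hk
    have hk1 : (1 : ℝ) ≤ k := by exact_mod_cast hk
    have h1 : (k : ℝ) ≤ (x : ℝ) ^ (1 / 2 : ℝ) := by
      refine hkN.trans ?_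
      have h2 : (N : ℝ) ^ δ ≤ (2 * x) ^ δ := Real.rpow_le_rpow hN0.le hN2 hδ0.le
      have h3 : (2 * (x : ℝ)) ^ δ ≤ (2 * x) ^ (1 / 4 : ℝ) := Real.rpow_le_rpow_of_exponent_le (by linarith) hδ4
      have h4 : (2 * (x : ℝ)) ^ (1 / 4 : ℝ) ≤ ((x : ℝ) ^ (2 : ℝ)) ^ (1 / 4 : ℝ) := by
        apply Real.rpow_le_rpow (by positivity) _ (by norm_num)
        rw [Real.rpow_two]
        nlinarith
      have h5 : ((x : ℝ) ^ (2 : ℝ)) ^ (1 / 4 : ℝ) = (x : ℝ) ^ (1 / 2 : ℝ) := by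
        rw [← Real.rpow_mul hx0.le]; norm_num
      linarith
    have h2 : (x : ℝ) ^ (1 / 2 : ℝ) ≤ (x : ℝ) / k := by
      rw [le_div_iff₀ hk0]
      calc (x : ℝ) ^ (1 / 2 : ℝ) * k ≤ (x : ℝ) ^ (1 / 2 : ℝ) * (x : ℝ) ^ (1 / 2 : ℝ) :=
            mul_le_mul_of_nonneg_left h1 hsq0.le
        _ = x := hsq
    obtain ⟨M, hM⟩ : ∃ M : ℕ, M = x / k + 1 := ⟨_, rfl⟩
    have hM1 : (x : ℝ) / k ≤ M := by
      rw [hM]
      push_cast
      exact (Nat.lt_floor_add_one ((x : ℝ) / k)).le.trans (by rw [Nat.floor_div_eq_div])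
    have hM2 : (M : ℝ) ≤ 2 * (x / k) := by
      rw [hM]
      push_cast
      have h3 : ((x / k : ℕ) : ℝ) ≤ (x : ℝ) / k := Nat.cast_div_le
      have h4 : (1 : ℝ) ≤ (x : ℝ) ^ (1 / 2 : ℝ) := Real.one_le_rpow hx1 (by norm_num)
      linarith
    have hMN : N₃ ≤ M := by
      have : (N₃ : ℝ) ≤ M := by linarith
      exact_mod_cast this
    have hlM : Real.log x / 2 ≤ Real.log M := by
      have h3 : Real.log ((x : ℝ) ^ (1 / 2 : ℝ)) ≤ Real.log M := Real.log_le_log hsq0 (by linarith)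
      rw [Real.log_rpow hx0] at h3
      linarith
    have h3 := shp_dvd a (k := k) (x := x) hk
    rw [← hM] at h3
    have h4 := hN₃ ((-a) % (k : ℤ)).toNat k M hk hMN
    have h5 : (((shp a x).filter (fun m => k ∣ m)).card : ℝ) ≤
        9 / 2 * ((k : ℝ) / Nat.totient k) * (M / Real.log M) := le_trans (by exact_mod_cast h3) h4
    have ht : (0 : ℝ) < Nat.totient k := by exact_mod_cast Nat.totient_pos.2 hk
    have h6 : (k : ℝ) / Nat.totient k ≤ 2 ^ k.primeFactors.card := by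
      rw [div_le_iff₀ ht, mul_comm]
      exact_mod_cast totient_ge k hk
    have h7 : (M : ℝ) / Real.log M ≤ (2 * (x / k)) / (Real.log x / 2) := by
      have : 0 < Real.log x / 2 := by linarith
      gcongr
    have h8 : (2 * ((x : ℝ) / k)) / (Real.log x / 2) = 8 / k * (x / (2 * Real.log x)) := by
      field_simp; ring
    rw [h8] at h7
    have h9 : 8 / (k : ℝ) * (x / (2 * Real.log x)) ≤ 8 / k * (shp a x).card :=
      mul_le_mul_of_nonneg_left hpi (by positivity)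
    calc (((shp a x).filter (fun m => k ∣ m)).card : ℝ) ≤ 9 / 2 * ((k : ℝ) / Nat.totient k) * (M / Real.log M) := h5
      _ ≤ 9 / 2 * 2 ^ k.primeFactors.card * (8 / k * (shp a x).card) := by
          have h10 : (0 : ℝ) ≤ M / Real.log M := by
            have : 0 ≤ Real.log M := by linarith
            positivity
          exact mul_le_mul (mul_le_mul_of_nonneg_left h6 (by norm_num)) (h7.trans h9) h10 (by positivity)
      _ = 36 * ((2 : ℕ) : ℝ) ^ k.primeFactors.card * (shp a x).card / k := by push_cast; ring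
      _ ≤ 72 * ((2 : ℕ) : ℝ) ^ k.primeFactors.card * (shp a x).card / k := by
          apply div_le_div_of_nonneg_right _ hk0.le
          apply mul_le_mul_of_nonneg_right _ hSpos
          apply mul_le_mul_of_nonneg_right (by norm_num) (by positivity)
  have hmain := hN₁ N (by omega) W hW (shp a x) hS1 hS2 hS3
  have hback : ((prs a x).filter (fun p : ℕ => f ((p : ℤ) + a).toNat ∈ W)).card ≤
      ((shp a x).filter (fun v => f v ∈ W)).card := by
    apply card_le_card_of_injOn (fun p : ℕ => ((p : ℤ) + a).toNat)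
    · intro p hp
      rw [mem_coe, mem_filter] at hp
      rw [mem_coe, mem_filter, shp]
      exact ⟨mem_image_of_mem (fun p : ℕ => ((p : ℤ) + a).toNat) hp.1, hp.2⟩
    · exact (shp_inj a x).mono (by rw [coe_subset]; exact filter_subset _ _)
  have hlN : Real.log x ≤ Real.log N := Real.log_le_log hx0 (by exact_mod_cast hNx)
  have hcard : ((shp a x).card : ℝ) ≤ Nat.primeCounting x := by
    rw [card_shp]
    exact_mod_cast prs_le a x
  calc (((prs a x).filter (fun p : ℕ => f ((p : ℤ) + a).toNat ∈ W)).card : ℝ)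
      ≤ ((shp a x).filter (fun v => f v ∈ W)).card := by exact_mod_cast hback
    _ ≤ (shp a x).card / (Real.log N) ^ A := hmain
    _ ≤ Nat.primeCounting x / (Real.log x) ^ A := by gcongr

end Pool.Agent.U405.RS
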