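import Mathlib
import Pool.Agent.U405.RS.D2
import Pool.Agent.U405.RS.D3
import Pool.Agent.N760.TG.U

set_option autoImplicit false

/-! Heights near `G (f v)`, where `v` runs over the values of a separable polynomial, the shifted primes or a short interval
(helper405): the interface. -/

namespace Pool.Agent.U405.RS

open Finset Classical Polynomial
open Pool.Agent.N733.TG (Expanding NearG)
open Pool.Agent.N760.TG (nearG_count_unif)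

/-! ### Examples -/

lemma strictMono_aux {F : ℕ → ℕ} (h : ∀ p q : ℕ, p.Prime → q.Prime → p < q → F p < F q) {p q : ℕ} (hp : p.Prime)
    (hq : q.Prime) (e : F q = F p) : q = p := by
  rcases lt_trichotomy p q with h1 | h1 | h1
  · have := h p q hp hq h1; omega
  · exact h1.symm
  · have := h q p hq hp h1; omega

theorem pm_totient : PM Nat.totient where
  mul := fun m n h => Nat.totient_mul h
  pos := fun m hm => Nat.totient_pos.2 hm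
  growth := ⟨1, 1, fun m _ => by rw [one_mul, pow_one]; exact Nat.totient_le m⟩
  prime := ⟨0, 1, fun p _ hp a ha => ⟨by rw [one_mul]; exact Nat.totient_le _, fun q _ hq e => by
    refine strictMono_aux (F := fun p => Nat.totient (p ^ a)) ?_ hp hq e
    intro p q hp hq hpq
    rw [Nat.totient_prime_pow hp ha, Nat.totient_prime_pow hq ha]
    have h1 : p ^ (a - 1) ≤ q ^ (a - 1) := Nat.pow_le_pow_left hpq.le _
    have h2 : p - 1 < q - 1 := by have := hp.two_le; omega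
    have h3 : 0 < q ^ (a - 1) := pow_pos hq.pos _
    calc p ^ (a - 1) * (p - 1) ≤ q ^ (a - 1) * (p - 1) := Nat.mul_le_mul_right _ h1
      _ < q ^ (a - 1) * (q - 1) := Nat.mul_lt_mul_of_pos_left h2 h3⟩⟩

theorem pm_sigma : PM (fun m => ∑ d ∈ m.divisors, d) where
  mul := Pool.Agent.N733.TG.lm_sigma.mul
  pos := Pool.Agent.N733.TG.lm_sigma.pos
  growth := Pool.Agent.N733.TG.lm_sigma.growth
  prime := ⟨0, 2, fun p _ hp a ha => ⟨by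
      rw [Nat.divisors_prime_pow hp, sum_map]
      simp only [Function.Embedding.coeFn_mk]
      have : ∀ a : ℕ, ∑ x ∈ range (a + 1), p ^ x ≤ 2 * p ^ a := by
        intro a
        induction a with
        | zero => simp
        | succ a ih =>
          rw [sum_range_succ]
          have h1 : 2 * p ^ a ≤ p ^ (a + 1) := by
            rw [pow_succ, mul_comm]
            exact Nat.mul_le_mul_left _ hp.two_le
          omega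
      exact this a, fun q _ hq e => by
    refine strictMono_aux (F := fun p => ∑ d ∈ (p ^ a).divisors, d) ?_ hp hq e
    intro p q hp hq hpq
    rw [Nat.divisors_prime_pow hp, Nat.divisors_prime_pow hq, sum_map, sum_map]
    simp only [Function.Embedding.coeFn_mk]
    apply sum_lt_sum
    · intro i _
      exact Nat.pow_le_pow_left hpq.le i
    · exact ⟨1, by rw [mem_range]; omega, by simpa using hpq⟩⟩⟩

theorem pm_id : PM (fun m => m) where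
  mul := fun _ _ _ => rfl
  pos := fun _ hm => hm
  growth := ⟨1, 1, fun m _ => by rw [one_mul, pow_one]⟩
  prime := ⟨0, 1, fun p _ hp a ha => ⟨by rw [one_mul], fun q _ hq e =>
    strictMono_aux (F := fun p => p ^ a) (fun p q _ _ hpq => Nat.pow_lt_pow_left hpq (by omega)) hp hq e⟩⟩

/-! ### The interface -/

/-- `m` with `v` exceptional -/
lemma exc_iff {T : Type*} (E : Set T) (h : T → ℝ) (G : ℕ → ℝ) (κ : ℝ) (v : ℕ) :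
    v ∈ NearG E h G κ ↔ ∃ t ∈ E, |h t - G v| ≤ (v : ℝ) ^ κ := Iff.rfl

/-- the arguments of a separable polynomial -/
theorem keep_poly {T : Type*} (E : Set T) (h : T → ℝ) {f : ℕ → ℕ} (hf : PM f) {G : ℕ → ℝ} {d : ℝ}
    (hG : Expanding G d) {s κ : ℝ} (hs : 0 ≤ s) (hκ : 0 ≤ κ)
    (hE : ∀ ε : ℝ, 0 < ε → ∃ C : ℝ, ∀ X : ℝ, 1 ≤ X →
      {t | t ∈ E ∧ h t ≤ X}.Finite ∧ ({t | t ∈ E ∧ h t ≤ X}.ncard : ℝ) ≤ C * X ^ (s + ε)) {P : ℤ[X]}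
    (hsep : (P.map (Int.castRingHom ℚ)).Separable) (hl : 0 < P.leadingCoeff) (hd : 1 ≤ P.natDegree)
    (h1 : P.natDegree * (d * s + κ) < 1) (A : ℕ) : ∃ N₀ : ℕ, ∀ x : ℕ, N₀ ≤ x →
      ({m : ℕ | 1 ≤ m ∧ m ≤ x ∧ 1 ≤ P.eval (m : ℤ) ∧ ∃ t ∈ E, |h t - G (f (P.eval (m : ℤ)).toNat)| ≤
        (f (P.eval (m : ℤ)).toNat : ℝ) ^ κ}.ncard : ℝ) ≤ x / Real.log x ^ A := by
  have hd1 := hG.one_le
  have hP1 : (1 : ℝ) ≤ P.natDegree := by exact_mod_cast hd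
  have hds : 0 ≤ d * s := by positivity
  obtain ⟨n, hn⟩ : ∃ n : ℝ, n = P.natDegree := ⟨_, rfl⟩
  rw [← hn] at h1 hP1
  obtain ⟨ε, hε⟩ : ∃ ε, ε = (1 - n * (d * s + κ)) / (2 * (n * d)) := ⟨_, rfl⟩
  have hε0 : 0 < ε := by
    rw [hε]
    apply div_pos (by linarith) (by positivity)
  have hεd : n * (d * ε) = (1 - n * (d * s + κ)) / 2 := by
    rw [hε]
    field_simp
  have h2 : n * (d * (s + ε) + κ) < 1 := by
    have : n * (d * (s + ε) + κ) = n * (d * s + κ) + n * (d * ε) := by ring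
    rw [this, hεd]
    linarith
  have hκ1 : κ ≤ 1 := by nlinarith
  obtain ⟨C, hC⟩ := hE ε hε0
  obtain ⟨K, hK⟩ := nearG_count_unif h hG (s := s + ε) (κ := κ) (by linarith) hκ hκ1 C
  obtain ⟨N₀, hN₀⟩ := avoid_poly hf (θ := d * (s + ε) + κ) (by positivity) K hsep hl hd (by rw [← hn]; exact h2) A
  refine ⟨N₀, fun x hx => ?_⟩
  have h3 := hN₀ (NearG E h G κ) (hK E hC) x hx
  refine le_trans (le_of_eq ?_) h3
  congr 1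
  rw [← Set.ncard_coe_finset]
  congr 1
  ext m
  rw [mem_coe, mem_filter, dom, mem_filter, mem_Icc, exc_iff, Set.mem_ofPred_eq]
  tauto

/-- the shifted primes -/
theorem keep_shift {T : Type*} (E : Set T) (h : T → ℝ) {f : ℕ → ℕ} (hf : PM f) {G : ℕ → ℝ} {d : ℝ}
    (hG : Expanding G d) {s κ : ℝ} (hs : 0 ≤ s) (hκ : 0 ≤ κ) (h1 : d * s + κ < 1)
    (hE : ∀ ε : ℝ, 0 < ε → ∃ C : ℝ, ∀ X : ℝ, 1 ≤ X →
      {t | t ∈ E ∧ h t ≤ X}.Finite ∧ ({t | t ∈ E ∧ h t ≤ X}.ncard : ℝ) ≤ C * X ^ (s + ε)) (a : ℤ) (A : ℕ) :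
    ∃ N₀ : ℕ, ∀ x : ℕ, N₀ ≤ x →
      ({p : ℕ | p.Prime ∧ p ≤ x ∧ 1 ≤ (p : ℤ) + a ∧ ∃ t ∈ E, |h t - G (f ((p : ℤ) + a).toNat)| ≤
        (f ((p : ℤ) + a).toNat : ℝ) ^ κ}.ncard : ℝ) ≤ Nat.primeCounting x / Real.log x ^ A := by
  have hd1 := hG.one_le
  have hds : 0 ≤ d * s := by positivity
  obtain ⟨ε, hε⟩ : ∃ ε, ε = (1 - (d * s + κ)) / (2 * d) := ⟨_, rfl⟩
  have hε0 : 0 < ε := by
    rw [hε]
    apply div_pos (by linarith) (by positivity)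
  have hεd : d * ε = (1 - (d * s + κ)) / 2 := by
    rw [hε]
    field_simp
  have h2 : d * (s + ε) + κ < 1 := by
    rw [mul_add, hεd]
    linarith
  obtain ⟨C, hC⟩ := hE ε hε0
  obtain ⟨K, hK⟩ := nearG_count_unif h hG (s := s + ε) (κ := κ) (by linarith) hκ (by linarith) C
  obtain ⟨N₀, hN₀⟩ := avoid_shift hf (θ := d * (s + ε) + κ) (by positivity) h2 K a A
  refine ⟨N₀, fun x hx => ?_⟩
  have h3 := hN₀ (NearG E h G κ) (hK E hC) x hx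
  refine le_trans (le_of_eq ?_) h3
  congr 1
  rw [← Set.ncard_coe_finset]
  congr 1
  ext p
  rw [mem_coe, mem_filter, prs, mem_filter, mem_Icc, exc_iff, Set.mem_ofPred_eq]
  constructor
  · rintro ⟨b1, b2, b3, b4⟩
    exact ⟨⟨⟨b1.one_lt.le, b2⟩, b1, b3⟩, b4⟩
  · rintro ⟨⟨⟨_, b2⟩, b1, b3⟩, b4⟩
    exact ⟨b1, b2, b3, b4⟩

/-- short intervals -/
theorem keep_interval {T : Type*} (E : Set T) (h : T → ℝ) {f : ℕ → ℕ} (hf : PM f) {G : ℕ → ℝ} {d : ℝ}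
    (hG : Expanding G d) {s κ τ : ℝ} (hs : 0 ≤ s) (hκ : 0 ≤ κ) (h1 : d * s + κ < τ) (hτ : τ ≤ 1)
    (hE : ∀ ε : ℝ, 0 < ε → ∃ C : ℝ, ∀ X : ℝ, 1 ≤ X →
      {t | t ∈ E ∧ h t ≤ X}.Finite ∧ ({t | t ∈ E ∧ h t ≤ X}.ncard : ℝ) ≤ C * X ^ (s + ε)) (A : ℕ) :
    ∃ N₀ : ℕ, ∀ x : ℕ, N₀ ≤ x → ∀ y : ℕ, (x : ℝ) ^ τ ≤ y → y ≤ x →
      ({m : ℕ | x < m ∧ m ≤ x + y ∧ ∃ t ∈ E, |h t - G (f m)| ≤ (f m : ℝ) ^ κ}.ncard : ℝ) ≤ y / Real.log x ^ A := by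
  have hd1 := hG.one_le
  have hds : 0 ≤ d * s := by positivity
  obtain ⟨ε, hε⟩ : ∃ ε, ε = (τ - (d * s + κ)) / (2 * d) := ⟨_, rfl⟩
  have hε0 : 0 < ε := by
    rw [hε]
    apply div_pos (by linarith) (by positivity)
  have hεd : d * ε = (τ - (d * s + κ)) / 2 := by
    rw [hε]
    field_simp
  have h2 : d * (s + ε) + κ < τ := by
    rw [mul_add, hεd]
    linarith
  obtain ⟨C, hC⟩ := hE ε hε0
  obtain ⟨K, hK⟩ := nearG_count_unif h hG (s := s + ε) (κ := κ) (by linarith) hκ (by linarith) C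
  obtain ⟨N₀, hN₀⟩ := avoid_interval hf (θ := d * (s + ε) + κ) (by positivity) h2 hτ K A
  refine ⟨N₀, fun x hx y hy hyx => ?_⟩
  have h3 := hN₀ (NearG E h G κ) (hK E hC) x hx y hy hyx
  refine le_trans (le_of_eq ?_) h3
  congr 1
  rw [← Set.ncard_coe_finset]
  congr 1
  ext m
  rw [mem_coe, mem_filter, mem_Ioc, exc_iff, Set.mem_ofPred_eq]
  tauto

/-- the counting hypothesis for a set of natural numbers -/
lemma count_nat (Adm Good : ℕ → Prop) {s : ℝ} (hs : 0 ≤ s)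
    (hP : ∀ ε : ℝ, 0 < ε → ∃ C : ℝ, ∀ X : ℕ, 1 ≤ X →
      ({t : ℕ | 1 ≤ t ∧ t ≤ X ∧ Adm t ∧ ¬ Good t}.ncard : ℝ) ≤ C * (X : ℝ) ^ (s + ε)) :
    ∀ ε : ℝ, 0 < ε → ∃ C : ℝ, ∀ X : ℝ, 1 ≤ X →
      {t : ℕ | t ∈ {t : ℕ | 1 ≤ t ∧ Adm t ∧ ¬ Good t} ∧ (t : ℝ) ≤ X}.Finite ∧
      ({t : ℕ | t ∈ {t : ℕ | 1 ≤ t ∧ Adm t ∧ ¬ Good t} ∧ (t : ℝ) ≤ X}.ncard : ℝ) ≤ C * X ^ (s + ε) := by
  intro ε hε
  obtain ⟨C, hC⟩ := hP ε hε
  refine ⟨|C|, fun X hX => ?_⟩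
  have hX1 : 1 ≤ ⌊X⌋₊ := Nat.le_floor (by exact_mod_cast hX)
  have e : {t : ℕ | t ∈ {t : ℕ | 1 ≤ t ∧ Adm t ∧ ¬ Good t} ∧ (t : ℝ) ≤ X} =
      {t : ℕ | 1 ≤ t ∧ t ≤ ⌊X⌋₊ ∧ Adm t ∧ ¬ Good t} := by
    ext t
    simp only [Set.mem_ofPred_eq]
    rw [Nat.le_floor_iff (by linarith)]
    tauto
  rw [e]
  refine ⟨(Set.finite_Icc 1 ⌊X⌋₊).subset (fun t ht => ⟨ht.1, ht.2.1⟩), ?_⟩
  refine (hC _ hX1).trans ?_
  have h6 : ((⌊X⌋₊ : ℕ) : ℝ) ^ (s + ε) ≤ X ^ (s + ε) :=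
    Real.rpow_le_rpow (Nat.cast_nonneg _) (Nat.floor_le (by linarith)) (by linarith)
  exact (mul_le_mul_of_nonneg_right (le_abs_self _) (by positivity)).trans
    (mul_le_mul_of_nonneg_left h6 (abs_nonneg _))

/-- **The interface for properties of natural numbers.** -/
theorem keep_three (Adm Good : ℕ → Prop) {f : ℕ → ℕ} (hf : PM f) {G : ℕ → ℝ} {d : ℝ}
    (hG : Expanding G d) {s κ : ℝ} (hs : 0 ≤ s) (hκ : 0 ≤ κ)
    (hP : ∀ ε : ℝ, 0 < ε → ∃ C : ℝ, ∀ X : ℕ, 1 ≤ X →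
      ({t : ℕ | 1 ≤ t ∧ t ≤ X ∧ Adm t ∧ ¬ Good t}.ncard : ℝ) ≤ C * (X : ℝ) ^ (s + ε)) (A : ℕ) :
    (∀ P : ℤ[X], (P.map (Int.castRingHom ℚ)).Separable → 0 < P.leadingCoeff → 1 ≤ P.natDegree →
      P.natDegree * (d * s + κ) < 1 → ∃ N₀ : ℕ, ∀ x : ℕ, N₀ ≤ x →
        ({m : ℕ | 1 ≤ m ∧ m ≤ x ∧ 1 ≤ P.eval (m : ℤ) ∧ ¬ ∀ n : ℕ, 1 ≤ n → Adm n →
          |(n : ℝ) - G (f (P.eval (m : ℤ)).toNat)| ≤ (f (P.eval (m : ℤ)).toNat : ℝ) ^ κ → Good n}.ncard : ℝ) ≤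
          x / Real.log x ^ A) ∧
    (d * s + κ < 1 → ∀ a : ℤ, ∃ N₀ : ℕ, ∀ x : ℕ, N₀ ≤ x →
        ({p : ℕ | p.Prime ∧ p ≤ x ∧ 1 ≤ (p : ℤ) + a ∧ ¬ ∀ n : ℕ, 1 ≤ n → Adm n →
          |(n : ℝ) - G (f ((p : ℤ) + a).toNat)| ≤ (f ((p : ℤ) + a).toNat : ℝ) ^ κ → Good n}.ncard : ℝ) ≤
          Nat.primeCounting x / Real.log x ^ A) ∧
    (∀ τ : ℝ, d * s + κ < τ → τ ≤ 1 → ∃ N₀ : ℕ, ∀ x : ℕ, N₀ ≤ x → ∀ y : ℕ, (x : ℝ) ^ τ ≤ y → y ≤ x →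
        ({m : ℕ | x < m ∧ m ≤ x + y ∧ ¬ ∀ n : ℕ, 1 ≤ n → Adm n → |(n : ℝ) - G (f m)| ≤ (f m : ℝ) ^ κ →
          Good n}.ncard : ℝ) ≤ y / Real.log x ^ A) := by
  have hE := count_nat Adm Good hs hP
  have key : ∀ v : ℕ, (¬ ∀ n : ℕ, 1 ≤ n → Adm n → |(n : ℝ) - G v| ≤ (v : ℝ) ^ κ → Good n) ↔
      ∃ t ∈ {t : ℕ | 1 ≤ t ∧ Adm t ∧ ¬ Good t}, |(t : ℝ) - G v| ≤ (v : ℝ) ^ κ := by
    intro v
    push Not
    constructor
    · rintro ⟨n, b1, b2, b3, b4⟩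
      exact ⟨n, ⟨b1, b2, b4⟩, b3⟩
    · rintro ⟨n, ⟨b1, b2, b4⟩, b3⟩
      exact ⟨n, b1, b2, b3, b4⟩
  refine ⟨fun P hsep hl hd h1 => ?_, fun h1 a => ?_, fun τ h1 hτ => ?_⟩
  · obtain ⟨N₀, hN₀⟩ := keep_poly {t : ℕ | 1 ≤ t ∧ Adm t ∧ ¬ Good t} (fun t : ℕ => (t : ℝ)) hf hG hs hκ hE hsep hl hd h1 A
    refine ⟨N₀, fun x hx => le_trans (le_of_eq ?_) (hN₀ x hx)⟩
    congr 2
    ext m
    simp only [Set.mem_ofPred_eq]
    rw [key (f (P.eval (m : ℤ)).toNat)]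
    rfl
  · obtain ⟨N₀, hN₀⟩ := keep_shift {t : ℕ | 1 ≤ t ∧ Adm t ∧ ¬ Good t} (fun t : ℕ => (t : ℝ)) hf hG hs hκ h1 hE a A
    refine ⟨N₀, fun x hx => le_trans (le_of_eq ?_) (hN₀ x hx)⟩
    congr 2
    ext p
    simp only [Set.mem_ofPred_eq]
    rw [key (f ((p : ℤ) + a).toNat)]
    rfl
  · obtain ⟨N₀, hN₀⟩ := keep_interval {t : ℕ | 1 ≤ t ∧ Adm t ∧ ¬ Good t} (fun t : ℕ => (t : ℝ)) hf hG hs hκ h1 hτ hE A
    refine ⟨N₀, fun x hx y hy hyx => le_trans (le_of_eq ?_) (hN₀ x hx y hy hyx)⟩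
    congr 2
    ext m
    simp only [Set.mem_ofPred_eq]
    rw [key (f m)]
    rfl

end Pool.Agent.U405.RS
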