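import Mathlib
import Pool.Agent.U405.RS.E

set_option autoImplicit false

/-! A property at the values of a multiplicative function, for almost all the arguments in three kinds of thin sets
(helper405). -/

namespace Pool.Agent.U405.RS

open Finset Classical Polynomial
open Pool.Agent.N733.TG (Expanding NearG)

/-- The property `Q` holds at `f v` for almost all `v` (a saving of `(log x) ^ A`) in each of the following sets.
* `poly`: the positive values of any integer polynomial `P` of degree `n ≥ 1`, `n e < 1`, with positive leading coefficient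
  and without repeated roots;
* `shift`: the shifted primes `p + a`, if `e < 1`;
* `short`: the intervals `(x, x + y]`, `x ^ τ ≤ y ≤ x`, if `e < τ ≤ 1`. -/
structure Sparse (e : ℝ) (f : ℕ → ℕ) (Q : ℕ → Prop) (A : ℕ) : Prop where
  poly : ∀ P : ℤ[X], (P.map (Int.castRingHom ℚ)).Separable → 0 < P.leadingCoeff → 1 ≤ P.natDegree →
    P.natDegree * e < 1 → ∃ N₀ : ℕ, ∀ x : ℕ, N₀ ≤ x →
      ({m : ℕ | 1 ≤ m ∧ m ≤ x ∧ 1 ≤ P.eval (m : ℤ) ∧ ¬ Q (f (P.eval (m : ℤ)).toNat)}.ncard : ℝ) ≤ x / Real.log x ^ A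
  shift : e < 1 → ∀ a : ℤ, ∃ N₀ : ℕ, ∀ x : ℕ, N₀ ≤ x →
      ({p : ℕ | p.Prime ∧ p ≤ x ∧ 1 ≤ (p : ℤ) + a ∧ ¬ Q (f ((p : ℤ) + a).toNat)}.ncard : ℝ) ≤
        Nat.primeCounting x / Real.log x ^ A
  short : ∀ τ : ℝ, e < τ → τ ≤ 1 → ∃ N₀ : ℕ, ∀ x : ℕ, N₀ ≤ x → ∀ y : ℕ, (x : ℝ) ^ τ ≤ y → y ≤ x →
      ({m : ℕ | x < m ∧ m ≤ x + y ∧ ¬ Q (f m)}.ncard : ℝ) ≤ y / Real.log x ^ A

/-- **The interface.** If `E` has `O_ε (X ^ (s + ε))` elements of height at most `X`, and every `v ≥ 1` without the property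
`Q` has an element of `E` with a height within `v ^ κ` of `G v`, `G` expanding of growth `d`, then `Q` holds at `f v` for
almost all `v` in the sets of `Sparse (d s + κ)`. -/
theorem sparse_of {T : Type*} (E : Set T) (h : T → ℝ) {f : ℕ → ℕ} (hf : PM f) {G : ℕ → ℝ} {d : ℝ}
    (hG : Expanding G d) {s κ : ℝ} (hs : 0 ≤ s) (hκ : 0 ≤ κ)
    (hE : ∀ ε : ℝ, 0 < ε → ∃ C : ℝ, ∀ X : ℝ, 1 ≤ X →
      {t | t ∈ E ∧ h t ≤ X}.Finite ∧ ({t | t ∈ E ∧ h t ≤ X}.ncard : ℝ) ≤ C * X ^ (s + ε)) (Q : ℕ → Prop)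
    (hQ : ∀ v : ℕ, 1 ≤ v → ¬ Q v → ∃ t ∈ E, |h t - G v| ≤ (v : ℝ) ^ κ) (A : ℕ) : Sparse (d * s + κ) f Q A where
  poly := fun P hsep hl hd h1 => by
    obtain ⟨N₀, hN₀⟩ := keep_poly E h hf hG hs hκ hE hsep hl hd h1 A
    refine ⟨N₀, fun x hx => le_trans (Nat.cast_le.2 (Set.ncard_le_ncard ?_ ?_)) (hN₀ x hx)⟩
    · rintro m ⟨b1, b2, b3, b4⟩
      exact ⟨b1, b2, b3, hQ _ (hf.pos _ (by omega)) b4⟩
    · exact (Set.finite_Icc 1 x).subset (fun m hm => ⟨hm.1, hm.2.1⟩)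
  shift := fun h1 a => by
    obtain ⟨N₀, hN₀⟩ := keep_shift E h hf hG hs hκ h1 hE a A
    refine ⟨N₀, fun x hx => le_trans (Nat.cast_le.2 (Set.ncard_le_ncard ?_ ?_)) (hN₀ x hx)⟩
    · rintro p ⟨b1, b2, b3, b4⟩
      exact ⟨b1, b2, b3, hQ _ (hf.pos _ (by omega)) b4⟩
    · exact (Set.finite_Icc 0 x).subset (fun m hm => ⟨Nat.zero_le _, hm.2.1⟩)
  short := fun τ h1 hτ => by
    obtain ⟨N₀, hN₀⟩ := keep_interval E h hf hG hs hκ h1 hτ hE A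
    refine ⟨N₀, fun x hx y hy hyx => le_trans (Nat.cast_le.2 (Set.ncard_le_ncard ?_ ?_)) (hN₀ x hx y hy hyx)⟩
    · rintro m ⟨b1, b2, b3⟩
      exact ⟨b1, b2, hQ _ (hf.pos _ (by omega)) b3⟩
    · exact (Set.finite_Icc x (x + y)).subset (fun m hm => ⟨hm.1.le, hm.2.1⟩)

/-- **The interface for the natural numbers.** -/
theorem sparse_nat (Adm Good : ℕ → Prop) {f : ℕ → ℕ} (hf : PM f) {G : ℕ → ℝ} {d : ℝ}
    (hG : Expanding G d) {s κ : ℝ} (hs : 0 ≤ s) (hκ : 0 ≤ κ)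
    (hP : ∀ ε : ℝ, 0 < ε → ∃ C : ℝ, ∀ X : ℕ, 1 ≤ X →
      ({t : ℕ | 1 ≤ t ∧ t ≤ X ∧ Adm t ∧ ¬ Good t}.ncard : ℝ) ≤ C * (X : ℝ) ^ (s + ε)) (A : ℕ) :
    Sparse (d * s + κ) f (fun v => ∀ n : ℕ, 1 ≤ n → Adm n → |(n : ℝ) - G v| ≤ (v : ℝ) ^ κ → Good n) A := by
  apply sparse_of {t : ℕ | 1 ≤ t ∧ Adm t ∧ ¬ Good t} (fun t : ℕ => (t : ℝ)) hf hG hs hκ (count_nat Adm Good hs hP)
  intro v _ hv
  push Not at hv
  obtain ⟨n, b1, b2, b3, b4⟩ := hv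
  exact ⟨n, ⟨b1, b2, b4⟩, b3⟩

/-- monotonicity in the property -/
theorem Sparse.imp {e : ℝ} {f : ℕ → ℕ} {Q Q' : ℕ → Prop} {A : ℕ} (h : Sparse e f Q A) (hQ : ∀ v, Q v → Q' v) :
    Sparse e f Q' A where
  poly := fun P hsep hl hd h1 => by
    obtain ⟨N₀, hN₀⟩ := h.poly P hsep hl hd h1
    refine ⟨N₀, fun x hx => le_trans (Nat.cast_le.2 (Set.ncard_le_ncard ?_ ?_)) (hN₀ x hx)⟩
    · rintro m ⟨b1, b2, b3, b4⟩
      exact ⟨b1, b2, b3, fun hc => b4 (hQ _ hc)⟩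
    · exact (Set.finite_Icc 1 x).subset (fun m hm => ⟨hm.1, hm.2.1⟩)
  shift := fun h1 a => by
    obtain ⟨N₀, hN₀⟩ := h.shift h1 a
    refine ⟨N₀, fun x hx => le_trans (Nat.cast_le.2 (Set.ncard_le_ncard ?_ ?_)) (hN₀ x hx)⟩
    · rintro p ⟨b1, b2, b3, b4⟩
      exact ⟨b1, b2, b3, fun hc => b4 (hQ _ hc)⟩
    · exact (Set.finite_Icc 0 x).subset (fun m hm => ⟨Nat.zero_le _, hm.2.1⟩)
  short := fun τ h1 hτ => by
    obtain ⟨N₀, hN₀⟩ := h.short τ h1 hτ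
    refine ⟨N₀, fun x hx y hy hyx => le_trans (Nat.cast_le.2 (Set.ncard_le_ncard ?_ ?_)) (hN₀ x hx y hy hyx)⟩
    · rintro m ⟨b1, b2, b3⟩
      exact ⟨b1, b2, fun hc => b3 (hQ _ hc)⟩
    · exact (Set.finite_Icc x (x + y)).subset (fun m hm => ⟨hm.1.le, hm.2.1⟩)

/-- a larger exponent is a weaker statement -/
theorem Sparse.mono {e e' : ℝ} {f : ℕ → ℕ} {Q : ℕ → Prop} {A : ℕ} (h : Sparse e f Q A) (he : e ≤ e') :
    Sparse e' f Q A where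
  poly := fun P hsep hl hd h1 => h.poly P hsep hl hd (lt_of_le_of_lt (mul_le_mul_of_nonneg_left he (by positivity)) h1)
  shift := fun h1 a => h.shift (by linarith) a
  short := fun τ h1 hτ => h.short τ (by linarith) hτ

/-- the examples: Euler's function, the sum of the divisors, the identity -/
theorem examples : PM Nat.totient ∧ PM (fun m => ∑ d ∈ m.divisors, d) ∧ PM (fun m => m) :=
  ⟨pm_totient, pm_sigma, pm_id⟩

end Pool.Agent.U405.RS
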