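import Mathlib
import Pool.Agent.U405.RS.F

set_option autoImplicit false

/-! Variants of the interface (helper405). -/

namespace Pool.Agent.U405.RS

open Finset Classical Polynomial
open Pool.Agent.N733.TG (Expanding)

/-- **The interface for a property of objects with a height.** -/
theorem sparse_good {T : Type*} (Adm Good : T → Prop) (h : T → ℝ) {f : ℕ → ℕ} (hf : PM f) {G : ℕ → ℝ} {d : ℝ}
    (hG : Expanding G d) {s κ : ℝ} (hs : 0 ≤ s) (hκ : 0 ≤ κ)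
    (hS : ∀ ε : ℝ, 0 < ε → ∃ C : ℝ, ∀ X : ℝ, 1 ≤ X →
      {t | (Adm t ∧ ¬ Good t) ∧ h t ≤ X}.Finite ∧ ({t | (Adm t ∧ ¬ Good t) ∧ h t ≤ X}.ncard : ℝ) ≤ C * X ^ (s + ε)) (A : ℕ) :
    Sparse (d * s + κ) f (fun v => ∀ t, Adm t → |h t - G v| ≤ (v : ℝ) ^ κ → Good t) A := by
  apply sparse_of {t | Adm t ∧ ¬ Good t} h hf hG hs hκ hS
  intro v _ hv
  push Not at hv
  obtain ⟨t, b1, b2, b3⟩ := hv
  exact ⟨t, ⟨b1, b3⟩, b2⟩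

/-- the same for a set of exceptions -/
theorem sparse_set {T : Type*} (E : Set T) (h : T → ℝ) {f : ℕ → ℕ} (hf : PM f) {G : ℕ → ℝ} {d : ℝ}
    (hG : Expanding G d) {s κ : ℝ} (hs : 0 ≤ s) (hκ : 0 ≤ κ)
    (hS : ∀ ε : ℝ, 0 < ε → ∃ C : ℝ, ∀ X : ℝ, 1 ≤ X →
      {t | t ∈ E ∧ h t ≤ X}.Finite ∧ ({t | t ∈ E ∧ h t ≤ X}.ncard : ℝ) ≤ C * X ^ (s + ε)) (A : ℕ) :
    Sparse (d * s + κ) f (fun v => ∀ t ∈ E, ¬ |h t - G v| ≤ (v : ℝ) ^ κ) A := by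
  apply sparse_of E h hf hG hs hκ hS
  intro v _ hv
  push Not at hv
  obtain ⟨t, b1, b2⟩ := hv
  exact ⟨t, b1, b2⟩

/-- the same with an equality of exponents and any weaker property -/
theorem sparse_set' {T : Type*} (E : Set T) (h : T → ℝ) {f : ℕ → ℕ} (hf : PM f) {G : ℕ → ℝ} {d : ℝ}
    (hG : Expanding G d) {s κ e : ℝ} (hs : 0 ≤ s) (hκ : 0 ≤ κ) (he : d * s + κ = e)
    (hS : ∀ ε : ℝ, 0 < ε → ∃ C : ℝ, ∀ X : ℝ, 1 ≤ X →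
      {t | t ∈ E ∧ h t ≤ X}.Finite ∧ ({t | t ∈ E ∧ h t ≤ X}.ncard : ℝ) ≤ C * X ^ (s + ε)) (Q : ℕ → Prop) (A : ℕ)
    (hQ : ∀ v : ℕ, (∀ t ∈ E, ¬ |h t - G v| ≤ (v : ℝ) ^ κ) → Q v) : Sparse e f Q A := by
  rw [← he]
  exact (sparse_set E h hf hG hs hκ hS A).imp hQ

end Pool.Agent.U405.RS
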