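import Mathlib
import Pool.Agent.U405.RS.F2

set_option autoImplicit false

/-! More variants of the interface (helper405). -/

namespace Pool.Agent.U405.RS

open Finset Classical Polynomial
open Pool.Agent.N733.TG (Expanding)

/-- **The interface for a set of natural numbers**, counted by a filter. -/
theorem sparse_win (V : Set ℕ) {f : ℕ → ℕ} (hf : PM f) {G : ℕ → ℝ} {d : ℝ}
    (hG : Expanding G d) {s κ : ℝ} (hs : 0 ≤ s) (hκ : 0 ≤ κ)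
    (hP : ∀ ε : ℝ, 0 < ε → ∃ C : ℝ, ∀ X : ℕ, 1 ≤ X →
      (((Ioc 0 X).filter (fun t => t ∈ V)).card : ℝ) ≤ C * (X : ℝ) ^ (s + ε)) (A : ℕ) :
    Sparse (d * s + κ) f (fun v => ∀ n : ℕ, 1 ≤ n → n ∈ V → ¬ |(n : ℝ) - G v| ≤ (v : ℝ) ^ κ) A := by
  refine (sparse_nat (fun n => n ∈ V) (fun _ => False) hf hG hs hκ (fun ε hε => ?_) A).imp
    (fun v hv n h1 h2 h3 => hv n h1 h2 h3)
  obtain ⟨C, hC⟩ := hP ε hε
  refine ⟨C, fun X hX => le_trans (le_of_eq ?_) (hC X hX)⟩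
  rw [← Set.ncard_coe_finset]
  congr 2
  ext t
  simp only [Set.mem_ofPred_eq, coe_filter, mem_Ioc, not_false_eq_true, and_true]
  constructor
  · rintro ⟨h1, h2, h3⟩
    exact ⟨⟨by omega, h2⟩, h3⟩
  · rintro ⟨⟨h1, h2⟩, h3⟩
    exact ⟨by omega, h2, h3⟩

/-- **The interface for the nonzero integers.** -/
theorem sparse_int (Good : ℤ → Prop) {f : ℕ → ℕ} (hf : PM f) {G : ℕ → ℝ} {d : ℝ}
    (hG : Expanding G d) {s κ : ℝ} (hs : 0 ≤ s) (hκ : 0 ≤ κ)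
    (hP : ∀ ε : ℝ, 0 < ε → ∃ C : ℝ, ∀ X : ℕ, 1 ≤ X →
      ({b : ℤ | b ≠ 0 ∧ |b| ≤ (X : ℤ) ∧ ¬ Good b}.ncard : ℝ) ≤ C * (X : ℝ) ^ (s + ε)) (A : ℕ) :
    Sparse (d * s + κ) f (fun v => ∀ b : ℤ, b ≠ 0 → |(|b| : ℝ) - G v| ≤ (v : ℝ) ^ κ → Good b) A := by
  refine sparse_good (fun b : ℤ => b ≠ 0) Good (fun b : ℤ => |(b : ℝ)|) hf hG hs hκ (fun ε hε => ?_) A
  obtain ⟨C, hC⟩ := hP ε hε
  refine ⟨max C 0, fun X hX => ?_⟩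
  obtain ⟨M, hM⟩ : ∃ M : ℕ, M = ⌊X⌋₊ := ⟨_, rfl⟩
  have hM1 : 1 ≤ M := by
    rw [hM]
    exact Nat.le_floor (by simpa using hX)
  have hMX : (M : ℝ) ≤ X := by
    rw [hM]
    exact Nat.floor_le (by linarith)
  have hle : ∀ b : ℤ, |(b : ℝ)| ≤ X → |b| ≤ (M : ℤ) := by
    intro b hb
    rw [Int.abs_eq_natAbs]
    have h1 : ((b.natAbs : ℕ) : ℝ) ≤ X := by
      rw [Nat.cast_natAbs, Int.cast_abs]
      exact hb
    have h2 : b.natAbs ≤ M := by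
      rw [hM]
      exact Nat.le_floor h1
    exact_mod_cast h2
  have hfin : {b : ℤ | b ≠ 0 ∧ |b| ≤ (M : ℤ) ∧ ¬ Good b}.Finite :=
    (Set.finite_Icc (-(M : ℤ)) M).subset (fun b hb => abs_le.1 hb.2.1)
  have hsub : {t : ℤ | (t ≠ 0 ∧ ¬ Good t) ∧ |(t : ℝ)| ≤ X} ⊆ {b : ℤ | b ≠ 0 ∧ |b| ≤ (M : ℤ) ∧ ¬ Good b} := by
    rintro t ⟨⟨h1, h2⟩, h3⟩
    exact ⟨h1, hle t h3, h2⟩
  refine ⟨hfin.subset hsub, ?_⟩
  have h1 : (({t : ℤ | (t ≠ 0 ∧ ¬ Good t) ∧ |(t : ℝ)| ≤ X}.ncard : ℕ) : ℝ) ≤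
      ({b : ℤ | b ≠ 0 ∧ |b| ≤ (M : ℤ) ∧ ¬ Good b}.ncard : ℝ) := by
    exact_mod_cast Set.ncard_le_ncard hsub hfin
  have hM1' : (1 : ℝ) ≤ M := by exact_mod_cast hM1
  by_cases hse : 0 ≤ s + ε
  · calc _ ≤ _ := h1
      _ ≤ C * (M : ℝ) ^ (s + ε) := hC M hM1
      _ ≤ max C 0 * (M : ℝ) ^ (s + ε) := mul_le_mul_of_nonneg_right (le_max_left _ _) (by positivity)
      _ ≤ max C 0 * X ^ (s + ε) := mul_le_mul_of_nonneg_left (Real.rpow_le_rpow (by linarith) hMX hse) (le_max_right _ _)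
  · exact absurd (by linarith) hse

/-- the counting hypothesis for a bound without `ε` -/
theorem weaken {N : ℕ → ℝ} {s : ℝ} (h : ∃ C : ℝ, ∀ X : ℕ, 1 ≤ X → N X ≤ C * (X : ℝ) ^ s) :
    ∀ ε : ℝ, 0 < ε → ∃ C : ℝ, ∀ X : ℕ, 1 ≤ X → N X ≤ C * (X : ℝ) ^ (s + ε) := by
  intro ε hε
  obtain ⟨C, hC⟩ := h
  refine ⟨max C 0, fun X hX => (hC X hX).trans ?_⟩
  have hX1 : (1 : ℝ) ≤ X := by exact_mod_cast hX
  calc C * (X : ℝ) ^ s ≤ max C 0 * (X : ℝ) ^ s := mul_le_mul_of_nonneg_right (le_max_left _ _) (by positivity)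
    _ ≤ max C 0 * (X : ℝ) ^ (s + ε) := mul_le_mul_of_nonneg_left
        (Real.rpow_le_rpow_of_exponent_le hX1 (by linarith)) (le_max_right _ _)

end Pool.Agent.U405.RS
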