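import Mathlib
import Pool.Agent.U405.RS.E

set_option autoImplicit false

/-! Tuples of elements of regular sets (helper405): the typical part. -/

namespace Pool.Agent.U405.RS

open Finset Classical
open Pool.Agent.N733.TG (sp rp sp_mul_rp sp_pos rp_pos le_of_dvd_sp lt_of_dvd_rp coprime_sp_rp Rough)

/-- **The typical part.** Let `S` be a set of integers up to `N` with at most `B g^ω(k) |S| / k` multiples of `k` for every
`k ≤ N^δ`. Then most of the elements `m` of `S` are in a subset on which `f(m) ≤ N^(1 + δ)` and `f` takes every value at most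
`N^δ` times. -/
theorem typical {f : ℕ → ℕ} (hf : PM f) {δ : ℝ} (hδ0 : 0 < δ) (hδ1 : δ ≤ 1) (B : ℝ)
    (g A : ℕ) : ∃ N₀ : ℕ, ∀ N : ℕ, N₀ ≤ N →
      ∀ S : Finset ℕ, (∀ m ∈ S, 1 ≤ m ∧ m ≤ N) →
      (∀ k : ℕ, 1 ≤ k → (k : ℝ) ≤ (N : ℝ) ^ δ → ((S.filter (fun m => k ∣ m)).card : ℝ) ≤
        B * (g : ℝ) ^ k.primeFactors.card * S.card / k) →
      ∃ T ⊆ S, ((S \ T).card : ℝ) ≤ S.card / (Real.log N) ^ A ∧ (∀ m ∈ T, ((f m : ℕ) : ℝ) ≤ (N : ℝ) ^ (1 + δ)) ∧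
        ∀ n : ℕ, ((T.filter (fun m => f m = n)).card : ℝ) ≤ (N : ℝ) ^ δ := by
  obtain ⟨Cg, D, hgrow⟩ := hf.growth
  obtain ⟨P, M, hP0⟩ := hf.prime
  obtain ⟨CR, hCR, hlarge⟩ := few_large g
  obtain ⟨R0, hR0, hdiv⟩ := div_bound
  have hP : ∀ p : ℕ, P ≤ p → p.Prime → ∀ a : ℕ, 1 ≤ a → f (p ^ a) ≤ (M + 1) * p ^ a ∧
      ∀ q : ℕ, P ≤ q → q.Prime → f (q ^ a) = f (p ^ a) → q = p := by
    intro p hp hpp a ha
    obtain ⟨h1, h2⟩ := hP0 p hp hpp a ha
    refine ⟨h1.trans (Nat.mul_le_mul_right _ (Nat.le_succ M)), h2⟩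
  obtain ⟨η, hη⟩ : ∃ η : ℝ, η = δ / (8 * (D + 1)) := ⟨_, rfl⟩
  obtain ⟨ε, hε⟩ : ∃ ε : ℝ, ε = δ / 256 := ⟨_, rfl⟩
  have hη0 : 0 < η := by rw [hη]; positivity
  have hε0 : 0 < ε := by rw [hε]; positivity
  have hε1 : ε ≤ 1 := by rw [hε]; linarith
  have hηδ : η ≤ δ / 8 := by
    rw [hη]
    apply div_le_div_of_nonneg_left hδ0.le (by norm_num)
    have : (0 : ℝ) ≤ D := by positivity
    linarith
  have hηD : D * η ≤ δ / 8 := aux3 hη (by positivity) hδ0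
  obtain ⟨C', hC'⟩ : ∃ C' : ℝ, C' = (g + A + 1) / (η * ε) := ⟨_, rfl⟩
  have hC'0 : 0 ≤ C' := by rw [hC']; positivity
  have hCe : C' * (η * ε) = g + A + 1 := by rw [hC']; field_simp
  obtain ⟨K₁, hK₁⟩ : ∃ K₁ : ℝ, K₁ = CR * Real.exp (4 * Real.exp C' * (C' + CR)) := ⟨_, rfl⟩
  have hK₁0 : 0 ≤ K₁ := by rw [hK₁]; positivity
  obtain ⟨R, hR⟩ : ∃ R : ℝ, R = 4 * C' + (P + 2) + 8 * (Cg + M + 2) / δ + R0 + 64 / δ + 2 * (2 * 1 + A) / δ +
    2 * |B| * Real.exp C' * K₁ ^ g := ⟨_, rfl⟩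
  have r1 : (0 : ℝ) ≤ 4 * C' := by positivity
  have r2 : (0 : ℝ) ≤ (P : ℝ) + 2 := by positivity
  have r3 : (0 : ℝ) ≤ 8 * (Cg + M + 2) / δ := by positivity
  have r4 : (0 : ℝ) ≤ 64 / δ := by positivity
  have r5 : (0 : ℝ) ≤ 2 * (2 * 1 + A) / δ := by positivity
  have r6 : (0 : ℝ) ≤ 2 * |B| * Real.exp C' * K₁ ^ g := by positivity
  obtain ⟨N₀, hN₀⟩ := large R
  refine ⟨max N₀ 3, fun N hN S hS hreg => ?_⟩
  obtain ⟨a1, a2⟩ := hN₀ N (le_of_max_le_left hN)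
  have hN3 : 3 ≤ N := le_of_max_le_right hN
  obtain ⟨L, hL⟩ : ∃ L, L = Real.log (N : ℝ) := ⟨_, rfl⟩
  rw [← hL] at a1 a2 ⊢
  obtain ⟨l, hl⟩ : ∃ l, l = Real.log L := ⟨_, rfl⟩
  rw [← hl] at a1 a2
  have hc : ∀ c : ℝ, c ≤ R → c * (l + 1) ^ 2 ≤ L := fun c hcR =>
    (mul_le_mul_of_nonneg_right hcR (by positivity)).trans a2
  have hc1 : ∀ c : ℝ, 0 ≤ c → c ≤ R → c * (l + 1) ≤ L := fun c hc0 hcR => (aux1 hc0 a1 (hc c hcR)).1
  have hc2 : ∀ c : ℝ, 0 ≤ c → c ≤ R → c ≤ L := fun c hc0 hcR => (aux1 hc0 a1 (hc c hcR)).2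
  have hR2 : (2 : ℝ) ≤ R := by
    rw [hR]
    have : (0 : ℝ) ≤ P := by positivity
    linarith
  have hL1 : 1 ≤ L := by
    have := hc2 2 (by norm_num) hR2
    linarith
  have hL0 : 0 < L := by linarith
  have hNr : (0 : ℝ) < N := by exact_mod_cast (by omega : 0 < N)
  have hNe : (N : ℝ) = Real.exp L := by rw [hL, Real.exp_log hNr]
  obtain ⟨J, hJ⟩ : ∃ J : ℕ, J = ⌊ε * l⌋₊ := ⟨_, rfl⟩
  have hl0 : 0 < l := by linarith
  have hJ1 : (J : ℝ) ≤ ε * l := by rw [hJ]; exact Nat.floor_le (by positivity)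
  have hJ2 : ε * l < J + 1 := by rw [hJ]; exact Nat.lt_floor_add_one _
  have hJl : (J : ℝ) ≤ l := hJ1.trans (by simpa using mul_le_mul_of_nonneg_right hε1 hl0.le)
  have hJ0 : (0 : ℝ) ≤ J := by positivity
  obtain ⟨z, hz⟩ : ∃ z : ℕ, z = ⌊Real.exp (L / (J + 1))⌋₊ := ⟨_, rfl⟩
  have hz1 : (z : ℝ) ≤ Real.exp (L / (J + 1)) := by rw [hz]; exact Nat.floor_le (Real.exp_pos _).le
  have hz2 : Real.exp (L / (J + 1)) < z + 1 := by rw [hz]; exact Nat.lt_floor_add_one _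
  have hJ1p : (0 : ℝ) < J + 1 := by linarith
  have hzP : P + 2 ≤ z := by
    have h1 : ((P : ℝ) + 2) * (l + 1) ≤ L := hc1 _ r2 (by rw [hR]; linarith)
    have h2 : (P : ℝ) + 2 ≤ L / (J + 1) := by
      rw [le_div_iff₀ hJ1p]
      exact (mul_le_mul_of_nonneg_left (by linarith) r2).trans h1
    have h4 := Real.add_one_le_exp (L / (J + 1))
    have h5 : (P : ℝ) + 2 < z + 1 := by linarith
    have h6 : P + 2 < z + 1 := by exact_mod_cast h5
    omega
  have hNz : N < (z + 1) ^ (J + 1) := by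
    have h1 : (N : ℝ) = Real.exp (L / (J + 1)) ^ (J + 1) := by
      rw [hNe, ← Real.exp_nat_mul]
      congr 1
      push_cast
      exact aux8 hJ1p
    have h2 : Real.exp (L / (J + 1)) ^ (J + 1) < ((z : ℝ) + 1) ^ (J + 1) :=
      pow_lt_pow_left₀ hz2 (Real.exp_pos _).le (by omega)
    rw [← h1] at h2
    exact_mod_cast h2
  obtain ⟨β, hβ⟩ : ∃ β : ℝ, β = C' * (J + 1) / L := ⟨_, rfl⟩
  have hβ0 : 0 ≤ β := by rw [hβ]; positivity
  have hβ1 : β ≤ 1 / 4 := by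
    rw [hβ, div_le_iff₀ hL0]
    have h1 : (4 * C') * (l + 1) ≤ L := hc1 _ r1 (by rw [hR]; linarith)
    have h2 : C' * (J + 1) ≤ C' * (l + 1) := mul_le_mul_of_nonneg_left (by linarith) hC'0
    linarith
  obtain ⟨Y, hY⟩ : ∃ Y : ℝ, Y = Real.exp (η * L) := ⟨_, rfl⟩
  have hY1 : 1 ≤ Y := by rw [hY]; exact Real.one_le_exp (by positivity)
  -- large smooth part
  have S1 := hlarge β |B| z Y S hβ0 hβ1 (by omega) hY1 (abs_nonneg B) (fun m hm => (hS m hm).1) (by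
    intro k hk hkY
    have h1 : (k : ℝ) ≤ (N : ℝ) ^ δ := by
      refine hkY.trans ?_
      rw [hY, hNe, ← Real.exp_mul]
      exact Real.exp_le_exp.2 (aux2 hηδ hδ0 hL0)
    exact (hreg k hk h1).trans (aux10 (pow_nonneg (Nat.cast_nonneg _) _) (Nat.cast_nonneg _) (Nat.cast_nonneg _)))
  rw [hY] at S1
  have S2 : ((S.filter (fun m => Y < (sp z m : ℝ))).card : ℝ) ≤ S.card * (1 / (2 * L ^ A)) := by
    rw [hY]
    have h1 := num1 (B := |B|) (C' := C') (K₁ := K₁) (CR := CR) (η := η) (ε := ε) (L := L) (l := l) (zr := z) (β := β)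
      (J := J) (g := g) (A := A) (abs_nonneg B) hC'0 hCR hK₁ hη0 hε0 hCe hl.symm hL1 hJ0 hJ2.le hβ hβ1
      (by exact_mod_cast (by omega : 2 ≤ z)) hz1 (hc2 (2 * |B| * Real.exp C' * K₁ ^ g) r6 (by rw [hR]; linarith))
    calc _ ≤ _ := S1
      _ = S.card * (|B| * (Real.exp (η * L) / z) ^ (-β) *
          (CR * Real.log z * Real.exp (4 * β * (z : ℝ) ^ β * (Real.log z + CR))) ^ g) := by ring
      _ ≤ _ := mul_le_mul_of_nonneg_left h1 (Nat.cast_nonneg _)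
  obtain ⟨X, hX⟩ : ∃ X : ℕ, X = ⌊Real.exp ((1 + δ / 4) * L)⌋₊ := ⟨_, rfl⟩
  have hX1 : (X : ℝ) ≤ Real.exp ((1 + δ / 4) * L) := by rw [hX]; exact Nat.floor_le (Real.exp_pos _).le
  have hXpos : 1 ≤ X := by
    rw [hX]
    exact Nat.le_floor (by push_cast; exact Real.one_le_exp (by positivity))
  have hXN : (X : ℝ) ≤ (N : ℝ) ^ (1 + δ) := by
    refine hX1.trans ?_
    rw [hNe, ← Real.exp_mul]
    apply Real.exp_le_exp.2
    nlinarith
  obtain ⟨Dd, hDd⟩ : ∃ Dd : ℕ, Dd = ⌊Real.exp (16 * L / l)⌋₊ := ⟨_, rfl⟩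
  have hDd1 : (Dd : ℝ) ≤ Real.exp (16 * L / l) := by rw [hDd]; exact Nat.floor_le (Real.exp_pos _).le
  have hsize : ∀ k : ℕ, 1 ≤ k → k ≤ ⌊Y⌋₊ → ∀ u : ℕ, 1 ≤ u → u ≤ N → Rough z u → f k * f u ≤ X := by
    intro k hk hkK u hu huN hur
    rw [hX]
    apply Nat.le_floor
    have h1 : ((f k : ℕ) : ℝ) ≤ Cg * Real.exp (δ / 8 * L) := by
      have h2 : ((f k : ℕ) : ℝ) ≤ Cg * (k : ℝ) ^ D := by exact_mod_cast hgrow k hk
      refine h2.trans (mul_le_mul_of_nonneg_left ?_ (by positivity))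
      have h3 : (k : ℝ) ≤ Real.exp (η * L) := by
        rw [← hY]
        exact (Nat.cast_le.2 hkK).trans (Nat.floor_le (by linarith))
      refine (pow_le_pow_left₀ (by positivity) h3 D).trans ?_
      rw [← Real.exp_nat_mul]
      apply Real.exp_le_exp.2
      have := mul_le_mul_of_nonneg_right hηD hL0.le
      linarith
    have h4 : ((f u : ℕ) : ℝ) ≤ Real.exp ((M + 1) * l) * Real.exp L := by
      have h5 := size hf (P := P) (M := M + 1) (by omega) (fun p hp hpp a ha => (hP p hp hpp a ha).1)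
        (z := z) (J := J) (N := N) (u := u) (by omega) hNz hu huN hur
      have h6 : ((f u : ℕ) : ℝ) ≤ ((M : ℝ) + 1) ^ J * u := by exact_mod_cast h5
      refine h6.trans ?_
      have h7 : ((M : ℝ) + 1) ^ J ≤ Real.exp ((M + 1) * l) := by
        have h8 : (M : ℝ) + 1 ≤ Real.exp ((M : ℝ) + 1) := by
          have := Real.add_one_le_exp ((M : ℝ) + 1); linarith
        refine (pow_le_pow_left₀ (by positivity) h8 J).trans ?_
        rw [← Real.exp_nat_mul]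
        apply Real.exp_le_exp.2
        have : (J : ℝ) * (M + 1) ≤ l * (M + 1) := mul_le_mul_of_nonneg_right hJl (by positivity)
        linarith
      have h9 : (u : ℝ) ≤ Real.exp L := by
        rw [← hNe]
        exact_mod_cast huN
      gcongr
    rw [Nat.cast_mul]
    calc ((f k : ℕ) : ℝ) * (f u : ℕ) ≤ (Cg * Real.exp (δ / 8 * L)) * (Real.exp ((M + 1) * l) * Real.exp L) := by gcongr
      _ ≤ (Real.exp Cg * Real.exp (δ / 8 * L)) * (Real.exp ((M + 1) * l) * Real.exp L) := by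
          have : (Cg : ℝ) ≤ Real.exp Cg := by
            have := Real.add_one_le_exp (Cg : ℝ); linarith
          gcongr
      _ = Real.exp ((Cg + δ / 8 * L) + ((M + 1) * l + L)) := by
          rw [Real.exp_add, Real.exp_add, Real.exp_add]
      _ ≤ Real.exp ((1 + δ / 4) * L) := by
          apply Real.exp_le_exp.2
          have h5 : (Cg : ℝ) + (M + 1) * l ≤ δ / 8 * L :=
            aux5 (by positivity) (by positivity) hδ0 a1 (hc1 _ r3 (by rw [hR]; linarith))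
          linarith
  have hdivs : ∀ v : ℕ, 1 ≤ v → v ≤ X → v.divisors.card ≤ Dd := by
    intro v hv hvX
    rw [hDd]
    apply Nat.le_floor
    rw [hl]
    apply hdiv L (by rw [← hl]; exact a1) (by rw [← hl]; exact hc _ (by rw [hR]; linarith)) v hv
    exact (Nat.cast_le.2 hvX).trans (hX1.trans (Real.exp_le_exp.2 (aux4 hδ1 hL0)))
  refine ⟨S.filter (fun m => sp z m ≤ ⌊Y⌋₊), filter_subset _ _, ?_, ?_, ?_⟩
  · have h1 : S \ S.filter (fun m => sp z m ≤ ⌊Y⌋₊) ⊆ S.filter (fun m => Y < (sp z m : ℝ)) := by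
      intro m hm
      rw [mem_sdiff, mem_filter] at hm
      rw [mem_filter]
      refine ⟨hm.1, ?_⟩
      by_contra hcon
      exact hm.2 ⟨hm.1, Nat.le_floor (not_lt.1 hcon)⟩
    have h2 : ((S \ S.filter (fun m => sp z m ≤ ⌊Y⌋₊)).card : ℝ) ≤ ((S.filter (fun m => Y < (sp z m : ℝ))).card : ℝ) :=
      Nat.cast_le.2 (card_le_card h1)
    refine h2.trans (S2.trans ?_)
    have h3 : 0 < L ^ A := by positivity
    calc (S.card : ℝ) * (1 / (2 * L ^ A)) ≤ S.card * (1 / L ^ A) :=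
          mul_le_mul_of_nonneg_left (one_div_le_one_div_of_le h3 (by linarith)) (Nat.cast_nonneg _)
      _ = S.card / L ^ A := by rw [mul_one_div]
  · intro m hm
    rw [mem_filter] at hm
    obtain ⟨hm1, hmN⟩ := hS m hm.1
    have hmul := sp_mul_rp z m (by omega)
    have hk1 := sp_pos z m
    have hu1 := rp_pos z m
    have hrp : rp z m ≤ N := by
      have : rp z m ≤ m := Nat.le_of_dvd (by omega) ⟨sp z m, by rw [mul_comm, hmul]⟩
      omega
    have h1 := hsize (sp z m) hk1 hm.2 (rp z m) hu1 hrp (fun p hp hd => lt_of_dvd_rp hp hd)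
    rw [← hf.mul _ _ (coprime_sp_rp z m), hmul] at h1
    exact (Nat.cast_le.2 h1).trans hXN
  · intro n
    obtain ⟨W, hW⟩ : ∃ W : Set ℕ, W = {n} := ⟨_, rfl⟩
    have S3 := second_part hf hP (z := z) (J := J) (N := N) (X := X) (D := Dd) (K := ⌊Y⌋₊) (by omega) hNz W
      (E := (1 : ℝ) * (X : ℝ) ^ (0 : ℝ)) (by
        rw [Real.rpow_zero, mul_one]
        have h1 : (Icc 1 X).filter (fun v => v ∈ W) ⊆ {n} := by
          intro v hv
          rw [mem_filter, hW] at hv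
          rw [mem_singleton]
          exact hv.2
        have h2 := card_le_card h1
        rw [card_singleton] at h2
        exact_mod_cast h2) hsize hdivs S hS
    have S4 := num2 (Cp := (1 : ℝ)) (L := L) (l := l) (δ := δ) (θ := (0 : ℝ)) (ε := ε) (η := η) (K := (⌊Y⌋₊ : ℝ)) (X := (X : ℝ))
      (E := (1 : ℝ) * (X : ℝ) ^ (0 : ℝ)) (s := Real.exp (δ * L)) (A := A) (J := J) (D := Dd) le_rfl zero_le_one hδ0 le_rfl
      hηδ hε a1 hl.symm hL0 hJ1 hJl
      (aux6 hδ0 a1 (hc _ (by rw [hR]; linarith)))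
      (by positivity) (by rw [← hY]; exact Nat.floor_le (by linarith)) (by positivity) hX1 rfl hDd1
      (aux7 (by positivity) (by norm_num) hδ0 a1 (hc1 _ r5 (by rw [hR]; linarith)))
      (by rw [zero_add])
    have h1 : ((S.filter (fun m => sp z m ≤ ⌊Y⌋₊)).filter (fun m => f m = n)) ⊆
        S.filter (fun m => sp z m ≤ ⌊Y⌋₊ ∧ f m ∈ W) := by
      intro m hm
      rw [mem_filter, mem_filter] at hm
      rw [mem_filter, hW]
      exact ⟨hm.1.1, hm.1.2, hm.2⟩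
    have h2 := (Nat.cast_le (α := ℝ)).2 (card_le_card h1)
    refine h2.trans (S3.trans (S4.trans ?_))
    have h3 : 1 ≤ L ^ A := one_le_pow₀ hL1
    have h4 : 1 / (2 * L ^ A) ≤ 1 := by
      rw [div_le_one (by positivity)]
      linarith
    calc Real.exp (δ * L) * (1 / (2 * L ^ A)) ≤ Real.exp (δ * L) * 1 := mul_le_mul_of_nonneg_left h4 (Real.exp_pos _).le
      _ = (N : ℝ) ^ δ := by rw [mul_one, hNe, ← Real.exp_mul, mul_comm]

end Pool.Agent.U405.RS
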