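import Mathlib
import Pool.Agent.U405.RS.G

set_option autoImplicit false

/-! Tuples of elements of regular sets (helper405): the tuples of values avoid sets of tuples with a power saving. -/

namespace Pool.Agent.U405.RS

open Finset Classical

/-- the tuples from a product with the `i`-th coordinate in a small set -/
lemma slab {k : ℕ} (S : Fin k → Finset ℕ) (i : Fin k) (U : Finset ℕ) {ρ : ℝ} (hρ : 0 ≤ ρ)
    (h : (((S i).filter (fun m => m ∈ U)).card : ℝ) ≤ ρ * (S i).card) :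
    (((Fintype.piFinset S).filter (fun m => m i ∈ U)).card : ℝ) ≤ ρ * ∏ j, ((S j).card : ℝ) := by
  have h1 : (Fintype.piFinset S).filter (fun m => m i ∈ U) =
      Fintype.piFinset (Function.update S i ((S i).filter (fun m => m ∈ U))) := by
    ext m
    rw [mem_filter, Fintype.mem_piFinset, Fintype.mem_piFinset]
    constructor
    · rintro ⟨h1, h2⟩ j
      rcases eq_or_ne j i with rfl | hj
      · rw [Function.update_self, mem_filter]
        exact ⟨h1 j, h2⟩
      · rw [Function.update_of_ne hj]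
        exact h1 j
    · intro h1
      have h2 := h1 i
      rw [Function.update_self, mem_filter] at h2
      refine ⟨fun j => ?_, h2.2⟩
      rcases eq_or_ne j i with rfl | hj
      · exact h2.1
      · have := h1 j
        rwa [Function.update_of_ne hj] at this
  rw [h1, Fintype.card_piFinset]
  have h2 : ∏ j, (Function.update S i ((S i).filter (fun m => m ∈ U)) j).card =
      ((S i).filter (fun m => m ∈ U)).card * ∏ j ∈ univ.erase i, (S j).card := by
    rw [← mul_prod_erase univ _ (mem_univ i), Function.update_self]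
    congr 1
    apply prod_congr rfl
    intro j hj
    rw [Function.update_of_ne (ne_of_mem_erase hj)]
  rw [h2, ← mul_prod_erase univ (fun j => ((S j).card : ℝ)) (mem_univ i)]
  push_cast
  have h3 : (0 : ℝ) ≤ ∏ j ∈ univ.erase i, ((S j).card : ℝ) := prod_nonneg fun _ _ => Nat.cast_nonneg _
  calc (((S i).filter (fun m => m ∈ U)).card : ℝ) * ∏ j ∈ univ.erase i, ((S j).card : ℝ)
      ≤ (ρ * (S i).card) * ∏ j ∈ univ.erase i, ((S j).card : ℝ) := mul_le_mul_of_nonneg_right h h3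
    _ = ρ * ((S i).card * ∏ j ∈ univ.erase i, ((S j).card : ℝ)) := by ring

/-- the tuples with values in a finite set -/
lemma fibres {k : ℕ} {F : Fin k → ℕ → ℕ} (T : Fin k → Finset ℕ) {M : ℝ} (hM : 0 ≤ M)
    (hT : ∀ i, ∀ n : ℕ, (((T i).filter (fun m => F i m = n)).card : ℝ) ≤ M) (V : Finset (Fin k → ℕ)) :
    (((Fintype.piFinset T).filter (fun m => (fun i => F i (m i)) ∈ V)).card : ℝ) ≤ V.card * M ^ k := by
  have h1 : ((Fintype.piFinset T).filter (fun m => (fun i => F i (m i)) ∈ V)) ⊆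
      V.biUnion (fun w => Fintype.piFinset (fun i => (T i).filter (fun m => F i m = w i))) := by
    intro m hm
    rw [mem_filter, Fintype.mem_piFinset] at hm
    rw [mem_biUnion]
    refine ⟨_, hm.2, ?_⟩
    rw [Fintype.mem_piFinset]
    exact fun i => mem_filter.2 ⟨hm.1 i, rfl⟩
  have h2 : (((Fintype.piFinset T).filter (fun m => (fun i => F i (m i)) ∈ V)).card : ℝ) ≤
      ∑ w ∈ V, ((Fintype.piFinset (fun i => (T i).filter (fun m => F i m = w i))).card : ℝ) := by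
    exact_mod_cast (card_le_card h1).trans card_biUnion_le
  refine h2.trans ((sum_le_card_nsmul V _ (M ^ k) fun w _ => ?_).trans (le_of_eq (nsmul_eq_mul _ _)))
  rw [Fintype.card_piFinset]
  push_cast
  calc ∏ i, (((T i).filter (fun m => F i m = w i)).card : ℝ) ≤ ∏ _i : Fin k, M :=
        prod_le_prod (fun _ _ => Nat.cast_nonneg _) (fun i _ => hT i _)
    _ = M ^ k := by rw [prod_const, card_univ, Fintype.card_fin]

/-- **Tuples.** Let `F_1, …, F_k` be in the class `PM`, let `W` have at most `C₀ X^(k - c)` elements in `[2, X]^k`, and let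
`S_1, …, S_k` be sets of at least `N^(τ - δ)` integers up to `N` with at most `B g^ω(q) |S_i| / q` multiples of `q` for every
`q ≤ N^δ`, `k τ > k - c`. Then the tuple of the values is in `W`, or one of them is `1`, for at most `∏ |S_i| / (log N)^A`
tuples. -/
theorem tuplesS {k : ℕ} (hk : 1 ≤ k) {F : Fin k → ℕ → ℕ} (hF : ∀ i, PM (F i)) {c τ : ℝ} (hc : 0 < c) (hτ0 : 0 < τ)
    (hτ : (k : ℝ) - c < k * τ) (hτ1 : τ ≤ 1) (C₀ B : ℝ) (g A : ℕ) : ∃ δ : ℝ, 0 < δ ∧ δ ≤ 1 / 8 ∧ 2 * δ < τ ∧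
      ∃ N₀ : ℕ, ∀ N : ℕ, N₀ ≤ N → ∀ W : Set (Fin k → ℕ),
      (∀ X : ℕ, 1 ≤ X → ({w : Fin k → ℕ | (∀ i, 2 ≤ w i ∧ w i ≤ X) ∧ w ∈ W}.ncard : ℝ) ≤ C₀ * (X : ℝ) ^ ((k : ℝ) - c)) →
      ∀ S : Fin k → Finset ℕ, (∀ i, ∀ m ∈ S i, 1 ≤ m ∧ m ≤ N) → (∀ i, (N : ℝ) ^ (τ - δ) ≤ (S i).card) →
      (∀ i, ∀ q : ℕ, 1 ≤ q → (q : ℝ) ≤ (N : ℝ) ^ δ → (((S i).filter (fun m => q ∣ m)).card : ℝ) ≤
        B * (g : ℝ) ^ q.primeFactors.card * (S i).card / q) →
      (((Fintype.piFinset S).filter (fun m => ¬ ((∀ i, 2 ≤ F i (m i)) ∧ (fun i => F i (m i)) ∉ W))).card : ℝ) ≤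
        (∏ i, ((S i).card : ℝ)) / Real.log N ^ A := by
  have hk1 : (1 : ℝ) ≤ k := by exact_mod_cast hk
  have hk0 : (0 : ℝ) < k := by linarith
  obtain ⟨c₁, hc₁⟩ : ∃ c₁ : ℝ, c₁ = min c k := ⟨_, rfl⟩
  have hc₁c : c₁ ≤ c := by rw [hc₁]; exact min_le_left _ _
  have hc₁k : c₁ ≤ k := by rw [hc₁]; exact min_le_right _ _
  obtain ⟨γ, hγ⟩ : ∃ γ : ℝ, γ = k * τ - (k - c₁) := ⟨_, rfl⟩
  have hγ0 : 0 < γ := by
    rw [hγ, hc₁]
    rcases le_total c k with h | h
    · rw [min_eq_left h]; linarith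
    · rw [min_eq_right h]
      have : 0 < (k : ℝ) * τ := by positivity
      linarith
  have hγτ : γ ≤ k * τ := by rw [hγ]; linarith
  obtain ⟨δ, hδ⟩ : ∃ δ : ℝ, δ = γ / (8 * k) := ⟨_, rfl⟩
  have hδ0 : 0 < δ := by rw [hδ]; positivity
  have hδk : k * δ = γ / 8 := by rw [hδ]; field_simp
  have hδτ : δ ≤ τ / 8 := by
    rw [hδ, div_le_iff₀ (by positivity)]
    linarith
  have hδ8 : δ ≤ 1 / 8 := by linarith
  refine ⟨δ, hδ0, hδ8, by linarith, ?_⟩
  have typ : ∀ i, ∃ N₀ : ℕ, ∀ N : ℕ, N₀ ≤ N →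
      ∀ S : Finset ℕ, (∀ m ∈ S, 1 ≤ m ∧ m ≤ N) →
      (∀ q : ℕ, 1 ≤ q → (q : ℝ) ≤ (N : ℝ) ^ δ → ((S.filter (fun m => q ∣ m)).card : ℝ) ≤
        B * (g : ℝ) ^ q.primeFactors.card * S.card / q) →
      ∃ T ⊆ S, ((S \ T).card : ℝ) ≤ S.card / (Real.log N) ^ (A + 1) ∧ (∀ m ∈ T, ((F i m : ℕ) : ℝ) ≤ (N : ℝ) ^ (1 + δ)) ∧
        ∀ n : ℕ, ((T.filter (fun m => F i m = n)).card : ℝ) ≤ (N : ℝ) ^ δ :=
    fun i => typical (hF i) hδ0 (by linarith) B g (A + 1)
  choose N₁ hN₁ using typ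
  -- large `N`
  have hlog : Filter.Tendsto (fun x : ℕ => Real.log (x : ℝ)) Filter.atTop Filter.atTop :=
    Real.tendsto_log_atTop.comp tendsto_natCast_atTop_atTop
  have t1 : ∀ᶠ x : ℕ in Filter.atTop, 3 * (k : ℝ) ≤ Real.log (x : ℝ) := hlog.eventually_ge_atTop _
  have tp : ∀ r K : ℝ, 0 < r → ∀ᶠ x : ℕ in Filter.atTop, K * Real.log (x : ℝ) ^ A ≤ (x : ℝ) ^ r := by
    intro r K hr
    have h1 := (isLittleO_log_rpow_rpow_atTop (A : ℝ) hr).bound (show (0 : ℝ) < 1 / (|K| + 1) by positivity)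
    have h2 := tendsto_natCast_atTop_atTop (R := ℝ) |>.eventually h1
    filter_upwards [h2, Filter.eventually_ge_atTop 3] with x h3 h4
    have hx : (1 : ℝ) ≤ x := by exact_mod_cast (by omega : 1 ≤ x)
    have hl : 0 ≤ Real.log (x : ℝ) := Real.log_nonneg hx
    rw [Real.rpow_natCast, Real.norm_of_nonneg (by positivity), Real.norm_of_nonneg (by positivity)] at h3
    rw [div_mul_eq_mul_div, one_mul, le_div_iff₀ (by positivity)] at h3
    calc K * Real.log (x : ℝ) ^ A ≤ Real.log (x : ℝ) ^ A * (|K| + 1) := by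
          have h5 : 0 ≤ Real.log (x : ℝ) ^ A := by positivity
          have := le_abs_self K
          nlinarith
      _ ≤ _ := h3
  obtain ⟨N₂, hN₂⟩ := Filter.eventually_atTop.1 (t1.and ((tp (τ - 2 * δ) (3 * k) (by linarith)).and
    (tp (γ / 2) (3 * |C₀|) (by positivity))))
  refine ⟨(∑ i, N₁ i) + N₂ + 3, fun N hN W hW S hS hcard hreg => ?_⟩
  obtain ⟨a1, a2, a3⟩ := hN₂ N (by omega)
  have hNi : ∀ i, N₁ i ≤ N := by
    intro i
    have : N₁ i ≤ ∑ i, N₁ i := single_le_sum (f := N₁) (fun _ _ => Nat.zero_le _) (mem_univ i)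
    omega
  choose T hTS hT1 hT2 hT3 using fun i => hN₁ i N (hNi i) (S i) (hS i) (hreg i)
  have hNr : (1 : ℝ) < N := by exact_mod_cast (by omega : 1 < N)
  have hN0 : (0 : ℝ) < N := by linarith
  obtain ⟨L, hL⟩ : ∃ L, L = Real.log (N : ℝ) := ⟨_, rfl⟩
  rw [← hL] at a1 a2 a3 hT1 ⊢
  have hL0 : 0 < L := by linarith
  obtain ⟨Q, hQ⟩ : ∃ Q : ℝ, Q = ∏ i, ((S i).card : ℝ) := ⟨_, rfl⟩
  rw [← hQ]
  have hSpos : ∀ i, (0 : ℝ) < (S i).card := fun i => lt_of_lt_of_le (Real.rpow_pos_of_pos hN0 _) (hcard i)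
  have hQ0 : 0 ≤ Q := by rw [hQ]; exact prod_nonneg fun _ _ => Nat.cast_nonneg _
  have hQN : (N : ℝ) ^ (k * (τ - δ)) ≤ Q := by
    rw [hQ]
    calc (N : ℝ) ^ (k * (τ - δ)) = ∏ _i : Fin k, (N : ℝ) ^ (τ - δ) := by
          rw [prod_const, card_univ, Fintype.card_fin, ← Real.rpow_natCast, ← Real.rpow_mul hN0.le]
          congr 1
          ring
      _ ≤ _ := prod_le_prod (fun _ _ => by positivity) (fun i _ => hcard i)
  have hLA : 0 < L ^ A := by positivity
  -- the untypical tuples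
  have p1 : ∀ i, (((Fintype.piFinset S).filter (fun m => m i ∈ S i \ T i)).card : ℝ) ≤ 1 / L ^ (A + 1) * Q := by
    intro i
    rw [hQ]
    apply slab S i _ (by positivity)
    have : (S i).filter (fun m => m ∈ S i \ T i) = S i \ T i := by
      rw [filter_mem_eq_inter, inter_eq_right]
      exact sdiff_subset
    rw [this]
    refine (hT1 i).trans (le_of_eq ?_)
    ring
  -- the tuples with a value one
  have p2 : ∀ i, (((Fintype.piFinset S).filter (fun m => m i ∈ (T i).filter (fun m => F i m = 1))).card : ℝ) ≤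
      (N : ℝ) ^ (2 * δ - τ) * Q := by
    intro i
    rw [hQ]
    apply slab S i _ (by positivity)
    have h1 : (((S i).filter (fun m => m ∈ (T i).filter (fun m => F i m = 1))).card : ℝ) ≤
        (((T i).filter (fun m => F i m = 1)).card : ℝ) := by
      exact_mod_cast card_le_card (fun m hm => (mem_filter.1 hm).2)
    refine h1.trans ((hT3 i 1).trans ?_)
    calc (N : ℝ) ^ δ = (N : ℝ) ^ (2 * δ - τ) * (N : ℝ) ^ (τ - δ) := by
          rw [← Real.rpow_add hN0]
          congr 1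
          ring
      _ ≤ _ := mul_le_mul_of_nonneg_left (hcard i) (by positivity)
  -- the tuples with values in `W`
  obtain ⟨X, hX⟩ : ∃ X : ℕ, X = ⌊(N : ℝ) ^ (1 + δ)⌋₊ := ⟨_, rfl⟩
  have hXle : (X : ℝ) ≤ (N : ℝ) ^ (1 + δ) := by rw [hX]; exact Nat.floor_le (by positivity)
  have hX1 : 1 ≤ X := by
    rw [hX]
    apply Nat.le_floor
    push_cast
    exact Real.one_le_rpow hNr.le (by linarith)
  have hXr : (1 : ℝ) ≤ X := by exact_mod_cast hX1
  have hfin : {w : Fin k → ℕ | (∀ i, 2 ≤ w i ∧ w i ≤ X) ∧ w ∈ W}.Finite := by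
    apply (Set.Finite.pi' fun _ : Fin k => Set.finite_Icc 2 X).subset
    intro w hw i
    exact hw.1 i
  have p3 : (((Fintype.piFinset T).filter (fun m => (fun i => F i (m i)) ∈ hfin.toFinset)).card : ℝ) ≤
      |C₀| * (N : ℝ) ^ (-(γ / 2)) * Q := by
    refine (fibres T (M := (N : ℝ) ^ δ) (by positivity) hT3 _).trans ?_
    have h1 : ((hfin.toFinset.card : ℕ) : ℝ) ≤ |C₀| * (X : ℝ) ^ ((k : ℝ) - c₁) := by
      rw [← Set.ncard_eq_toFinset_card _ hfin]
      refine (hW X hX1).trans ?_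
      refine (mul_le_mul_of_nonneg_right (le_abs_self C₀) (by positivity)).trans ?_
      exact mul_le_mul_of_nonneg_left (Real.rpow_le_rpow_of_exponent_le hXr (by linarith)) (abs_nonneg _)
    have h2 : (X : ℝ) ^ ((k : ℝ) - c₁) ≤ (N : ℝ) ^ ((1 + δ) * (k - c₁)) := by
      rw [Real.rpow_mul hN0.le]
      exact Real.rpow_le_rpow (by linarith) hXle (by linarith)
    calc (hfin.toFinset.card : ℝ) * ((N : ℝ) ^ δ) ^ k
        ≤ (|C₀| * (N : ℝ) ^ ((1 + δ) * (k - c₁))) * (N : ℝ) ^ (k * δ) := by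
          rw [← Real.rpow_natCast ((N : ℝ) ^ δ) k, ← Real.rpow_mul hN0.le, mul_comm δ]
          apply mul_le_mul_of_nonneg_right _ (by positivity)
          exact h1.trans (mul_le_mul_of_nonneg_left h2 (abs_nonneg _))
      _ = |C₀| * (N : ℝ) ^ ((1 + δ) * (k - c₁) + k * δ) := by
          rw [Real.rpow_add hN0]; ring
      _ ≤ |C₀| * ((N : ℝ) ^ (-(γ / 2)) * (N : ℝ) ^ (k * (τ - δ))) := by
          apply mul_le_mul_of_nonneg_left _ (abs_nonneg _)
          rw [← Real.rpow_add hN0]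
          apply Real.rpow_le_rpow_of_exponent_le hNr.le
          have e1 : δ * (k - c₁) ≤ k * δ := by
            have : 0 ≤ δ * c₁ := by
              have : 0 < c₁ := by rw [hc₁]; exact lt_min hc hk0
              positivity
            nlinarith
          have e2 : k * τ = γ + (k - c₁) := by rw [hγ]; ring
          nlinarith
      _ ≤ |C₀| * ((N : ℝ) ^ (-(γ / 2)) * Q) := by
          apply mul_le_mul_of_nonneg_left _ (abs_nonneg _)
          exact mul_le_mul_of_nonneg_left hQN (by positivity)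
      _ = _ := by ring
  -- the union
  have hsub : (Fintype.piFinset S).filter (fun m => ¬ ((∀ i, 2 ≤ F i (m i)) ∧ (fun i => F i (m i)) ∉ W)) ⊆
      ((univ.biUnion fun i => (Fintype.piFinset S).filter (fun m => m i ∈ S i \ T i)) ∪
        (univ.biUnion fun i => (Fintype.piFinset S).filter (fun m => m i ∈ (T i).filter (fun m => F i m = 1)))) ∪
        (Fintype.piFinset T).filter (fun m => (fun i => F i (m i)) ∈ hfin.toFinset) := by
    intro m hm
    rw [mem_filter] at hm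
    obtain ⟨hmS, hm2⟩ := hm
    have hmS' := Fintype.mem_piFinset.1 hmS
    rw [mem_union, mem_union, mem_biUnion, mem_biUnion]
    by_cases h1 : ∀ i, m i ∈ T i
    · by_cases h2 : ∀ i, 2 ≤ F i (m i)
      · right
        rw [mem_filter, Fintype.mem_piFinset]
        refine ⟨h1, ?_⟩
        rw [Set.Finite.mem_toFinset]
        refine ⟨fun i => ⟨h2 i, ?_⟩, ?_⟩
        · rw [hX]
          exact Nat.le_floor (hT2 i _ (h1 i))
        · by_contra h3
          exact hm2 ⟨h2, h3⟩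
      · left; right
        push Not at h2
        obtain ⟨i, hi⟩ := h2
        refine ⟨i, mem_univ _, mem_filter.2 ⟨hmS, mem_filter.2 ⟨h1 i, ?_⟩⟩⟩
        have := (hF i).pos _ (hS i _ (hmS' i)).1
        omega
    · left; left
      push Not at h1
      obtain ⟨i, hi⟩ := h1
      exact ⟨i, mem_univ _, mem_filter.2 ⟨hmS, mem_sdiff.2 ⟨hmS' i, hi⟩⟩⟩
  have hle := (Nat.cast_le (α := ℝ)).2 ((card_le_card hsub).trans ((card_union_le _ _).trans
    (Nat.add_le_add_right (card_union_le _ _) _)))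
  push_cast at hle
  have q1 : (((univ.biUnion fun i => (Fintype.piFinset S).filter (fun m => m i ∈ S i \ T i)).card : ℕ) : ℝ) ≤
      k * (1 / L ^ (A + 1) * Q) := by
    refine (Nat.cast_le.2 card_biUnion_le).trans ?_
    push_cast
    refine (sum_le_card_nsmul _ _ _ (fun i _ => p1 i)).trans (le_of_eq ?_)
    rw [card_univ, Fintype.card_fin, nsmul_eq_mul]
  have q2 : (((univ.biUnion fun i => (Fintype.piFinset S).filter (fun m => m i ∈ (T i).filter (fun m => F i m = 1))).card :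
      ℕ) : ℝ) ≤ k * ((N : ℝ) ^ (2 * δ - τ) * Q) := by
    refine (Nat.cast_le.2 card_biUnion_le).trans ?_
    push_cast
    refine (sum_le_card_nsmul _ _ _ (fun i _ => p2 i)).trans (le_of_eq ?_)
    rw [card_univ, Fintype.card_fin, nsmul_eq_mul]
  -- numerical end
  have r1 : k * (1 / L ^ (A + 1) * Q) ≤ 1 / 3 * (Q / L ^ A) := by
    rw [pow_succ]
    have e1 : k * (1 / (L ^ A * L) * Q) = (k / L) * (Q / L ^ A) := by field_simp
    rw [e1]
    apply mul_le_mul_of_nonneg_right _ (by positivity)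
    rw [div_le_iff₀ hL0]
    linarith
  have r2 : k * ((N : ℝ) ^ (2 * δ - τ) * Q) ≤ 1 / 3 * (Q / L ^ A) := by
    have e1 : (N : ℝ) ^ (2 * δ - τ) = 1 / (N : ℝ) ^ (τ - 2 * δ) := by
      rw [one_div, ← Real.rpow_neg hN0.le]
      congr 1
      ring
    have e2 : 0 < (N : ℝ) ^ (τ - 2 * δ) := by positivity
    rw [e1]
    have e3 : k * (1 / (N : ℝ) ^ (τ - 2 * δ) * Q) = (k / (N : ℝ) ^ (τ - 2 * δ)) * Q := by ring
    have e4 : 1 / 3 * (Q / L ^ A) = (1 / (3 * L ^ A)) * Q := by field_simp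
    rw [e3, e4]
    apply mul_le_mul_of_nonneg_right _ hQ0
    rw [div_le_div_iff₀ e2 (by positivity)]
    linarith
  have r3 : |C₀| * (N : ℝ) ^ (-(γ / 2)) * Q ≤ 1 / 3 * (Q / L ^ A) := by
    have e2 : 0 < (N : ℝ) ^ (γ / 2) := by positivity
    rw [Real.rpow_neg hN0.le]
    have e4 : 1 / 3 * (Q / L ^ A) = (1 / (3 * L ^ A)) * Q := by field_simp
    rw [e4]
    apply mul_le_mul_of_nonneg_right _ hQ0
    rw [← div_eq_mul_inv, div_le_div_iff₀ e2 (by positivity)]
    linarith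
  linarith

end Pool.Agent.U405.RS
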