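import Mathlib
import Pool.Agent.U405.RS.G2

set_option autoImplicit false

/-! Tuples of elements of regular sets (helper405): shifted primes and short intervals. -/

namespace Pool.Agent.U405.RS

open Finset Classical

/-- the shifted primes are regular -/
lemma shp_regular (a : ℤ) {δ : ℝ} (hδ0 : 0 < δ) (hδ4 : δ ≤ 1 / 4) : ∃ N₀ : ℕ, ∀ x : ℕ, N₀ ≤ x →
    (∀ m ∈ shp a x, 1 ≤ m ∧ m ≤ 2 * x) ∧ ((2 * x : ℕ) : ℝ) ^ (1 - δ) ≤ (shp a x).card ∧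
    ∀ k : ℕ, 1 ≤ k → (k : ℝ) ≤ ((2 * x : ℕ) : ℝ) ^ δ → (((shp a x).filter (fun m => k ∣ m)).card : ℝ) ≤
      72 * ((2 : ℕ) : ℝ) ^ k.primeFactors.card * (shp a x).card / k := by
  obtain ⟨θ, hθd⟩ : ∃ θ : ℝ, θ = 1 - 2 * δ := ⟨_, rfl⟩
  have hθ0 : 0 ≤ θ := by rw [hθd]; linarith
  have hθ : θ < 1 := by rw [hθd]; linarith
  have hδθ : δ ≤ (1 - θ) / 2 := by rw [hθd]; linarith
  obtain ⟨N₃, hN₃⟩ := Pool.Agent.H307R2.OP.bt4
  -- large `x`
  have hlog : Filter.Tendsto (fun x : ℕ => Real.log (x : ℝ)) Filter.atTop Filter.atTop :=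
    Real.tendsto_log_atTop.comp tendsto_natCast_atTop_atTop
  have t1 : ∀ᶠ x : ℕ in Filter.atTop, Real.log (x : ℝ) ≤ (x : ℝ) ^ (δ / 2) := by
    have := (isLittleO_log_rpow_atTop (r := δ / 2) (by positivity)).bound (show (0 : ℝ) < 1 by norm_num)
    have h2 := tendsto_natCast_atTop_atTop (R := ℝ) |>.eventually this
    filter_upwards [h2, Filter.eventually_ge_atTop 3] with x h3 h4
    have hx : (1 : ℝ) ≤ x := by exact_mod_cast (by omega : 1 ≤ x)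
    rw [Real.norm_of_nonneg (Real.log_nonneg hx), Real.norm_of_nonneg (by positivity), one_mul] at h3
    exact h3
  have t2 : ∀ᶠ x : ℕ in Filter.atTop, (4 : ℝ) * 2 ^ (θ + δ) ≤ (x : ℝ) ^ (δ / 2) :=
    ((tendsto_rpow_atTop (by positivity : 0 < δ / 2)).comp tendsto_natCast_atTop_atTop).eventually_ge_atTop _
  have t3 : ∀ᶠ x : ℕ in Filter.atTop, (20 : ℝ) * (a.natAbs + 2) ≤ (x : ℝ) ^ (1 / 2 : ℝ) :=
    ((tendsto_rpow_atTop (by norm_num : (0 : ℝ) < 1 / 2)).comp tendsto_natCast_atTop_atTop).eventually_ge_atTop _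
  have t4 : ∀ᶠ x : ℕ in Filter.atTop, (N₃ : ℝ) ≤ (x : ℝ) ^ (1 / 2 : ℝ) :=
    ((tendsto_rpow_atTop (by norm_num : (0 : ℝ) < 1 / 2)).comp tendsto_natCast_atTop_atTop).eventually_ge_atTop _
  obtain ⟨N₂, hN₂⟩ := Filter.eventually_atTop.1 (t1.and (t2.and (t3.and t4)))
  refine ⟨N₂ + a.natAbs + 16, fun x hx => ?_⟩
  obtain ⟨a1, a2, a3, a4⟩ := hN₂ x (by omega)
  have hx16 : (16 : ℝ) ≤ x := by exact_mod_cast (by omega : 16 ≤ x)
  have hx0 : (0 : ℝ) < x := by linarith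
  have hx1 : (1 : ℝ) ≤ x := by linarith
  have hlx : 0 < Real.log x := Real.log_pos (by linarith)
  have hlx1 : 1 ≤ Real.log x := by
    rw [Real.le_log_iff_exp_le hx0]
    have := Real.exp_one_lt_d9
    linarith
  obtain ⟨N, hN⟩ : ∃ N : ℕ, N = 2 * x := ⟨_, rfl⟩
  have hNx : x ≤ N := by omega
  have hN2 : (N : ℝ) ≤ 2 * x := by
    have : N ≤ 2 * x := by omega
    exact_mod_cast this
  have hN0 : (0 : ℝ) < N := by exact_mod_cast (by omega : 0 < N)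
  have hlogle : Real.log x ≤ 2 * (x : ℝ) ^ (1 / 2 : ℝ) := by
    have h1 := Real.log_le_rpow_div hx0.le (show (0 : ℝ) < 1 / 2 by norm_num)
    linarith
  have hsq : (x : ℝ) ^ (1 / 2 : ℝ) * (x : ℝ) ^ (1 / 2 : ℝ) = x := by
    rw [← Real.rpow_add hx0]; norm_num
  have hsq0 : 0 < (x : ℝ) ^ (1 / 2 : ℝ) := by positivity
  -- size of the set
  have hpi : (x : ℝ) / (2 * Real.log x) ≤ (shp a x).card := by
    have h1 := Chebyshev.pi_ge x
    have h2 : (Nat.primeCounting x : ℝ) ≤ (prs a x).card + a.natAbs + 1 := by exact_mod_cast prs_ge a x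
    have h3 : Real.log (x + 1) ≤ 3 * (x : ℝ) ^ (1 / 2 : ℝ) := by
      have h4 : Real.log ((x : ℝ) + 1) ≤ Real.log (2 * x) := Real.log_le_log (by linarith) (by linarith)
      rw [Real.log_mul (by norm_num) hx0.ne'] at h4
      have h5 := Real.log_two_lt_d9
      have h6 : (1 : ℝ) ≤ (x : ℝ) ^ (1 / 2 : ℝ) := Real.one_le_rpow hx1 (by norm_num)
      linarith
    rw [card_shp]
    have h7 : (x : ℝ) / (2 * Real.log x) + (a.natAbs + 1) ≤ (x * Real.log 2 - Real.log (x + 1)) / Real.log x := by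
      rw [le_div_iff₀ hlx]
      have h8 : ((x : ℝ) / (2 * Real.log x) + (a.natAbs + 1)) * Real.log x = x / 2 + (a.natAbs + 1) * Real.log x := by
        field_simp
      rw [h8]
      have h9 := Real.log_two_gt_d9
      have h10 : ((a.natAbs : ℝ) + 1) * Real.log x ≤ (a.natAbs + 2) * (2 * (x : ℝ) ^ (1 / 2 : ℝ)) :=
        mul_le_mul (by linarith) hlogle hlx.le (by positivity)
      have h11 : (20 : ℝ) * (a.natAbs + 2) * (x : ℝ) ^ (1 / 2 : ℝ) ≤ x := by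
        calc (20 : ℝ) * (a.natAbs + 2) * (x : ℝ) ^ (1 / 2 : ℝ) ≤ (x : ℝ) ^ (1 / 2 : ℝ) * (x : ℝ) ^ (1 / 2 : ℝ) :=
              mul_le_mul_of_nonneg_right a3 hsq0.le
          _ = x := hsq
      have h12 : (40 : ℝ) * (x : ℝ) ^ (1 / 2 : ℝ) ≤ x := by
        have : (40 : ℝ) ≤ 20 * (a.natAbs + 2) := by
          have : (0 : ℝ) ≤ a.natAbs := by positivity
          linarith
        have := mul_le_mul_of_nonneg_right this hsq0.le
        linarith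
      have h13 : 0.69 * (x : ℝ) ≤ x * Real.log 2 := by
        rw [mul_comm]
        exact mul_le_mul_of_nonneg_left (by linarith) hx0.le
      linarith
    linarith
  have hSpos : (0 : ℝ) ≤ (shp a x).card := Nat.cast_nonneg _
  have hS1 : ∀ v ∈ shp a x, 1 ≤ v ∧ v ≤ N := by
    intro v hv
    rw [shp, mem_image] at hv
    obtain ⟨p, hp, rfl⟩ := hv
    rw [prs, mem_filter, mem_Icc] at hp
    omega
  have hS2 : (N : ℝ) ^ (θ + δ) ≤ (shp a x).card := by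
    refine le_trans ?_ hpi
    rw [le_div_iff₀ (by positivity)]
    have e1 : (N : ℝ) ^ (θ + δ) ≤ 2 ^ (θ + δ) * (x : ℝ) ^ (θ + δ) := by
      rw [← Real.mul_rpow (by norm_num) hx0.le]
      exact Real.rpow_le_rpow hN0.le hN2 (by linarith)
    have e2 : (x : ℝ) ^ (θ + δ) ≤ (x : ℝ) ^ (1 - δ) := Real.rpow_le_rpow_of_exponent_le hx1 (by linarith)
    have e3 : (x : ℝ) ^ (1 - δ) * ((x : ℝ) ^ (δ / 2) * (x : ℝ) ^ (δ / 2)) = x := by
      rw [← Real.rpow_add hx0, ← Real.rpow_add hx0]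
      norm_num
    have e4 : (2 : ℝ) ^ (θ + δ) * 2 ≤ (x : ℝ) ^ (δ / 2) := by
      have : (0 : ℝ) < 2 ^ (θ + δ) := by positivity
      linarith
    calc (N : ℝ) ^ (θ + δ) * (2 * Real.log x) ≤ (2 ^ (θ + δ) * (x : ℝ) ^ (1 - δ)) * (2 * (x : ℝ) ^ (δ / 2)) := by
          apply mul_le_mul (e1.trans (mul_le_mul_of_nonneg_left e2 (by positivity))) (by linarith) (by linarith) (by positivity)
      _ = (x : ℝ) ^ (1 - δ) * ((2 ^ (θ + δ) * 2) * (x : ℝ) ^ (δ / 2)) := by ring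
      _ ≤ (x : ℝ) ^ (1 - δ) * ((x : ℝ) ^ (δ / 2) * (x : ℝ) ^ (δ / 2)) := by gcongr
      _ = x := e3
  have hS3 : ∀ k : ℕ, 1 ≤ k → (k : ℝ) ≤ (N : ℝ) ^ δ → (((shp a x).filter (fun m => k ∣ m)).card : ℝ) ≤
      72 * ((2 : ℕ) : ℝ) ^ k.primeFactors.card * (shp a x).card / k := by
    intro k hk hkN
    have hk0 : (0 : ℝ) < k := by exact_mod_cast hk
    have hk1 : (1 : ℝ) ≤ k := by exact_mod_cast hk
    have h1 : (k : ℝ) ≤ (x : ℝ) ^ (1 / 2 : ℝ) := by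
      refine hkN.trans ?_
      have h2 : (N : ℝ) ^ δ ≤ (2 * x) ^ δ := Real.rpow_le_rpow hN0.le hN2 hδ0.le
      have h3 : (2 * (x : ℝ)) ^ δ ≤ (2 * x) ^ (1 / 4 : ℝ) := Real.rpow_le_rpow_of_exponent_le (by linarith) hδ4
      have h4 : (2 * (x : ℝ)) ^ (1 / 4 : ℝ) ≤ ((x : ℝ) ^ (2 : ℝ)) ^ (1 / 4 : ℝ) := by
        apply Real.rpow_le_rpow (by positivity) _ (by norm_num)
        rw [Real.rpow_two]
        nlinarith
      have h5 : ((x : ℝ) ^ (2 : ℝ)) ^ (1 / 4 : ℝ) = (x : ℝ) ^ (1 / 2 : ℝ) := by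
        rw [← Real.rpow_mul hx0.le]; norm_num
      linarith
    have h2 : (x : ℝ) ^ (1 / 2 : ℝ) ≤ (x : ℝ) / k := by
      rw [le_div_iff₀ hk0]
      calc (x : ℝ) ^ (1 / 2 : ℝ) * k ≤ (x : ℝ) ^ (1 / 2 : ℝ) * (x : ℝ) ^ (1 / 2 : ℝ) :=
            mul_le_mul_of_nonneg_left h1 hsq0.le
        _ = x := hsq
    obtain ⟨M, hM⟩ : ∃ M : ℕ, M = x / k + 1 := ⟨_, rfl⟩
    have hM1 : (x : ℝ) / k ≤ M := by
      rw [hM]
      push_cast
      exact (Nat.lt_floor_add_one ((x : ℝ) / k)).le.trans (by rw [Nat.floor_div_eq_div])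
    have hM2 : (M : ℝ) ≤ 2 * (x / k) := by
      rw [hM]
      push_cast
      have h3 : ((x / k : ℕ) : ℝ) ≤ (x : ℝ) / k := Nat.cast_div_le
      have h4 : (1 : ℝ) ≤ (x : ℝ) ^ (1 / 2 : ℝ) := Real.one_le_rpow hx1 (by norm_num)
      linarith
    have hMN : N₃ ≤ M := by
      have : (N₃ : ℝ) ≤ M := by linarith
      exact_mod_cast this
    have hlM : Real.log x / 2 ≤ Real.log M := by
      have h3 : Real.log ((x : ℝ) ^ (1 / 2 : ℝ)) ≤ Real.log M := Real.log_le_log hsq0 (by linarith)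
      rw [Real.log_rpow hx0] at h3
      linarith
    have h3 := shp_dvd a (k := k) (x := x) hk
    rw [← hM] at h3
    have h4 := hN₃ ((-a) % (k : ℤ)).toNat k M hk hMN
    have h5 : (((shp a x).filter (fun m => k ∣ m)).card : ℝ) ≤
        9 / 2 * ((k : ℝ) / Nat.totient k) * (M / Real.log M) := le_trans (by exact_mod_cast h3) h4
    have ht : (0 : ℝ) < Nat.totient k := by exact_mod_cast Nat.totient_pos.2 hk
    have h6 : (k : ℝ) / Nat.totient k ≤ 2 ^ k.primeFactors.card := by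
      rw [div_le_iff₀ ht, mul_comm]
      exact_mod_cast totient_ge k hk
    have h7 : (M : ℝ) / Real.log M ≤ (2 * (x / k)) / (Real.log x / 2) := by
      have : 0 < Real.log x / 2 := by linarith
      gcongr
    have h8 : (2 * ((x : ℝ) / k)) / (Real.log x / 2) = 8 / k * (x / (2 * Real.log x)) := by
      field_simp; ring
    rw [h8] at h7
    have h9 : 8 / (k : ℝ) * (x / (2 * Real.log x)) ≤ 8 / k * (shp a x).card :=
      mul_le_mul_of_nonneg_left hpi (by positivity)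
    calc (((shp a x).filter (fun m => k ∣ m)).card : ℝ) ≤ 9 / 2 * ((k : ℝ) / Nat.totient k) * (M / Real.log M) := h5
      _ ≤ 9 / 2 * 2 ^ k.primeFactors.card * (8 / k * (shp a x).card) := by
          have h10 : (0 : ℝ) ≤ M / Real.log M := by
            have : 0 ≤ Real.log M := by linarith
            positivity
          exact mul_le_mul (mul_le_mul_of_nonneg_left h6 (by norm_num)) (h7.trans h9) h10 (by positivity)
      _ = 36 * ((2 : ℕ) : ℝ) ^ k.primeFactors.card * (shp a x).card / k := by push_cast; ring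
      _ ≤ 72 * ((2 : ℕ) : ℝ) ^ k.primeFactors.card * (shp a x).card / k := by
          apply div_le_div_of_nonneg_right _ hk0.le
          apply mul_le_mul_of_nonneg_right _ hSpos
          apply mul_le_mul_of_nonneg_right (by norm_num) (by positivity)
  rw [← hN]
  have hθδ : 1 - δ = θ + δ := by rw [hθd]; ring
  rw [hθδ]
  exact ⟨hS1, hS2, hS3⟩

/-- the short intervals are regular -/
lemma ioc_regular {τ δ : ℝ} (hδ0 : 0 < δ) (hδτ : 2 * δ < τ) : ∃ N₀ : ℕ, ∀ x : ℕ, N₀ ≤ x →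
    ∀ u h : ℕ, u ≤ x → (x : ℝ) ^ τ ≤ h → h ≤ x →
    (∀ m ∈ Ioc u (u + h), 1 ≤ m ∧ m ≤ 2 * x) ∧ ((2 * x : ℕ) : ℝ) ^ (τ - δ) ≤ (Ioc u (u + h)).card ∧
    ∀ k : ℕ, 1 ≤ k → (k : ℝ) ≤ ((2 * x : ℕ) : ℝ) ^ δ → (((Ioc u (u + h)).filter (fun m => k ∣ m)).card : ℝ) ≤
      2 * ((1 : ℕ) : ℝ) ^ k.primeFactors.card * (Ioc u (u + h)).card / k := by
  have ht1 := ((tendsto_rpow_atTop hδ0).comp tendsto_natCast_atTop_atTop).eventually_ge_atTop ((2 : ℝ) ^ (τ - δ))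
  obtain ⟨N₂, hN₂⟩ := Filter.eventually_atTop.1 ht1
  refine ⟨N₂ + 3, fun x hx u h hu hh hhx => ?_⟩
  have a1 := hN₂ x (by omega)
  simp only [Function.comp_apply] at a1
  have hx3 : (3 : ℝ) ≤ x := by exact_mod_cast (by omega : 3 ≤ x)
  have hx0 : (0 : ℝ) < x := by linarith
  have hcard : (Ioc u (u + h)).card = h := by rw [Nat.card_Ioc]; omega
  have hN1 : (1 : ℝ) ≤ ((2 * x : ℕ) : ℝ) := by exact_mod_cast (by omega : 1 ≤ 2 * x)
  have hsize : ((2 * x : ℕ) : ℝ) ^ (τ - δ) ≤ h := by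
    refine le_trans ?_ hh
    push_cast
    calc (2 * (x : ℝ)) ^ (τ - δ) = 2 ^ (τ - δ) * (x : ℝ) ^ (τ - δ) := Real.mul_rpow (by norm_num) hx0.le
      _ ≤ (x : ℝ) ^ δ * (x : ℝ) ^ (τ - δ) := mul_le_mul_of_nonneg_right a1 (by positivity)
      _ = (x : ℝ) ^ τ := by
          rw [← Real.rpow_add hx0]
          congr 1
          ring
  refine ⟨fun m hm => by rw [mem_Ioc] at hm; omega, by rw [hcard]; exact hsize, fun k hk hkN => ?_⟩
  have h1 : ((2 * x : ℕ) : ℝ) ^ δ ≤ ((2 * x : ℕ) : ℝ) ^ (τ - δ) :=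
    Real.rpow_le_rpow_of_exponent_le hN1 (by linarith)
  have hkh : k ≤ h := by exact_mod_cast (hkN.trans h1).trans hsize
  refine (count_interval hk hkh).trans (le_of_eq ?_)
  rw [hcard]
  push_cast
  rw [one_pow]
  ring

/-- a set of shifted primes `p + a ≥ 1`, `p ≤ x`, or an interval `(u, u + h]`, `u ≤ x`, `x ^ τ ≤ h ≤ x` -/
def Thin (τ : ℝ) (a : ℤ) (x : ℕ) (S : Finset ℕ) : Prop :=
  (∀ m : ℕ, m ∈ S ↔ 1 ≤ m ∧ ∃ p : ℕ, p.Prime ∧ p ≤ x ∧ (m : ℤ) = p + a) ∨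
    ∃ u h : ℕ, u ≤ x ∧ (x : ℝ) ^ τ ≤ h ∧ h ≤ x ∧ S = Ioc u (u + h)

lemma eq_shp {a : ℤ} {x : ℕ} {S : Finset ℕ} (h : ∀ m : ℕ, m ∈ S ↔ 1 ≤ m ∧ ∃ p : ℕ, p.Prime ∧ p ≤ x ∧ (m : ℤ) = p + a) :
    S = shp a x := by
  ext m
  rw [h, shp, mem_image]
  constructor
  · rintro ⟨h1, p, hp, hpx, hm⟩
    refine ⟨p, ?_, by omega⟩
    rw [prs, mem_filter, mem_Icc]
    exact ⟨⟨hp.one_lt.le, hpx⟩, hp, by omega⟩
  · rintro ⟨p, hp, rfl⟩
    rw [prs, mem_filter, mem_Icc] at hp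
    exact ⟨by omega, p, hp.2.1, hp.1.2, by omega⟩

/-- **Tuples from products of thin sets.** Let `F_1, …, F_k` be in the class `PM` and `k τ > k - c`, `0 < τ ≤ 1`. For all large
`x`, for every set `W` of `k`-tuples with at most `C₀ X^(k - c)` elements in `[2, X]^k` and all sets `S_1, …, S_k`, each of
them a set of shifted primes `p + a_i`, `p ≤ x`, or an interval `(u, u + h]`, `u ≤ x`, `x ^ τ ≤ h ≤ x`, the tuple
`(F_i(m_i))` is in `W`, or has a coordinate `1`, for at most `∏ |S_i| / (log x)^A` of the `m` in the product of the `S_i`. -/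
theorem thin_tuples {k : ℕ} (hk : 1 ≤ k) {F : Fin k → ℕ → ℕ} (hF : ∀ i, PM (F i)) {c τ : ℝ} (hc : 0 < c) (hτ0 : 0 < τ)
    (hτ : (k : ℝ) - c < k * τ) (hτ1 : τ ≤ 1) (A : ℕ) (C₀ : ℝ) (a : Fin k → ℤ) : ∃ N₀ : ℕ, ∀ x : ℕ, N₀ ≤ x →
      ∀ W : Set (Fin k → ℕ),
      (∀ X : ℕ, 1 ≤ X → ({w : Fin k → ℕ | (∀ i, 2 ≤ w i ∧ w i ≤ X) ∧ w ∈ W}.ncard : ℝ) ≤ C₀ * (X : ℝ) ^ ((k : ℝ) - c)) →
      ∀ S : Fin k → Finset ℕ, (∀ i, Thin τ (a i) x (S i)) →
      ({m : Fin k → ℕ | (∀ i, m i ∈ S i) ∧ ¬ ((∀ i, 2 ≤ F i (m i)) ∧ (fun i => F i (m i)) ∉ W)}.ncard : ℝ) ≤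
        (∏ i, ((S i).card : ℝ)) / Real.log x ^ A := by
  obtain ⟨δ, hδ0, hδ8, hδτ, N₁, hN₁⟩ := tuplesS hk hF hc hτ0 hτ hτ1 C₀ 72 2 A
  choose N₂ hN₂ using fun i => shp_regular (a i) hδ0 (by linarith : δ ≤ 1 / 4)
  obtain ⟨N₃, hN₃⟩ := ioc_regular (τ := τ) hδ0 hδτ
  refine ⟨N₁ + (∑ i, N₂ i) + N₃ + 3, fun x hx W hW S hS => ?_⟩
  have hx2 : ∀ i, N₂ i ≤ x := by
    intro i
    have : N₂ i ≤ ∑ i, N₂ i := single_le_sum (f := N₂) (fun _ _ => Nat.zero_le _) (mem_univ i)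
    omega
  have hx3 : (3 : ℝ) ≤ x := by exact_mod_cast (by omega : 3 ≤ x)
  have hx0 : (0 : ℝ) < x := by linarith
  have hN1 : (1 : ℝ) ≤ ((2 * x : ℕ) : ℝ) := by exact_mod_cast (by omega : 1 ≤ 2 * x)
  have hreg : ∀ i, (∀ m ∈ S i, 1 ≤ m ∧ m ≤ 2 * x) ∧ ((2 * x : ℕ) : ℝ) ^ (τ - δ) ≤ (S i).card ∧
      ∀ k : ℕ, 1 ≤ k → (k : ℝ) ≤ ((2 * x : ℕ) : ℝ) ^ δ → (((S i).filter (fun m => k ∣ m)).card : ℝ) ≤
        72 * ((2 : ℕ) : ℝ) ^ k.primeFactors.card * (S i).card / k := by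
    intro i
    rcases hS i with h | ⟨u, h, hu, hh, hhx, he⟩
    · rw [eq_shp h]
      obtain ⟨h1, h2, h3⟩ := hN₂ i x (hx2 i)
      exact ⟨h1, (Real.rpow_le_rpow_of_exponent_le hN1 (by linarith)).trans h2, h3⟩
    · rw [he]
      obtain ⟨h1, h2, h3⟩ := hN₃ x (by omega) u h hu hh hhx
      refine ⟨h1, h2, fun q hq hqN => (h3 q hq hqN).trans ?_⟩
      have hq0 : (0 : ℝ) < q := by exact_mod_cast hq
      have e1 : (1 : ℝ) ≤ 2 ^ q.primeFactors.card := one_le_pow₀ (by norm_num)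
      have e2 : (0 : ℝ) ≤ ((Ioc u (u + h)).card : ℝ) := Nat.cast_nonneg _
      push_cast
      rw [one_pow]
      apply div_le_div_of_nonneg_right _ hq0.le
      nlinarith
  have h1 := hN₁ (2 * x) (by omega) W hW S (fun i => (hreg i).1) (fun i => (hreg i).2.1) (fun i => (hreg i).2.2)
  have h2 : {m : Fin k → ℕ | (∀ i, m i ∈ S i) ∧ ¬ ((∀ i, 2 ≤ F i (m i)) ∧ (fun i => F i (m i)) ∉ W)} =
      (((Fintype.piFinset S).filter (fun m => ¬ ((∀ i, 2 ≤ F i (m i)) ∧ (fun i => F i (m i)) ∉ W)) : Finset (Fin k → ℕ)) :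
        Set (Fin k → ℕ)) := by
    ext m
    rw [coe_filter]
    simp only [Set.mem_ofPred_eq, Fintype.mem_piFinset]
  rw [h2, Set.ncard_coe_finset]
  refine h1.trans ?_
  have hlx : 0 < Real.log x := Real.log_pos (by linarith)
  have hlN : Real.log x ≤ Real.log ((2 * x : ℕ) : ℝ) := Real.log_le_log hx0 (by push_cast; linarith)
  have hQ : (0 : ℝ) ≤ ∏ i, ((S i).card : ℝ) := prod_nonneg fun _ _ => Nat.cast_nonneg _
  apply div_le_div_of_nonneg_left hQ (by positivity)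
  exact pow_le_pow_left₀ hlx.le hlN A

end Pool.Agent.U405.RS
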