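import Mathlib
import Pool.Agent.U405.RS.G3
import Pool.Agent.U405.RS.F

set_option autoImplicit false

/-! Tuples of elements of thin sets (helper405): the interface. -/

namespace Pool.Agent.U405.RS

open Finset Classical

/-- The property `P v`, uniformly in the parameter `v`, holds at `(F_1(m_1), …, F_k(m_k))` for almost all `m` (with a saving of
`(log x) ^ A`) in every product `S_1 × ⋯ × S_k` of thin sets: each `S_i` is the set of the shifted primes `p + a_i ≥ 1`,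
`p ≤ x`, or an interval `(u, u + h]`, `u ≤ x`, `x ^ τ ≤ h ≤ x` (`Thin`), where `0 < τ ≤ 1` and `k τ > k - c`. -/
def ThinAll {ι : Sort*} {k : ℕ} (c : ℝ) (F : Fin k → ℕ → ℕ) (A : ℕ) (P : ι → (Fin k → ℕ) → Prop) : Prop :=
  ∀ τ : ℝ, 0 < τ → τ ≤ 1 → (k : ℝ) - c < k * τ → ∀ a : Fin k → ℤ, ∃ N₀ : ℕ, ∀ x : ℕ, N₀ ≤ x → ∀ v : ι,
    ∀ S : Fin k → Finset ℕ, (∀ i, Thin τ (a i) x (S i)) →
      ({m : Fin k → ℕ | (∀ i, m i ∈ S i) ∧ ¬ P v (fun i => F i (m i))}.ncard : ℝ) ≤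
        (∏ i, ((S i).card : ℝ)) / Real.log x ^ A

/-- **The interface.** If for every `v` at most `C₀ X^(k - c)` of the tuples in `[2, X]^k` do not have the property `P v`, then
`P v` holds at `(F_1(m_1), …, F_k(m_k))` for almost all `m` in every product of thin sets. -/
theorem thinAll_of {ι : Sort*} {k : ℕ} (hk : 1 ≤ k) {F : Fin k → ℕ → ℕ} (hF : ∀ i, PM (F i)) {c : ℝ} (hc : 0 < c) (C₀ : ℝ)
    (P : ι → (Fin k → ℕ) → Prop)
    (hP : ∀ (v : ι) (X : ℕ), 1 ≤ X →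
      ({w : Fin k → ℕ | (∀ i, 2 ≤ w i ∧ w i ≤ X) ∧ ¬ P v w}.ncard : ℝ) ≤ C₀ * (X : ℝ) ^ ((k : ℝ) - c)) (A : ℕ) :
    ThinAll c F A P := by
  intro τ hτ0 hτ1 hτ a
  obtain ⟨N₀, hN₀⟩ := thin_tuples hk hF hc hτ0 hτ hτ1 A C₀ a
  refine ⟨N₀, fun x hx v S hS => ?_⟩
  refine le_trans ?_ (hN₀ x hx {w | ¬ P v w} (hP v) S hS)
  have hfin : {m : Fin k → ℕ | (∀ i, m i ∈ S i) ∧ ¬ ((∀ i, 2 ≤ F i (m i)) ∧ (fun i => F i (m i)) ∉ {w | ¬ P v w})}.Finite := by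
    apply (Set.Finite.pi' fun i : Fin k => (S i).finite_toSet).subset
    intro m hm i
    exact hm.1 i
  refine Nat.cast_le.2 (Set.ncard_le_ncard ?_ hfin)
  rintro m ⟨h1, h2⟩
  exact ⟨h1, fun h3 => h3.2 h2⟩

/-- the same, with all the values at least `2` -/
theorem thinAll_two {ι : Sort*} {k : ℕ} (hk : 1 ≤ k) {F : Fin k → ℕ → ℕ} (hF : ∀ i, PM (F i)) {c : ℝ} (hc : 0 < c) (C₀ : ℝ)
    (P : ι → (Fin k → ℕ) → Prop)
    (hP : ∀ (v : ι) (X : ℕ), 1 ≤ X →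
      ({w : Fin k → ℕ | (∀ i, 2 ≤ w i ∧ w i ≤ X) ∧ ¬ P v w}.ncard : ℝ) ≤ C₀ * (X : ℝ) ^ ((k : ℝ) - c)) (A : ℕ) :
    ThinAll c F A (fun v w => (∀ i, 2 ≤ w i) ∧ P v w) := by
  refine thinAll_of hk hF hc C₀ (fun v w => (∀ i, 2 ≤ w i) ∧ P v w) (fun v X hX => ?_) A
  have hfin : {w : Fin k → ℕ | (∀ i, 2 ≤ w i ∧ w i ≤ X) ∧ ¬ P v w}.Finite := by
    apply (Set.Finite.pi' fun _ : Fin k => Set.finite_Icc 2 X).subset
    intro w hw i
    exact hw.1 i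
  refine le_trans (Nat.cast_le.2 (Set.ncard_le_ncard ?_ hfin)) (hP v X hX)
  rintro w ⟨h1, h2⟩
  exact ⟨h1, fun h3 => h2 ⟨fun i => (h1 i).1, h3⟩⟩

/-- `ThinAll` with an arbitrary class of functions -/
theorem examplesT : PM Nat.totient ∧ PM (fun m => ∑ d ∈ m.divisors, d) ∧ PM (fun m => m) := examples

end Pool.Agent.U405.RS
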