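import Mathlib
import Pool.Agent.U405.RS.G4

set_option autoImplicit false

/-! Tuples of elements of thin sets (helper405): the interface with a condition on the parameter. -/

namespace Pool.Agent.U405.RS

open Finset Classical

/-- **The interface with a condition `H v` on the parameter.** -/
theorem thinAll_if {ι : Sort*} {k : ℕ} (hk : 1 ≤ k) {F : Fin k → ℕ → ℕ} (hF : ∀ i, PM (F i)) {c : ℝ} (hc : 0 < c) (C₀ : ℝ)
    (H : ι → Prop) (P : ι → (Fin k → ℕ) → Prop)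
    (hP : ∀ v : ι, H v → ∀ X : ℕ, 1 ≤ X →
      ({w : Fin k → ℕ | (∀ i, 2 ≤ w i ∧ w i ≤ X) ∧ ¬ P v w}.ncard : ℝ) ≤ C₀ * (X : ℝ) ^ ((k : ℝ) - c)) (A : ℕ) :
    ThinAll c F A (fun v w => H v → (∀ i, 2 ≤ w i) ∧ P v w) := by
  refine thinAll_of hk hF hc |C₀| (fun v w => H v → (∀ i, 2 ≤ w i) ∧ P v w) (fun v X hX => ?_) A
  by_cases hv : H v
  · have hfin : {w : Fin k → ℕ | (∀ i, 2 ≤ w i ∧ w i ≤ X) ∧ ¬ P v w}.Finite := by
      apply (Set.Finite.pi' fun _ : Fin k => Set.finite_Icc 2 X).subset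
      intro w hw i
      exact hw.1 i
    have h1 : ({w : Fin k → ℕ | (∀ i, 2 ≤ w i ∧ w i ≤ X) ∧ ¬ (H v → (∀ i, 2 ≤ w i) ∧ P v w)}.ncard : ℝ) ≤
        ({w : Fin k → ℕ | (∀ i, 2 ≤ w i ∧ w i ≤ X) ∧ ¬ P v w}.ncard : ℝ) := by
      refine Nat.cast_le.2 (Set.ncard_le_ncard ?_ hfin)
      rintro w ⟨h1, h2⟩
      exact ⟨h1, fun h3 => h2 fun _ => ⟨fun i => (h1 i).1, h3⟩⟩
    refine h1.trans ((hP v hv X hX).trans ?_)
    exact mul_le_mul_of_nonneg_right (le_abs_self _) (by positivity)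
  · have : {w : Fin k → ℕ | (∀ i, 2 ≤ w i ∧ w i ≤ X) ∧ ¬ (H v → (∀ i, 2 ≤ w i) ∧ P v w)} = ∅ := by
      ext w
      simp [hv]
    rw [this, Set.ncard_empty, Nat.cast_zero]
    positivity

end Pool.Agent.U405.RS
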